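import Pool.Agent.EWG.Stmts

/-!
# QDE: every extension of degree 2 is given by the data `QD`
-/

set_option autoImplicit false

namespace Pool.Agent.EWG

namespace QDE_

variable {F K : Type} [Field F] [Field K] [Algebra F K]

theorem indep {w : K} (hw : ∀ a : F, algebraMap F K a ≠ w) :
    LinearIndependent F ![(1 : K), w] := by
  rw [LinearIndependent.pair_iff]
  intro a b h
  by_cases hb : b = 0
  · subst hb
    rw [zero_smul, add_zero] at h
    refine ⟨?_, rfl⟩
    rcases smul_eq_zero.1 h with h | h
    · exact h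
    · exact absurd h one_ne_zero
  · exfalso
    apply hw (-(a / b))
    have hb' : algebraMap F K b ≠ 0 := by
      intro h0
      exact hb ((map_eq_zero _).1 h0)
    have h1 : algebraMap F K a + algebraMap F K b * w = 0 := by
      rw [Algebra.smul_def, Algebra.smul_def, mul_one] at h
      exact h
    rw [map_neg, map_div₀]
    field_simp
    linear_combination (-1 : K) * h1

/-- the coordinates with respect to `1, w` -/
theorem coords (h2 : Module.finrank F K = 2) {w : K} (hw : ∀ a : F, algebraMap F K a ≠ w) :
    ∃ t s : K →ₗ[F] F, (∀ y : K, y = algebraMap F K (t y) + algebraMap F K (s y) * w) ∧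
      (∀ a b : F, t (algebraMap F K a + algebraMap F K b * w) = a) ∧
      ∀ a b : F, s (algebraMap F K a + algebraMap F K b * w) = b := by
  have hli := indep (F := F) hw
  let b := basisOfLinearIndependentOfCardEqFinrank hli (by simp [h2])
  have hb0 : b 0 = 1 := by simp [b]
  have hb1 : b 1 = w := by simp [b]
  have e : ∀ a c : F, algebraMap F K a + algebraMap F K c * w = a • b 0 + c • b 1 := by
    intro a c
    rw [hb0, hb1, Algebra.smul_def, Algebra.smul_def, mul_one]
  refine ⟨b.coord 0, b.coord 1, ?_, ?_, ?_⟩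
  · intro y
    rw [e]
    have := b.sum_repr y
    rw [Fin.sum_univ_two] at this
    exact this.symm
  · intro a c
    rw [e]
    simp
  · intro a c
    rw [e]
    simp

end QDE_

open QDE_ in
theorem qde_proof : Stmt_QDE := by
  intro F K _ _ _ h2 hfr
  -- an element outside `F`
  obtain ⟨w, hw⟩ : ∃ w : K, ∀ a : F, algebraMap F K a ≠ w := by
    by_contra h
    push Not at h
    have h1 : (⊥ : Subalgebra F K) = ⊤ := by
      rw [eq_top_iff]
      intro w _
      obtain ⟨a, ha⟩ := h w
      exact Algebra.mem_bot.2 ⟨a, ha⟩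
    have h3 := Subalgebra.bot_eq_top_iff_finrank_eq_one.1 h1
    rw [hfr] at h3
    exact absurd h3 (by norm_num)
  obtain ⟨t₀, s₀, hd₀, -, -⟩ := coords hfr hw
  have h2K : (2 : K) ≠ 0 := by
    have := (map_ne_zero (algebraMap F K)).2 h2
    rwa [map_ofNat] at this
  -- the generator with trace zero
  obtain ⟨θ, hθ⟩ : ∃ θ : K, θ = w - algebraMap F K (s₀ (w ^ 2) / 2) := ⟨_, rfl⟩
  obtain ⟨x, hx⟩ : ∃ x : F, x = t₀ (w ^ 2) + (s₀ (w ^ 2) / 2) ^ 2 := ⟨_, rfl⟩
  have hsq : θ ^ 2 = algebraMap F K x := by
    have h3 := hd₀ (w ^ 2)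
    rw [hθ, hx]
    simp only [map_add, map_pow, map_div₀, map_ofNat]
    field_simp
    linear_combination (4 : K) * h3
  have hθF : ∀ a : F, algebraMap F K a ≠ θ := by
    intro a ha
    apply hw (a + s₀ (w ^ 2) / 2)
    rw [map_add, ha, hθ]
    ring
  have hθ0 : θ ≠ 0 := by
    intro h0
    exact hθF 0 (by rw [map_zero, h0])
  have hx0 : x ≠ 0 := by
    intro h0
    rw [h0, map_zero] at hsq
    exact hθ0 (pow_eq_zero_iff (two_ne_zero) |>.1 hsq)
  have hxs : ∀ y : F, y ^ 2 ≠ x := by
    intro y hy
    have h3 : (θ - algebraMap F K y) * (θ + algebraMap F K y) = 0 := by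
      have : algebraMap F K x = (algebraMap F K y) ^ 2 := by rw [← map_pow, hy]
      linear_combination hsq + this
    rcases mul_eq_zero.1 h3 with h4 | h4
    · exact hθF y (sub_eq_zero.1 h4).symm
    · apply hθF (-y)
      rw [map_neg]
      linear_combination (-1 : K) * h4
  obtain ⟨t, s, hd, ht, hs⟩ := coords hfr hθF
  -- uniqueness of coordinates
  have hmul : ∀ a b c d : F, (algebraMap F K a + algebraMap F K b * θ) *
      (algebraMap F K c + algebraMap F K d * θ) =
      algebraMap F K (a * c + x * (b * d)) + algebraMap F K (a * d + b * c) * θ := by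
    intro a b c d
    simp only [map_add, map_mul]
    linear_combination (algebraMap F K b * algebraMap F K d) * hsq
  -- conjugation
  let σ₀ : K →ₗ[F] K :=
    { toFun := fun y => algebraMap F K (t y) - algebraMap F K (s y) * θ
      map_add' := fun y z => by simp only [map_add]; ring
      map_smul' := fun r y => by
        show algebraMap F K (t (r • y)) - algebraMap F K (s (r • y)) * θ =
          r • (algebraMap F K (t y) - algebraMap F K (s y) * θ)
        rw [t.map_smul, s.map_smul, smul_eq_mul, smul_eq_mul, RingHom.map_mul, RingHom.map_mul,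
          Algebra.smul_def]
        ring }
  have hσ₀ : ∀ a b : F, σ₀ (algebraMap F K a + algebraMap F K b * θ) =
      algebraMap F K a - algebraMap F K b * θ := by
    intro a b
    show algebraMap F K (t _) - algebraMap F K (s _) * θ = _
    rw [ht, hs]
  have hσ₀1 : σ₀ 1 = 1 := by
    have := hσ₀ 1 0
    simpa using this
  have hσ₀m : ∀ y z : K, σ₀ (y * z) = σ₀ y * σ₀ z := by
    intro y z
    rw [hd y, hd z, hmul, hσ₀, hσ₀, hσ₀]
    simp only [map_add, map_mul]
    linear_combination (- (algebraMap F K (s y) * algebraMap F K (s z))) * hsq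
  let σ₁ : K →ₐ[F] K := AlgHom.ofLinearMap σ₀ hσ₀1 hσ₀m
  have hσ₁ : ∀ a b : F, σ₁ (algebraMap F K a + algebraMap F K b * θ) =
      algebraMap F K a - algebraMap F K b * θ := hσ₀
  have hσσ : σ₁.comp σ₁ = AlgHom.id F K := by
    ext y
    show σ₁ (σ₁ y) = y
    have e1 : σ₁ y = algebraMap F K (t y) + algebraMap F K (- s y) * θ := by
      conv_lhs => rw [hd y]
      rw [hσ₁, map_neg]
      ring
    rw [e1, hσ₁, map_neg]
    conv_rhs => rw [hd y]
    ring
  let σ : K ≃ₐ[F] K := AlgEquiv.ofAlgHom σ₁ σ₁ hσσ hσσ
  have hσ : ∀ y : K, σ y = σ₁ y := fun y => rfl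
  have hnσ : ∀ y : K, algebraMap F K (t y ^ 2 - x * s y ^ 2) = y * σ₁ y := by
    intro y
    have e1 : σ₁ y = algebraMap F K (t y) - algebraMap F K (s y) * θ := by
      conv_lhs => rw [hd y]
      rw [hσ₁]
    rw [e1]
    conv_rhs => rw [show y * (algebraMap F K (t y) - algebraMap F K (s y) * θ) =
      (algebraMap F K (t y) + algebraMap F K (s y) * θ) *
        (algebraMap F K (t y) - algebraMap F K (s y) * θ) by rw [← hd y]]
    simp only [map_sub, map_mul, map_pow]
    linear_combination ((algebraMap F K (s y)) ^ 2) * hsq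
  let N : K →* F :=
    { toFun := fun y => t y ^ 2 - x * s y ^ 2
      map_one' := by
        have h3 := ht 1 0
        have h4 := hs 1 0
        rw [map_one, map_zero, zero_mul, add_zero] at h3 h4
        rw [h3, h4]
        ring
      map_mul' := fun y z => by
        apply (algebraMap F K).injective
        rw [RingHom.map_mul, hnσ (y * z), hnσ y, hnσ z, map_mul σ₁]
        ring }
  have hN : ∀ y : K, N y = t y ^ 2 - x * s y ^ 2 := fun y => rfl
  refine ⟨
    { x := Units.mk0 x hx0
      θ := Units.mk0 θ hθ0
      t := t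
      s := s
      σ := σ
      nm := Units.map N
      sq := hsq
      ns := ?_
      dec := hd
      t1 := ?_
      tθ := ?_
      s1 := ?_
      sθ := ?_
      σθ := ?_
      nmσ := ?_
      nmt := ?_ }⟩
  · rintro ⟨y, hy⟩
    apply hxs (y : F)
    have := congrArg (fun u : Fˣ => (u : F)) hy
    simp only [Units.val_mk0, Units.val_mul] at this
    rw [this, pow_two]
  · intro a
    have := ht a 0
    rwa [map_zero, zero_mul, add_zero] at this
  · intro a
    have := ht 0 a
    rwa [map_zero, zero_add] at this
  · intro a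
    have := hs a 0
    rwa [map_zero, zero_mul, add_zero] at this
  · intro a
    have := hs 0 a
    rwa [map_zero, zero_add] at this
  · have := hσ₁ 0 1
    rw [map_zero, map_one, one_mul, zero_add, zero_sub] at this
    exact this
  · intro u
    exact hnσ (u : K)
  · intro u
    rfl

end Pool.Agent.EWG
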