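import Pool.Agent.EWG.Stmts

/-!
Squad EWG, module AUG: the augmentation `W(K) → F_2`; its kernel is the fundamental ideal.
-/

set_option autoImplicit false

namespace Pool.Agent.EWG

namespace AUG_

/-- the augmentation of the group algebra -/
noncomputable def ag (K : Type) [Field K] : MonoidAlgebra (ZMod 2) Kˣ →ₐ[ZMod 2] ZMod 2 :=
  MonoidAlgebra.lift (ZMod 2) (ZMod 2) Kˣ 1

theorem ag_of (K : Type) [Field K] (a : Kˣ) :
    ag K (MonoidAlgebra.of (ZMod 2) Kˣ a) = 1 := by
  unfold ag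
  rw [MonoidAlgebra.lift_of]
  rfl

theorem rel_le (hSDD : Stmt_SDD) (K : Type) [Field K] (hK : Good K) :
    ∀ f ∈ rel K, (ag K : MonoidAlgebra (ZMod 2) Kˣ →+* ZMod 2) f = 0 := by
  have : rel K ≤ RingHom.ker (ag K : MonoidAlgebra (ZMod 2) Kˣ →+* ZMod 2) := by
    refine Ideal.span_le.2 ?_
    rintro f ⟨n, a, hs, rfl⟩
    have h1 : (ag K) (∑ i, MonoidAlgebra.of (ZMod 2) Kˣ (a i)) = (n : ZMod 2) := by
      rw [map_sum]
      simp only [ag_of]
      simp
    show (ag K) (∑ i, MonoidAlgebra.of (ZMod 2) Kˣ (a i)) = 0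
    rw [h1]
    obtain ⟨he, _⟩ := hSDD K hK n a hs
    exact (ZMod.natCast_eq_zero_iff_even).2 he
  intro f hf
  exact this hf

end AUG_

open AUG_ in
theorem aug_proof (hSDD : Stmt_SDD) (hSUR : Stmt_SUR) : Stmt_AUG := by
  intro K _ hK
  let e : W K →+* ZMod 2 := Ideal.Quotient.lift (rel K)
    (ag K : MonoidAlgebra (ZMod 2) Kˣ →+* ZMod 2) (rel_le hSDD K hK)
  have he : ∀ a : Kˣ, e (br a) = 1 := by
    intro a
    show (ag K) (MonoidAlgebra.of (ZMod 2) Kˣ a) = 1
    exact ag_of K a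
  refine ⟨e, he, ?_⟩
  have h11 : (1 : ZMod 2) + 1 = 0 := rfl
  intro c
  constructor
  · intro hc
    obtain ⟨n, a, rfl⟩ := hSUR K c
    have hn : e (∑ i, br (a i)) = (n : ZMod 2) := by
      rw [map_sum]
      simp only [he]
      simp
    rw [hn] at hc
    have hev : Even n := (ZMod.natCast_eq_zero_iff_even).1 hc
    have h2 : ∑ i, br (a i) = ∑ i, pf1 (a i) := by
      unfold pf1
      rw [Finset.sum_add_distrib]
      have h3 : ∑ _i : Fin n, (1 : W K) = 0 := by
        obtain ⟨m, rfl⟩ := hev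
        rw [Finset.sum_const, Finset.card_univ, Fintype.card_fin, add_smul, ← smul_add,
          add_self', smul_zero]
      rw [h3, zero_add]
    rw [h2]
    exact Ideal.sum_mem _ fun i _ => Ideal.subset_span ⟨a i, rfl⟩
  · intro hc
    have h4 : I K ≤ RingHom.ker e := by
      refine Ideal.span_le.2 ?_
      rintro _ ⟨a, rfl⟩
      show e (pf1 a) = 0
      unfold pf1
      rw [map_add, map_one, he, h11]
    exact h4 hc

end Pool.Agent.EWG
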