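import Pool.Agent.EWG.Stmts

/-!
Module BIL of the squad EWG: consequences of `I³ = 0`.
-/

set_option autoImplicit false

namespace Pool.Agent.EWG

open scoped BigOperators Pointwise

namespace BIL_

variable {K : Type} [Field K]

theorem pf1_mul (b c : Kˣ) : pf1 (b * c) = pf1 b + pf1 c + pf b c := by
  unfold pf pf1
  rw [br_mul]
  have h : (1 : W K) + 1 = 0 := add_self' 1
  linear_combination -(1 + br b + br c) * h

theorem pf_mul (h3 : I3 K) (a b c : Kˣ) : pf a (b * c) = pf a b + pf a c := by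
  have h : pf3 a b c = 0 := h3 a b c
  have h1 : pf a (b * c) = pf1 a * pf1 (b * c) := rfl
  rw [h1, pf1_mul]
  unfold pf3 at h
  unfold pf
  linear_combination h

theorem pf1_mem (a : Kˣ) : pf1 a ∈ I K := Ideal.subset_span ⟨a, rfl⟩

theorem pf_mem (a b : Kˣ) : pf a b ∈ (I K) ^ 2 := by
  rw [pow_two]
  exact Ideal.mul_mem_mul (pf1_mem a) (pf1_mem b)

theorem cube (h3 : I3 K) (c : W K) (hc : c ∈ (I K) ^ 3) : c = 0 := by
  have h : (I K) ^ 3 ≤ ⊥ := by
    have h1 : (I K) ^ 3 = I K * I K * I K := by rw [pow_succ, pow_two]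
    rw [h1]
    unfold I
    rw [Ideal.span_mul_span', Ideal.span_mul_span', Ideal.span_le]
    rintro z ⟨y, ⟨p, ⟨a, rfl⟩, q, ⟨b, rfl⟩, rfl⟩, r, ⟨c, rfl⟩, rfl⟩
    exact h3 a b c
  exact h hc

theorem br_smul (h3 : I3 K) (a : Kˣ) (c : W K) (hc : c ∈ (I K) ^ 2) : br a * c = c := by
  have h1 : pf1 a * c ∈ (I K) ^ 3 := by
    have h2 : (I K) ^ 3 = I K * (I K) ^ 2 := by rw [pow_succ']
    rw [h2]
    exact Ideal.mul_mem_mul (pf1_mem a) hc
  have h2 := cube h3 _ h1
  unfold pf1 at h2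
  linear_combination h2 - add_self' c

/-- sums of Pfister forms -/
def P (c : W K) : Prop := ∃ (n : ℕ) (a b : Fin n → Kˣ), c = ∑ i, pf (a i) (b i)

theorem P_zero : P (0 : W K) := ⟨0, Fin.elim0, Fin.elim0, by simp⟩

theorem P_add (c d : W K) (hc : P c) (hd : P d) : P (c + d) := by
  obtain ⟨n, a, b, rfl⟩ := hc
  obtain ⟨m, a', b', rfl⟩ := hd
  refine ⟨n + m, Fin.append a a', Fin.append b b', ?_⟩
  rw [Fin.sum_univ_add]
  simp

theorem P_of (hS : Stmt_SUR) (h3 : I3 K) (c : W K) (hc : c ∈ (I K) ^ 2) : P c := by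
  have h1 : (I K) ^ 2 = Ideal.span (Set.range (pf1 (K := K)) * Set.range (pf1 (K := K))) := by
    rw [pow_two]
    unfold I
    rw [Ideal.span_mul_span']
  have key : ∀ c ∈ Ideal.span (Set.range (pf1 (K := K)) * Set.range (pf1 (K := K))),
      c ∈ (I K) ^ 2 ∧ P c := by
    intro c hc
    induction hc using Submodule.span_induction with
    | mem x hx =>
      obtain ⟨p, ⟨a, rfl⟩, q, ⟨b, rfl⟩, rfl⟩ := hx
      refine ⟨pf_mem a b, 1, fun _ => a, fun _ => b, ?_⟩
      simp [pf]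
    | zero => exact ⟨Ideal.zero_mem _, P_zero⟩
    | add x y _ _ hx hy => exact ⟨Ideal.add_mem _ hx.1 hy.1, P_add x y hx.2 hy.2⟩
    | smul w x _ hx =>
      refine ⟨Ideal.mul_mem_left _ w hx.1, ?_⟩
      obtain ⟨n, u, rfl⟩ := hS K w
      rw [smul_eq_mul, Finset.sum_mul]
      refine Finset.sum_induction _ P (fun a b ha hb => P_add a b ha hb) P_zero ?_
      intro i _
      rw [br_smul h3 (u i) x hx.1]
      exact hx.2
  exact (key c (h1 ▸ hc)).2

end BIL_

theorem bil_proof (hSUR : Stmt_SUR) : Stmt_BIL := by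
  intro K _ _ h3
  refine ⟨fun a b c => BIL_.pf_mul h3 a b c, fun c hc => BIL_.cube h3 c hc,
    fun a c hc => BIL_.br_smul h3 a c hc, fun a b => BIL_.pf_mem a b, fun c hc => ?_⟩
  exact BIL_.P_of hSUR h3 c hc

end Pool.Agent.EWG
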