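import Pool.Agent.EWG.Stmts

set_option autoImplicit false

namespace Pool.Agent.EWG

open Module

theorem CAN_self_orth {K V : Type} [Field K] [AddCommGroup V] [Module K V] [FiniteDimensional K V]
    (B : LinearMap.BilinForm K V) (hB : SN B) (L : Submodule K V)
    (hL : ∀ x ∈ L, ∀ y ∈ L, B x y = 0) :
    2 * finrank K L ≤ finrank K V ∧
    (2 * finrank K L = finrank K V → ∀ x, (∀ y ∈ L, B y x = 0) → x ∈ L) := by
  have hr : B.IsRefl := fun x y h => by rw [hB.1]; exact h
  have hnd : B.Nondegenerate := by
    constructor
    · intro x hx; exact hB.2 x hx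
    · intro x hx; exact hB.2 x fun y => by rw [hB.1]; exact hx y
  have hle : L ≤ B.orthogonal L := by
    intro x hx
    rw [LinearMap.BilinForm.mem_orthogonal_iff]
    intro y hy
    exact hL y hy x hx
  have hf := LinearMap.BilinForm.finrank_orthogonal hnd L
  have h1 := Submodule.finrank_mono hle
  have h2 := Submodule.finrank_le L
  refine ⟨by omega, ?_⟩
  intro h x hx
  have heq : L = B.orthogonal L := by
    apply Submodule.eq_of_le_of_finrank_eq hle
    omega
  rw [heq, LinearMap.BilinForm.mem_orthogonal_iff]
  intro y hy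
  exact hx y hy

theorem CAN_proof : Stmt_CAN := by
  intro K V V' _ _ _ _ _ _ _ B B' hB hB' hs hs'
  obtain ⟨L, hL, hLd⟩ := hs
  obtain ⟨M, hM, hMd⟩ := hs'
  have hC : SN (osum B B') := by
    constructor
    · intro x y
      simp only [osum_apply]
      rw [hB.1, hB'.1]
    · intro x hx
      have h1 : x.1 = 0 := hB.2 _ fun y => by
        have := hx (y, 0)
        simpa using this
      have h2 : x.2 = 0 := hB'.2 _ fun y => by
        have := hx (0, y)
        simpa using this
      exact Prod.ext h1 h2
  have hr : (osum B B').IsRefl := fun x y h => by rw [hC.1]; exact h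
  have hnd : (osum B B').Nondegenerate := by
    constructor
    · intro x hx; exact hC.2 x hx
    · intro x hx; exact hC.2 x fun y => by rw [hC.1]; exact hx y
  have hLL := (CAN_self_orth (osum B B') hC L hL).2 hLd
  have hMM := (CAN_self_orth B' hB' M hM).2 hMd
  let Z : Submodule K (V × V') := Submodule.prod ⊥ M
  let Q : Submodule K (V × V') := L ⊓ Submodule.prod ⊤ M
  have hPQ : (osum B B').orthogonal (L ⊔ Z) ≤ Q := by
    intro x hx
    rw [LinearMap.BilinForm.mem_orthogonal_iff] at hx
    refine ⟨hLL x fun y hy => hx y (Submodule.mem_sup_left hy), ?_⟩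
    refine ⟨trivial, ?_⟩
    apply hMM
    intro m hm
    have := hx (0, m) (Submodule.mem_sup_right (show ((0 : V), m) ∈ Z from ⟨by simp, hm⟩))
    simpa using this
  have h1 := Submodule.finrank_mono hPQ
  have h2 := LinearMap.BilinForm.finrank_orthogonal hnd (L ⊔ Z)
  have h3 := Submodule.finrank_sup_add_finrank_inf_eq L Z
  have hD : finrank K (V × V') = finrank K V + finrank K V' := finrank_prod
  have hZ : finrank K Z = finrank K M := by
    have e : M ≃ₗ[K] Z :=
      { toFun := fun m => ⟨(0, m.1), by simp, m.2⟩
        invFun := fun z => ⟨z.1.2, z.2.2⟩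
        map_add' := by intro x y; apply Subtype.ext; simp
        map_smul' := by intro r x; apply Subtype.ext; simp
        left_inv := by intro x; rfl
        right_inv := by
          intro z
          apply Subtype.ext
          have : z.1.1 = 0 := by simpa using z.2.1
          exact Prod.ext this.symm rfl }
    exact (LinearEquiv.finrank_eq e).symm
  let g : Q →ₗ[K] V := (LinearMap.fst K V V').domRestrict Q
  have h4 := LinearMap.finrank_range_add_finrank_ker g
  have hk : finrank K (LinearMap.ker g) ≤ finrank K (L ⊓ Z : Submodule K (V × V')) := by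
    let j : LinearMap.ker g →ₗ[K] (L ⊓ Z : Submodule K (V × V')) :=
      { toFun := fun q => ⟨q.1.1, q.1.2.1, by
          have hq : q.1.1.1 = 0 := q.2
          exact ⟨by simpa using hq, q.1.2.2.2⟩⟩
        map_add' := by intro x y; rfl
        map_smul' := by intro r x; rfl }
    apply LinearMap.finrank_le_finrank_of_injective (f := j)
    intro x y hxy
    have := congrArg Subtype.val hxy
    exact Subtype.ext (Subtype.ext this)
  have hrng : finrank K (LinearMap.range g) = finrank K (Q.map (LinearMap.fst K V V')) := by
    rw [LinearMap.range_domRestrict]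
  have hiso : ∀ x ∈ Q.map (LinearMap.fst K V V'), ∀ y ∈ Q.map (LinearMap.fst K V V'),
      B x y = 0 := by
    rintro _ ⟨x, hx, rfl⟩ _ ⟨y, hy, rfl⟩
    have hxy := hL x hx.1 y hy.1
    have hm := hM x.2 hx.2.2 y.2 hy.2.2
    simpa [osum_apply, hm] using hxy
  refine ⟨Q.map (LinearMap.fst K V V'), hiso, ?_⟩
  have h5 := (CAN_self_orth B hB _ hiso).1
  have h6 := Submodule.finrank_le (L ⊔ Z)
  have h7 := Submodule.finrank_le Q
  omega

end Pool.Agent.EWG
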