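import Pool.Agent.EWG.Stmts

/-!
EWG, module DI2: `⟨⟨a⟩⟩ ∈ I²` only if `a` is a square
-/

set_option autoImplicit false

namespace Pool.Agent.EWG

open scoped BigOperators

namespace DI2_

variable {K : Type} [Field K]

/-- classes of diagonal forms of even dimension and square determinant -/
def J (c : W K) : Prop := ∃ (n : ℕ) (a : Fin n → Kˣ), Even n ∧ c = ∑ i, br (a i) ∧ IsSquare (∏ i, a i)

lemma J_zero : J (0 : W K) := ⟨0, Fin.elim0, ⟨0, rfl⟩, by simp, by simp⟩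

lemma J_add {c d : W K} (hc : J c) (hd : J d) : J (c + d) := by
  obtain ⟨n, a, hn, rfl, ha⟩ := hc
  obtain ⟨m, b, hm, rfl, hb⟩ := hd
  refine ⟨n + m, Fin.append a b, hn.add hm, ?_, ?_⟩
  · rw [Fin.sum_univ_add]
    simp
  · rw [Fin.prod_univ_add]
    simpa using ha.mul hb

lemma J_br {c : W K} (u : Kˣ) (hc : J c) : J (br u * c) := by
  obtain ⟨n, a, hn, rfl, ha⟩ := hc
  refine ⟨n, fun i => u * a i, hn, ?_, ?_⟩
  · rw [Finset.mul_sum]
    exact Finset.sum_congr rfl fun i _ => (br_mul u (a i)).symm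
  · rw [Finset.prod_mul_distrib, Finset.prod_const, Finset.card_univ, Fintype.card_fin]
    exact (hn.isSquare_pow u).mul ha

lemma J_sum {n : ℕ} (f : Fin n → W K) (hf : ∀ i, J (f i)) : J (∑ i, f i) := by
  induction n with
  | zero => simpa using J_zero
  | succ n ih =>
    rw [Fin.sum_univ_succ]
    exact J_add (hf 0) (ih _ fun i => hf _)

lemma J_pf (a b : Kˣ) : J (pf1 a * pf1 b) := by
  refine ⟨4, ![1, a, b, a * b], ⟨2, rfl⟩, ?_, ?_⟩
  · rw [Fin.sum_univ_four]
    show pf1 a * pf1 b = br 1 + br a + br b + br (a * b)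
    unfold pf1
    rw [br_mul, br_one]
    ring
  · rw [Fin.prod_univ_four]
    refine ⟨a * b, ?_⟩
    show 1 * a * b * (a * b) = a * b * (a * b)
    rw [one_mul]

end DI2_

open DI2_

theorem di2_proof (hSDD : Stmt_SDD) (hWZ : Stmt_WZ) (hSUR : Stmt_SUR) : Stmt_DI2 := by
  intro K _ hG a ha
  have hI : ∀ c ∈ (I K) ^ 2, J c := by
    intro c hc
    rw [pow_two, I, Ideal.span_mul_span'] at hc
    refine Submodule.span_induction (p := fun x _ => J x) ?_ ?_ ?_ ?_ hc
    · rintro x hx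
      obtain ⟨y, ⟨u, rfl⟩, z, ⟨v, rfl⟩, rfl⟩ := Set.mem_mul.1 hx
      exact J_pf u v
    · exact J_zero
    · intro x y _ _ hx hy
      exact J_add hx hy
    · intro r x _ hx
      obtain ⟨n, u, rfl⟩ := hSUR K r
      rw [smul_eq_mul, Finset.sum_mul]
      exact J_sum _ fun i => J_br (u i) hx
  obtain ⟨n, b, hn, hb, hsq⟩ := hI _ ha
  have hsum : ∑ i, br ((Fin.cons 1 (Fin.cons a b) : Fin (n + 2) → Kˣ) i) = 0 := by
    rw [Fin.sum_univ_succ, Fin.sum_univ_succ]
    simp only [Fin.cons_zero, Fin.cons_succ]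
    rw [← hb, br_one]
    have : (1 : W K) + (br a + pf1 a) = pf1 a + pf1 a := by
      unfold pf1; ring
    rw [this, add_self']
  have h2 := (hSDD K hG _ _ ((hWZ K hG _ _).1 hsum)).2
  rw [Fin.prod_univ_succ, Fin.prod_univ_succ] at h2
  simp only [Fin.cons_zero, Fin.cons_succ, one_mul] at h2
  obtain ⟨u, hu⟩ := h2
  obtain ⟨v, hv⟩ := hsq
  rw [hv] at hu
  refine ⟨u / v, ?_⟩
  rw [div_mul_div_comm, ← hu]
  exact (mul_div_cancel_right a (v * v)).symm

end Pool.Agent.EWG
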