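import Pool.Agent.EWG.Stmts

namespace Pool.Agent.EWG

theorem dia_proof : Stmt_DIA := by
  intro K ι _ _ a
  classical
  refine ⟨fun x y => ?_, fun x h => ?_⟩
  · simp only [ud_apply]
    exact Finset.sum_congr rfl fun i _ => by ring
  · funext i
    have := h (Pi.single i 1)
    rw [ud_apply, Finset.sum_eq_single i] at this
    · simpa using this
    · intro j _ hj; simp [hj]
    · intro h'; exact absurd (Finset.mem_univ i) h'

end Pool.Agent.EWG
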