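import Pool.Agent.EWG.Stmts

/-!
# Squad EWG, module ECN: the count `2 |V_K| |{⟨⟨x, v⟩⟩}| = |V_F|²`
-/

set_option autoImplicit false

namespace Pool.Agent.EWG

open scoped BigOperators

namespace ECN_

/-- the map on square classes of a homomorphism of unit groups -/
def vmap {K L : Type} [Field K] [Field L] (f : Kˣ →* Lˣ) : VV K →+ VV L :=
  MonoidHom.toAdditive (QuotientGroup.map (powMonoidHom 2 : Kˣ →* Kˣ).range
    (powMonoidHom 2 : Lˣ →* Lˣ).range f (by
      rintro _ ⟨z, rfl⟩
      refine ⟨f z, ?_⟩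
      simp))

theorem vmap_vm {K L : Type} [Field K] [Field L] (f : Kˣ →* Lˣ) (a : Kˣ) :
    vmap f (vm a) = vm (f a) := rfl

theorem card_hom {A B : Type} [AddCommGroup A] [AddCommGroup B] (f : A →+ B) :
    Nat.card A = Nat.card f.range * Nat.card f.ker := by
  rw [AddSubgroup.card_eq_card_quotient_mul_card_addSubgroup f.ker]
  congr 1
  exact Nat.card_congr (QuotientAddGroup.quotientKerEquivRange f).toEquiv

end ECN_

open ECN_

theorem ecn_proof (hREL : Stmt_REL) (_hPFZ : Stmt_PFZ) (hVKR : Stmt_VKR) : Stmt_ECN := by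
  intro F K _ _ _ hF _hfin E
  obtain ⟨hR1, -, -, hR4⟩ := hREL F hF
  obtain ⟨hV1, hV2, hV3⟩ := hVKR F K hF E
  -- the norm of an element of `F`
  have hnm : ∀ c : Fˣ, E.nm (iu F c : Kˣ) = c ^ 2 := by
    intro c
    apply Units.ext
    rw [E.nmt, iu_coe, E.t1, E.s1, Units.val_pow_eq_pow_val]
    ring
  let nV : VV K →+ VV F := vmap E.nm
  let iuH : Fˣ →* Kˣ := Units.map (algebraMap F K).toMonoidHom
  let rV : VV F →+ VV K := vmap iuH
  have hnV : ∀ w, nV (vm w) = vm (E.nm w) := fun w => rfl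
  have hrV : ∀ a : Fˣ, rV (vm a) = vm (iu F a : Kˣ) := fun a => rfl
  -- the kernel of the norm
  have hk : nV.ker = rV.range := by
    ext v
    obtain ⟨w, rfl⟩ := vm_surj v
    rw [AddMonoidHom.mem_ker, hnV, vm_eq_zero, hV1, AddMonoidHom.mem_range]
    constructor
    · rintro ⟨f, hf⟩
      exact ⟨vm f, by rw [hrV, eq_comm, vm_eq_iff]; exact hf⟩
    · rintro ⟨u, hu⟩
      obtain ⟨f, rfl⟩ := vm_surj u
      rw [hrV, eq_comm, vm_eq_iff] at hu
      exact ⟨f, hu⟩
  -- the kernel of the restriction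
  have hx : (vm E.x : VV F) ≠ 0 := fun h => E.ns ((vm_eq_zero E.x).1 h)
  have hkr : Nat.card rV.ker = 2 := by
    have e : (rV.ker : Set (VV F)) = {0, vm E.x} := by
      ext v
      obtain ⟨a, rfl⟩ := vm_surj v
      rw [SetLike.mem_coe, AddMonoidHom.mem_ker, hrV, vm_eq_zero, hV2, Set.mem_insert_iff,
        Set.mem_singleton_iff, vm_eq_zero, vm_eq_iff]
    have h1 : Nat.card rV.ker = Nat.card ({0, vm E.x} : Set (VV F)) := by
      rw [← e]
      rfl
    rw [h1, Nat.card_coe_set_eq, Set.ncard_pair (Ne.symm hx)]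
  have h1 : Nat.card (VV F) = Nat.card rV.range * 2 := by rw [card_hom rV, hkr]
  have h2 : Nat.card (VV K) = Nat.card nV.range * Nat.card rV.range := by rw [card_hom nV, hk]
  -- equal symbols
  have hun : ∀ v : Fˣ, br v * br v = 1 := by
    intro v
    rw [← br_mul, ← br_one, ← hR4 1 v, one_mul, pow_two]
  have hpf : ∀ v v' : Fˣ, pf E.x v = pf E.x v' ↔ pf E.x (v * v') = 0 := by
    intro v v'
    have e1 : pf E.x v + pf E.x v' = br v * pf E.x (v * v') := by
      unfold pf pf1
      rw [br_mul]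
      have := hun v
      have h4 : br v * ((1 + br E.x) * (1 + br v * br v')) = (1 + br E.x) * (br v + (br v * br v) * br v') := by
        ring
      rw [h4, this]
      have h5 : (1 + br E.x) * (1 + br v) + (1 + br E.x) * (1 + br v') =
          (1 + br E.x) * ((1 + 1) + (br v + br v')) := by ring
      rw [h5, add_self', zero_add, one_mul]
    constructor
    · intro h
      have h6 : br v * pf E.x (v * v') = 0 := by rw [← e1, h, add_self']
      calc pf E.x (v * v') = (br v * br v) * pf E.x (v * v') := by rw [hun, one_mul]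
        _ = br v * (br v * pf E.x (v * v')) := by ring
        _ = 0 := by rw [h6, mul_zero]
    · intro h
      rw [h, mul_zero] at e1
      calc pf E.x v = pf E.x v + (pf E.x v' + pf E.x v') := by rw [add_self', add_zero]
        _ = pf E.x v' := by rw [← add_assoc, e1, zero_add]
  -- the image of the norm
  have hmem : ∀ v : Fˣ, (vm v : VV F) ∈ nV.range ↔ pf E.x v = 0 := by
    intro v
    rw [hV3, AddMonoidHom.mem_range]
    constructor
    · rintro ⟨u, hu⟩
      obtain ⟨w, rfl⟩ := vm_surj u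
      rw [hnV, vm_eq_iff] at hu
      obtain ⟨c, hc⟩ := hu
      refine ⟨w⁻¹ * iu F c, ?_⟩
      rw [map_mul, map_inv, hnm, pow_two, ← hc]
      group
    · rintro ⟨w, rfl⟩
      exact ⟨vm w, hnV w⟩
  have h3 : Nat.card (VV F) = Nat.card (Set.range fun v : Fˣ => pf E.x v) * Nat.card nV.range := by
    rw [AddSubgroup.card_eq_card_quotient_mul_card_addSubgroup nV.range]
    congr 1
    symm
    let g : (Set.range fun v : Fˣ => pf E.x v) → VV F ⧸ nV.range :=
      fun r => QuotientAddGroup.mk (vm r.2.choose)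
    have hg : ∀ v : Fˣ, g ⟨pf E.x v, v, rfl⟩ = QuotientAddGroup.mk (vm v) := by
      intro v
      have hc : pf E.x (Exists.choose (⟨v, rfl⟩ : ∃ y : Fˣ, (fun v : Fˣ => pf E.x v) y = pf E.x v)) = pf E.x v :=
        Exists.choose_spec (⟨v, rfl⟩ : ∃ y : Fˣ, (fun v : Fˣ => pf E.x v) y = pf E.x v)
      show (QuotientAddGroup.mk (vm (Exists.choose (⟨v, rfl⟩ : ∃ y : Fˣ, (fun v : Fˣ => pf E.x v) y = pf E.x v))) :
        VV F ⧸ nV.range) = QuotientAddGroup.mk (vm v)
      rw [QuotientAddGroup.eq]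
      have h7 := (hpf _ _).1 hc
      rw [← hmem, vm_mul] at h7
      have h8 : -(vm (Exists.choose (⟨v, rfl⟩ : ∃ y : Fˣ, (fun v : Fˣ => pf E.x v) y = pf E.x v)) : VV F) =
          vm (Exists.choose (⟨v, rfl⟩ : ∃ y : Fˣ, (fun v : Fˣ => pf E.x v) y = pf E.x v)) := by
        rw [neg_eq_iff_add_eq_zero]
        exact vm_add_self _
      rw [h8]
      exact h7
    refine Nat.card_congr (Equiv.ofBijective g ⟨?_, ?_⟩)
    · rintro ⟨_, v, rfl⟩ ⟨_, v', rfl⟩ h
      have h' : (QuotientAddGroup.mk (vm v) : VV F ⧸ nV.range) = QuotientAddGroup.mk (vm v') := by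
        rw [← hg v, ← hg v']
        exact h
      rw [QuotientAddGroup.eq] at h'
      have h8 : -(vm v : VV F) = vm v := by
        rw [neg_eq_iff_add_eq_zero]
        exact vm_add_self _
      rw [h8, ← vm_mul, hmem, ← hpf] at h'
      exact Subtype.ext h'
    · intro q
      obtain ⟨u, rfl⟩ := QuotientAddGroup.mk_surjective q
      obtain ⟨v, rfl⟩ := vm_surj u
      exact ⟨⟨pf E.x v, v, rfl⟩, hg v⟩
  calc 2 * (Nat.card (VV K) * Nat.card (Set.range fun v : Fˣ => pf E.x v))
      = (Nat.card rV.range * 2) * (Nat.card (Set.range fun v : Fˣ => pf E.x v) * Nat.card nV.range) := by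
        rw [h2]
        ring
    _ = Nat.card (VV F) ^ 2 := by
        rw [← h1, ← h3, pow_two]

end Pool.Agent.EWG
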