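import Pool.Agent.EWG.Stmts

namespace Pool.Agent.EWG

namespace EVI_

variable {K : Type} [Field K]

theorem pf1_mul (a b : Kˣ) : pf1 (a * b) = pf1 a + pf1 b + pf a b := by
  have h := add_self' (1 : W K)
  have h2 := add_self' (br a : W K)
  have h3 := add_self' (br b : W K)
  unfold pf pf1
  rw [br_mul]
  linear_combination -h - h2 - h3

theorem pf_mem (a b : Kˣ) : pf a b ∈ (I K) ^ 2 := by
  rw [pow_two]
  exact Ideal.mul_mem_mul (Ideal.subset_span ⟨a, rfl⟩) (Ideal.subset_span ⟨b, rfl⟩)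

theorem key (n : ℕ) (a : Fin n → Kˣ) : ∑ i, pf1 (a i) + pf1 (∏ i, a i) ∈ (I K) ^ 2 := by
  induction n with
  | zero =>
    have : (pf1 (1 : Kˣ) : W K) = 0 := by unfold pf1; rw [br_one]; exact add_self' 1
    simp [this]
  | succ n ih =>
    rw [Fin.sum_univ_succ, Fin.prod_univ_succ, pf1_mul]
    have h1 := ih fun i => a i.succ
    have h2 := pf_mem (a 0) (∏ i : Fin n, a i.succ)
    have h3 := add_self' (pf1 (a 0))
    have : pf1 (a 0) + ∑ i : Fin n, pf1 (a i.succ) +
        (pf1 (a 0) + pf1 (∏ i : Fin n, a i.succ) + pf (a 0) (∏ i : Fin n, a i.succ)) =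
        (∑ i : Fin n, pf1 (a i.succ) + pf1 (∏ i : Fin n, a i.succ)) +
        pf (a 0) (∏ i : Fin n, a i.succ) := by linear_combination h3
    rw [this]
    exact Ideal.add_mem _ h1 h2

end EVI_

theorem evi_proof : Stmt_EVI := by
  intro K _ _ n a hn
  have h := EVI_.key n a
  have h2 : ∑ i, pf1 (a i) = ∑ i, br (a i) := by
    unfold pf1
    rw [Finset.sum_add_distrib]
    obtain ⟨m, rfl⟩ := hn
    have : (∑ _i : Fin (m + m), (1 : W K)) = 0 := by
      rw [Finset.sum_const, Finset.card_univ, Fintype.card_fin, add_smul]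
      exact add_self' _
    rw [this, zero_add]
  rwa [h2] at h

end Pool.Agent.EWG
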