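import Pool.Agent.EWG.Stmts

/-!
# Squad EWG: module EVN (even multiplicities)
-/

set_option autoImplicit false

namespace Pool.Agent.EWG

open scoped BigOperators

namespace EVN_

/-- the two dimensional form `⟨a, a⟩` -/
lemma two {K ι : Type} [Field K] [Fintype ι] [DecidableEq ι] (hK : ∃ i : K, i ^ 2 = -1)
    (a : ι → Kˣ) (i₀ j₀ : ι) (hne : i₀ ≠ j₀) (hall : ∀ k, k = i₀ ∨ k = j₀)
    (ha : a i₀ = a j₀) : Split K (ud a) := by
  obtain ⟨c, hc⟩ := hK
  set v : ι → K := fun k => if k = i₀ then 1 else c with hv
  have hv0 : v ≠ 0 := by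
    intro h
    have h1 := congrFun h i₀
    simp [hv] at h1
  have huniv : (Finset.univ : Finset ι) = {i₀, j₀} := by
    ext k
    simp only [Finset.mem_univ, Finset.mem_insert, Finset.mem_singleton, true_iff]
    exact hall k
  have hvv : ud a v v = 0 := by
    rw [ud_apply, huniv, Finset.sum_pair hne]
    have h1 : v i₀ = 1 := by simp [hv]
    have h2 : v j₀ = c := by simp [hv, hne.symm]
    rw [h1, h2, ha]
    have : c * c = -1 := by rw [← hc, sq]
    linear_combination (a j₀ : K) * this
  refine ⟨K ∙ v, ?_, ?_⟩
  · intro x hx y hy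
    obtain ⟨s, rfl⟩ := Submodule.mem_span_singleton.1 hx
    obtain ⟨t, rfl⟩ := Submodule.mem_span_singleton.1 hy
    rw [map_smul, map_smul, LinearMap.smul_apply, hvv, smul_zero, smul_zero]
  · rw [finrank_span_singleton hv0, Module.finrank_fintype_fun_eq_card, ← Finset.card_univ, huniv,
      Finset.card_pair hne]

/-- parity of the multiplicities -/
def Par {K ι : Type} [Field K] [Fintype ι] (a : ι → Kˣ) : Prop :=
  ∀ u : Kˣ, ∑ i, (open Classical in if a i = u then (1 : ZMod 2) else 0) = 0

lemma key (hSPI : Stmt_SPI) (hOSU : Stmt_OSU) {K : Type} [Field K] (hK : ∃ i : K, i ^ 2 = -1)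
    (n : ℕ) : ∀ (ι : Type) [Fintype ι], Fintype.card ι = n → ∀ a : ι → Kˣ, Par a →
      Split K (ud a) := by
  classical
  induction n using Nat.strong_induction_on with
  | _ n ih =>
    intro ι _ hn a hpar
    by_cases he : IsEmpty ι
    · refine ⟨⊥, ?_, ?_⟩
      · intro x hx y _
        rw [Submodule.mem_bot] at hx
        rw [hx, map_zero, LinearMap.zero_apply]
      · rw [finrank_bot, Module.finrank_fintype_fun_eq_card, Fintype.card_eq_zero]
    · rw [not_isEmpty_iff] at he
      obtain ⟨i₀⟩ := he
      obtain ⟨j₀, hj, haj⟩ : ∃ j₀, j₀ ≠ i₀ ∧ a j₀ = a i₀ := by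
        by_contra hcon
        push Not at hcon
        have h1 := hpar (a i₀)
        rw [Finset.sum_eq_single i₀] at h1
        · rw [if_pos rfl] at h1
          exact one_ne_zero h1
        · intro b _ hb
          rw [if_neg (hcon b hb)]
        · intro h
          exact absurd (Finset.mem_univ _) h
      set p : ι → Prop := fun k => k = i₀ ∨ k = j₀ with hp
      -- the two parts
      have h1 : Split K (ud fun k : {k // p k} => a k) := by
        refine two hK _ ⟨i₀, Or.inl rfl⟩ ⟨j₀, Or.inr rfl⟩ ?_ ?_ haj.symm
        · intro h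
          exact hj (congrArg Subtype.val h).symm
        · rintro ⟨k, hk⟩
          rcases hk with hk | hk
          · left
            exact Subtype.ext hk
          · right
            exact Subtype.ext hk
      have hpar2 : Par fun k : {k // ¬ p k} => a k := by
        intro u
        have h2 := hpar u
        rw [← Fintype.sum_subtype_add_sum_subtype p] at h2
        have h3 : ∑ k : {k // p k}, (if a k = u then (1 : ZMod 2) else 0) = 0 := by
          have huniv : (Finset.univ : Finset {k // p k}) = {⟨i₀, Or.inl rfl⟩, ⟨j₀, Or.inr rfl⟩} := by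
            ext ⟨k, hk⟩
            simp only [Finset.mem_univ, Finset.mem_insert, Finset.mem_singleton, true_iff]
            rcases hk with hk | hk
            · left
              exact Subtype.ext hk
            · right
              exact Subtype.ext hk
          rw [huniv, Finset.sum_pair (by
            intro h
            exact hj (congrArg Subtype.val h).symm)]
          show (if a i₀ = u then (1 : ZMod 2) else 0) + (if a j₀ = u then (1 : ZMod 2) else 0) = 0
          rw [haj]
          split_ifs
          · rfl
          · rfl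
        rw [h3, zero_add] at h2
        exact h2
      have hcard : Fintype.card {k // ¬ p k} < n := by
        rw [← hn]
        refine Fintype.card_subtype_lt (x := i₀) ?_
        exact fun h => h (Or.inl rfl)
      have h2 : Split K (ud fun k : {k // ¬ p k} => a k) := ih _ hcard _ rfl _ hpar2
      have h3 := hOSU K _ _ _ _ h1 h2
      -- the isometry
      let e : (({k // p k} → K) × ({k // ¬ p k} → K)) ≃ₗ[K] (ι → K) :=
        (LinearEquiv.sumArrowLequivProdArrow {k // p k} {k // ¬ p k} K K).symm.trans
          (LinearEquiv.funCongrLeft K K (Equiv.sumCompl p).symm)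
      refine hSPI K _ _ e _ _ ?_ h3
      intro x y
      rw [osum_apply, ud_apply, ud_apply, ud_apply]
      rw [← (Equiv.sumCompl p).sum_comp, Fintype.sum_sum_type]
      congr 1
      · refine Finset.sum_congr rfl fun k _ => ?_
        simp [e, LinearEquiv.funCongrLeft, LinearMap.funLeft]
        rfl
      · refine Finset.sum_congr rfl fun k _ => ?_
        simp [e, LinearEquiv.funCongrLeft, LinearMap.funLeft]
        rfl

end EVN_

open EVN_ in
theorem evn_proof (hSPI : Stmt_SPI) (hOSU : Stmt_OSU) (_hGRA : Stmt_GRA) : Stmt_EVN := by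
  classical
  intro K _ hK n a ha
  refine key hSPI hOSU hK.neg n (Fin n) (Fintype.card_fin n) a ?_
  intro u
  have h1 := congrArg (fun f : MonoidAlgebra (ZMod 2) Kˣ => f.coeff u) ha
  simp only [MonoidAlgebra.coeff_sum, MonoidAlgebra.coeff_zero, Finsupp.coe_zero, Pi.zero_apply,
    Finsupp.finsetSum_apply] at h1
  refine Eq.trans ?_ h1
  refine Finset.sum_congr rfl fun i _ => ?_
  rw [MonoidAlgebra.of_apply, MonoidAlgebra.coeff_single, Finsupp.single_apply]

end Pool.Agent.EWG
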