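import Pool.Agent.EWG.Stmts

namespace Pool.Agent.EWG

theorem gra_proof : Stmt_GRA := by
  intro K V _ _ _ _ B ⟨i, hi⟩
  let f : V →ₗ[K] V × V := LinearMap.prod LinearMap.id (i • LinearMap.id)
  have hf : Function.Injective f := by
    intro u v h
    have := congrArg Prod.fst h
    simpa [f] using this
  refine ⟨LinearMap.range f, ?_, ?_⟩
  · rintro _ ⟨x, rfl⟩ _ ⟨y, rfl⟩
    have e1 : osum B B (f x) (f y) = B x y + i * (i * B x y) := by
      rw [osum_apply]
      change B x y + B (i • x) (i • y) = _
      simp
    rw [e1]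
    have : B x y + i * (i * B x y) = (1 + i ^ 2) * B x y := by ring
    rw [this, hi]; ring
  · rw [LinearMap.finrank_range_of_inj hf, Module.finrank_prod]; ring

end Pool.Agent.EWG
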