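import Pool.Agent.EWG.Stmts

/-!
`I³ = 0` goes up in quadratic extensions (squad EWG, problem MP_d26ff6_al).
-/

set_option autoImplicit false

namespace Pool.Agent.EWG

open scoped BigOperators

namespace I3K_

section one

variable {K : Type} [Field K]

lemma br_sq (hREL : Stmt_REL) (hK : Good K) (a : Kˣ) : br a * br a = 1 := by
  have h := (hREL K hK).2.2.2 1 a
  rw [one_mul, pow_two, br_mul, br_one] at h
  exact h

lemma br_of_sq (hREL : Stmt_REL) (hK : Good K) (a : Kˣ) (h : IsSquare a) : pf1 a = 0 := by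
  have h1 := ((hREL K hK).1 a 1).2 (by rwa [mul_one])
  rw [pf1, h1, br_one]
  exact add_self' 1

/-- an isotropic form `⟨1, a, b, ab⟩` has class zero -/
lemma iso4 (hREL : Stmt_REL) (hPFZ : Stmt_PFZ) (hK : Good K) (a b : Kˣ) (z : Fin 4 → K) (hz : z ≠ 0)
    (h : z 0 ^ 2 + a * z 1 ^ 2 + b * z 2 ^ 2 + a * b * z 3 ^ 2 = 0) : pf a b = 0 := by
  obtain ⟨i, hi⟩ := hK.neg
  have key : ∀ s t : K, (s ≠ 0 ∨ t ≠ 0) → s ^ 2 + a * t ^ 2 = 0 → pf a b = 0 := by
    intro s t hst h0
    have ht : t ≠ 0 := by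
      rintro rfl
      rcases hst with hs | ht
      · apply hs
        have : s ^ 2 = 0 := by linear_combination h0
        exact pow_eq_zero_iff (two_ne_zero) |>.1 this
      · exact ht rfl
    have hs : s ≠ 0 := by
      rintro rfl
      have : (a : K) * t ^ 2 = 0 := by linear_combination h0
      rcases mul_eq_zero.1 this with h1 | h1
      · exact a.ne_zero h1
      · exact ht (pow_eq_zero_iff two_ne_zero |>.1 h1)
    have hi0 : i ≠ 0 := by
      rintro rfl
      have : (1 : K) = 0 := by linear_combination hi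
      exact one_ne_zero this
    have hsq : IsSquare a := by
      refine ⟨Units.mk0 (i * s / t) (div_ne_zero (mul_ne_zero hi0 hs) ht), ?_⟩
      ext
      simp only [Units.val_mul, Units.val_mk0]
      field_simp
      linear_combination h0 - s ^ 2 * hi
    have := br_of_sq hREL hK a hsq
    rw [pf, this, zero_mul]
  set p : K := z 0 ^ 2 + a * z 1 ^ 2 with hp
  set q : K := z 2 ^ 2 + a * z 3 ^ 2 with hq
  have hpq : p + b * q = 0 := by rw [hp, hq]; linear_combination h
  by_cases hq0 : q = 0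
  · have hp0 : p = 0 := by rw [hq0, mul_zero, add_zero] at hpq; exact hpq
    by_cases h1 : z 0 ≠ 0 ∨ z 1 ≠ 0
    · exact key _ _ h1 (by rw [hp] at hp0; exact hp0)
    · refine key (z 2) (z 3) ?_ (by rw [hq] at hq0; exact hq0)
      by_contra h2
      push Not at h1 h2
      apply hz
      funext k
      fin_cases k
      · exact h1.1
      · exact h1.2
      · exact h2.1
      · exact h2.2
  · rw [hPFZ K hK]
    refine ⟨i * (z 0 * z 2 - a * z 1 * z 3) / q, i * (z 0 * z 3 + z 1 * z 2) / q, ?_⟩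
    have h1 : (b : K) * q ^ 2 = i ^ 2 * ((z 0 * z 2 - a * z 1 * z 3) ^ 2 + a * (z 0 * z 3 + z 1 * z 2) ^ 2) := by
      have h2 : (z 0 * z 2 - a * z 1 * z 3) ^ 2 + a * (z 0 * z 3 + z 1 * z 2) ^ 2 = p * q := by
        rw [hp, hq]; ring
      rw [h2, hi]
      linear_combination q * hpq
    field_simp
    linear_combination h1

end one

section two

variable {F K : Type} [Field F] [Field K] [Algebra F K]

/-- Step 3: two slots in `F` -/
lemma step3 (hREL : Stmt_REL) (hPFZ : Stmt_PFZ) (hPF3 : Stmt_PF3) (hMAP : Stmt_MAP) (hSTR : Stmt_STR)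
    (hSIS : Stmt_SIS) (hPRJ : Stmt_PRJ) (hF : Good F) (hI : I3 F) (E : QD F K) (a b : Fˣ) (w : Kˣ) :
    pf3 (iu F a) (iu F b) w = 0 := by
  have hK : Good K := hF.map (algebraMap F K)
  obtain ⟨g, hg, hgr⟩ := hMAP F K (algebraMap F K)
  have hrs : ∀ c : W F, rs F K c = g c := fun c => hgr c
  have hbr : ∀ c : Fˣ, rs F K (br c) = br (iu F c : Kˣ) := fun c => by rw [hrs]; exact hg c
  have hpf : rs F K (pf a b) = pf (iu F a) (iu F b) := by
    rw [hrs, pf, pf1, pf1, map_mul, map_add, map_add, map_one, ← hrs, ← hrs, hbr, hbr]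
    rfl
  -- the transfer of the form of dimension 4
  have hsum : ∑ k : Fin 4, br ((![w, w * iu F a, w * iu F b, w * iu F a * iu F b] : Fin 4 → Kˣ) k) =
      rs F K (pf a b) * br w := by
    rw [hpf, Fin.sum_univ_four]
    simp only [Matrix.cons_val_zero, Matrix.cons_val_one, Matrix.cons_val, br_mul, pf, pf1]
    ring
  have htr : E.tr (∑ k : Fin 4, br ((![w, w * iu F a, w * iu F b, w * iu F a * iu F b] : Fin 4 → Kˣ) k)) = 0 := by
    rw [hsum, hPRJ F K hF]
    by_cases hs : E.s w = 0
    · rw [(hSTR F K hF E w).2 hs, mul_zero]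
    · rw [(hSTR F K hF E w).1 (Units.mk0 _ hs) rfl, br_mul]
      have h3 := hI a b (E.nm w)
      have : pf a b * (br (Units.mk0 (E.s w) hs) + br (Units.mk0 (E.s w) hs) * br (E.nm w)) =
          br (Units.mk0 (E.s w) hs) * pf3 a b (E.nm w) := by
        unfold pf3 pf pf1; ring
      rw [this, h3, mul_zero]
  obtain ⟨z, e, hz, he⟩ := hSIS F K hF E 3 _ htr
  rw [Fin.sum_univ_four] at he
  simp only [Matrix.cons_val_zero, Matrix.cons_val_one, Matrix.cons_val, Units.val_mul] at he
  set f : K := z 0 ^ 2 + (iu F a : Kˣ) * z 1 ^ 2 + (iu F b : Kˣ) * z 2 ^ 2 +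
    (iu F a : Kˣ) * (iu F b : Kˣ) * z 3 ^ 2 with hf
  have he' : (w : K) * f = algebraMap F K e := by
    rw [← he, hf]; ring
  by_cases hf0 : f = 0
  · have := iso4 hREL hPFZ hK (iu F a) (iu F b) z hz (by rw [← hf]; exact hf0)
    have h2 : pf3 (iu F a) (iu F b) w = pf (iu F a) (iu F b) * pf1 w := rfl
    rw [h2, this, zero_mul]
  · have h1 : pf3 (iu F a) (iu F b) (Units.mk0 f hf0) = 0 :=
      (hPF3 K hK _ _ _).2 ⟨z 0, z 1, z 2, z 3, by rw [Units.val_mk0]⟩
    have he0 : e ≠ 0 := by
      rintro rfl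
      rw [map_zero] at he'
      rcases mul_eq_zero.1 he' with h | h
      · exact w.ne_zero h
      · exact hf0 h
    have hwf : w * Units.mk0 f hf0 = iu F (Units.mk0 e he0) := by
      ext
      simpa using he'
    have h2 : pf3 (iu F a : Kˣ) (iu F b) (iu F (Units.mk0 e he0)) = 0 := by
      have h3 : rs F K (pf3 a b (Units.mk0 e he0)) = pf3 (iu F a : Kˣ) (iu F b) (iu F (Units.mk0 e he0)) := by
        have h4 : pf3 a b (Units.mk0 e he0) = pf a b * pf1 (Units.mk0 e he0) := rfl
        rw [h4, hrs, map_mul, ← hrs, hpf, pf1, map_add, map_one, ← hrs, hbr]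
        rfl
      rw [← h3, hI, hrs, map_zero]
    rw [← hwf] at h2
    have e1 : pf3 (iu F a) (iu F b) (w * Units.mk0 f hf0) =
        pf (iu F a) (iu F b) * (1 + br w * br (Units.mk0 f hf0)) := by
      unfold pf3 pf pf1; rw [br_mul]
    have e2 : pf3 (iu F a) (iu F b) (Units.mk0 f hf0) =
        pf (iu F a) (iu F b) * (1 + br (Units.mk0 f hf0)) := rfl
    have e3 : pf3 (iu F a) (iu F b) w = pf (iu F a) (iu F b) * (1 + br w) := rfl
    rw [e1] at h2
    rw [e2] at h1
    rw [e3]
    linear_combination h2 - br w * h1 + add_self' (pf (iu F a) (iu F b) * br w)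

/-- Step 1: Rosset-Tate -/
lemma step1 (hREL : Stmt_REL) (hPFZ : Stmt_PFZ) (hF : Good F) (E : QD F K) (w y : Kˣ) :
    pf w y ∈ Ideal.span {c : W K | ∃ (b : Fˣ) (v : Kˣ), c = pf (iu F b) v} := by
  have hK : Good K := hF.map (algebraMap F K)
  set J := Ideal.span {c : W K | ∃ (b : Fˣ) (v : Kˣ), c = pf (iu F b) v} with hJ
  have hmem : ∀ (b : Fˣ) (v : Kˣ), pf (iu F b) v ∈ J := fun b v => Ideal.subset_span ⟨b, v, rfl⟩
  have hw := E.dec w
  have hy := E.dec y
  by_cases hsy : E.s y = 0
  · have ht : E.t y ≠ 0 := by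
      intro h
      rw [h, hsy, map_zero, zero_mul, add_zero] at hy
      exact y.ne_zero hy
    have hy' : y = iu F (Units.mk0 (E.t y) ht) := by
      ext
      rw [iu_coe, Units.val_mk0]
      rw [hsy, map_zero, zero_mul, add_zero] at hy
      exact hy
    rw [pf_comm, hy']
    exact hmem _ _
  by_cases hsw : E.s w = 0
  · have ht : E.t w ≠ 0 := by
      intro h
      rw [h, hsw, map_zero, zero_mul, add_zero] at hw
      exact w.ne_zero hw
    have hw' : w = iu F (Units.mk0 (E.t w) ht) := by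
      ext
      rw [iu_coe, Units.val_mk0]
      rw [hsw, map_zero, zero_mul, add_zero] at hw
      exact hw
    rw [hw']
    exact hmem _ _
  set b : F := E.s y with hb
  set c : F := - E.s w with hc
  have hc0 : c ≠ 0 := neg_ne_zero.2 hsw
  set e : F := E.s y * E.t w - E.s w * E.t y with he
  have hdep : algebraMap F K b * w + algebraMap F K c * y = algebraMap F K e := by
    have h1 : algebraMap F K b * w + algebraMap F K c * y =
        algebraMap F K b * (algebraMap F K (E.t w) + algebraMap F K (E.s w) * E.θ) +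
        algebraMap F K c * (algebraMap F K (E.t y) + algebraMap F K (E.s y) * E.θ) := by
      rw [← hw, ← hy]
    rw [h1, hb, hc, he]
    simp only [map_neg, map_sub, map_mul]
    ring
  obtain ⟨i, hi⟩ := hK.neg
  by_cases he0 : e = 0
  · -- `w = g y`
    have hg0 : - c / b ≠ 0 := div_ne_zero (neg_ne_zero.2 hc0) hsy
    have hwg : w = iu F (Units.mk0 (- c / b) hg0) * y := by
      ext
      rw [Units.val_mul, iu_coe, Units.val_mk0, map_div₀, map_neg]
      have hb0 : algebraMap F K b ≠ 0 := (map_ne_zero _).2 hsy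
      rw [he0, map_zero] at hdep
      field_simp
      linear_combination hdep
    have h1 : pf w y = pf (iu F (Units.mk0 (- c / b) hg0)) y := by
      rw [hwg]
      unfold pf pf1
      rw [br_mul]
      linear_combination br (iu F (Units.mk0 (- c / b) hg0) : Kˣ) * br_sq hREL hK y
    rw [h1]
    exact hmem _ _
  · set b' : Kˣ := iu F (Units.mk0 (b / e) (div_ne_zero hsy he0)) with hb'
    set c' : Kˣ := iu F (Units.mk0 (c / e) (div_ne_zero hc0 he0)) with hc'
    have hb'' : (b' : K) * algebraMap F K e = algebraMap F K b := by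
      rw [hb', iu_coe, Units.val_mk0, ← map_mul, div_mul_cancel₀ _ he0]
    have hc'' : (c' : K) * algebraMap F K e = algebraMap F K c := by
      rw [hc', iu_coe, Units.val_mk0, ← map_mul, div_mul_cancel₀ _ he0]
    have he1 : algebraMap F K e ≠ 0 := (map_ne_zero _).2 he0
    have hrel : (b' : K) * w + c' * y = 1 := by
      have h1 : algebraMap F K e * ((b' : K) * w + c' * y) = algebraMap F K e * 1 := by
        linear_combination hdep + (w : K) * hb'' + (y : K) * hc''
      exact mul_left_cancel₀ he1 h1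
    have hz : pf (b' * w) (c' * y) = 0 := by
      rw [hPFZ K hK]
      refine ⟨1, i, ?_⟩
      rw [Units.val_mul, Units.val_mul, hi]
      linear_combination hrel
    have hb2 := br_sq hREL hK b'
    have hc2 := br_sq hREL hK c'
    have h1 : pf1 w = br b' * (pf1 (b' * w) + pf1 b') := by
      unfold pf1
      rw [br_mul]
      linear_combination - (br w + 1) * hb2 - add_self' (br b')
    have h2 : pf1 y = br c' * (pf1 (c' * y) + pf1 c') := by
      unfold pf1
      rw [br_mul]
      linear_combination - (br y + 1) * hc2 - add_self' (br c')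
    have h3 : pf w y = br b' * br c' * (pf c' (b' * w)) + br b' * br c' * (pf b' (c' * y)) +
        br b' * br c' * pf b' c' := by
      have h4 : pf w y = pf1 w * pf1 y := rfl
      rw [h4, h1, h2]
      have h5 : pf1 (b' * w) * pf1 (c' * y) = 0 := hz
      unfold pf
      linear_combination br b' * br c' * h5
    rw [h3]
    exact J.add_mem (J.add_mem (J.mul_mem_left _ (hmem _ _)) (J.mul_mem_left _ (hmem _ _)))
      (J.mul_mem_left _ (hmem _ _))

end two

end I3K_

open I3K_ in
theorem i3k_proof (_hSUR : Stmt_SUR) (hREL : Stmt_REL) (hPFZ : Stmt_PFZ) (hPF3 : Stmt_PF3) (hMAP : Stmt_MAP)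
    (hSTR : Stmt_STR) (hSIS : Stmt_SIS) (hPRJ : Stmt_PRJ) : Stmt_I3K := by
  intro F K _ _ _ hF hI E u v w
  set J := Ideal.span {c : W K | ∃ (b : Fˣ) (v : Kˣ), c = pf (iu F b) v} with hJ
  have h1 : ∀ x ∈ J, ∀ b : Fˣ, pf1 (iu F b) * x = 0 := by
    intro x hx b
    refine Submodule.span_induction (p := fun x _ => pf1 (iu F b) * x = 0) ?_ ?_ ?_ ?_ hx
    · rintro _ ⟨b', y, rfl⟩
      have h := step3 hREL hPFZ hPF3 hMAP hSTR hSIS hPRJ hF hI E b b' y
      rw [← h]
      unfold pf3 pf
      ring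
    · exact mul_zero _
    · intro x y _ _ hx hy
      rw [mul_add, hx, hy, add_zero]
    · intro r x _ hx
      rw [smul_eq_mul]
      linear_combination r * hx
  have h2 : ∀ x ∈ J, ∀ w : Kˣ, x * pf1 w = 0 := by
    intro x hx w
    refine Submodule.span_induction (p := fun x _ => x * pf1 w = 0) ?_ ?_ ?_ ?_ hx
    · rintro _ ⟨b', y, rfl⟩
      have h := h1 _ (step1 hREL hPFZ hF E y w) b'
      rw [← h]
      unfold pf
      ring
    · exact zero_mul _
    · intro x y _ _ hx hy
      rw [add_mul, hx, hy, add_zero]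
    · intro r x _ hx
      rw [smul_eq_mul]
      linear_combination r * hx
  exact h2 _ (step1 hREL hPFZ hF E u v) w

end Pool.Agent.EWG
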