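import Pool.Agent.EWG.Stmts

namespace Pool.Agent.EWG

theorem kr2_proof (hAUG : Stmt_AUG) (hIM2 : Stmt_IM2) (hDI2 : Stmt_DI2) (hBIL : Stmt_BIL)
    (_hMAP : Stmt_MAP) (hRKR : Stmt_RKR) : Stmt_KR2 := by
  intro F K _ _ _ hF h3 E b hb
  obtain ⟨b1, b2, b3, b4, b5⟩ := hBIL F hF h3
  obtain ⟨ε, e1, e2⟩ := hAUG F hF
  constructor
  · intro h
    obtain ⟨d, hd⟩ := (hRKR F K hF E b).1 h
    have hx : pf1 E.x ∈ I F := Ideal.subset_span ⟨_, rfl⟩
    have hε : ε d = 0 ∨ ε d = 1 := by
      generalize ε d = z; revert z; decide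
    rcases hε with h0 | h0
    · obtain ⟨v, hv⟩ := hIM2 F hF d ((e2 d).1 h0)
      refine ⟨v, ?_⟩
      have h3' : pf1 E.x * (d + pf1 v) = 0 := by
        apply b2
        have : (I F) ^ 3 = I F * (I F) ^ 2 := by ring
        rw [this]
        exact Ideal.mul_mem_mul hx hv
      have h4 := add_self' (pf1 E.x * pf1 v)
      rw [hd]
      unfold pf
      linear_combination h3' - h4
    · exfalso
      apply E.ns
      apply hDI2 F hF
      have h1 : d + 1 ∈ I F := by
        rw [← e2, map_add, map_one, h0]; decide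
      have h2 : pf1 E.x * (d + 1) ∈ (I F) ^ 2 := by
        rw [pow_two]; exact Ideal.mul_mem_mul hx h1
      have h4 := add_self' (pf1 E.x * d)
      have : pf1 E.x = b + pf1 E.x * (d + 1) := by
        rw [hd]; linear_combination -h4
      rw [this]
      exact Ideal.add_mem _ hb h2
  · rintro ⟨v, rfl⟩
    exact (hRKR F K hF E _).2 ⟨pf1 v, rfl⟩

end Pool.Agent.EWG
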