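import Pool.Agent.EWG.Stmts

namespace Pool.Agent.EWG

theorem kt2_proof (hREL : Stmt_REL) (hAUG : Stmt_AUG) (hIM2 : Stmt_IM2) (hDI2 : Stmt_DI2)
    (hMAP : Stmt_MAP) (hKTR : Stmt_KTR) (hVKR : Stmt_VKR) : Stmt_KT2 := by
  intro F K _ _ _ hF h3 E c hc h0
  have hK : Good K := hF.map (algebraMap F K)
  obtain ⟨d, hd⟩ := hKTR F K hF E c h0
  obtain ⟨εF, f1, f2⟩ := hAUG F hF
  obtain ⟨εK, k1, k2⟩ := hAUG K hK
  obtain ⟨g, hg, hg'⟩ := hMAP F K (algebraMap F K)
  obtain ⟨r1, r2, r3, r4⟩ := hREL F hF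
  obtain ⟨s1, s2, s3, s4⟩ := hREL K hK
  have hbr : ∀ a : Fˣ, g (br a) = br (iu F a) := hg
  have hgI : ∀ z ∈ I F, g z ∈ I K := by
    have : I F ≤ (I K).comap g := by
      refine Ideal.span_le.2 ?_
      rintro _ ⟨a, rfl⟩
      change g (pf1 a) ∈ I K
      unfold pf1
      rw [map_add, map_one, hbr]
      exact Ideal.subset_span ⟨iu F a, rfl⟩
    exact fun z hz => this hz
  have hgI2 : ∀ z ∈ (I F) ^ 2, g z ∈ (I K) ^ 2 := by
    intro z hz
    have h1 := Ideal.mem_map_of_mem g hz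
    rw [Ideal.map_pow] at h1
    exact Ideal.pow_right_mono (Ideal.map_le_iff_le_comap.2 hgI) 2 h1
  have hcI : c ∈ I K := Ideal.pow_le_self two_ne_zero hc
  rw [show rs F K d = g d from hg' d] at hd
  have hdI : d ∈ I F := by
    rw [← f2]
    have hε : εF d = 0 ∨ εF d = 1 := by generalize εF d = z; revert z; decide
    rcases hε with h | h
    · exact h
    · exfalso
      have h1 : d + 1 ∈ I F := by rw [← f2, map_add, map_one, h]; decide
      have h2 := hgI _ h1
      rw [map_add, map_one, ← hd] at h2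
      have h3 : (1 : W K) ∈ I K := by
        have := Ideal.sub_mem _ h2 hcI
        simpa using this
      have := (k2 _).2 h3
      rw [map_one] at this
      exact one_ne_zero this
  obtain ⟨a, ha⟩ := hIM2 F hF d hdI
  have h4 := hgI2 _ ha
  have h5 : g (pf1 a) = pf1 (iu F a) := by
    unfold pf1
    rw [map_add, map_one, hbr]
  rw [map_add, ← hd, h5] at h4
  have h6 : pf1 (iu F a : Kˣ) ∈ (I K) ^ 2 := by
    have := Ideal.sub_mem _ h4 hc
    simpa using this
  have h7 := hDI2 K hK _ h6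
  rcases ((hVKR F K hF E).2.1 a).1 h7 with h8 | h8
  · have h9 : br a = 1 := by
      rw [← br_one]; exact (r1 a 1).2 (by rwa [mul_one])
    have h10 : pf1 a = 0 := by unfold pf1; rw [h9]; exact add_self' 1
    rw [h10, add_zero] at ha
    exact ⟨d, ha, by rw [hd]; exact (hg' d).symm⟩
  · have h9 : pf1 a = pf1 E.x := by
      unfold pf1; rw [(r1 a E.x).2 h8]
    rw [h9] at ha
    refine ⟨d + pf1 E.x, ha, ?_⟩
    rw [show rs F K (d + pf1 E.x) = g (d + pf1 E.x) from hg' _, map_add, ← hd]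
    have h10 : g (pf1 E.x) = 0 := by
      unfold pf1
      rw [map_add, map_one, hbr]
      have : br (iu F E.x : Kˣ) = 1 := by
        rw [← br_one]
        refine (s1 _ 1).2 ⟨E.θ, ?_⟩
        ext
        simp only [mul_one, iu_coe, Units.val_mul]
        rw [← E.sq, pow_two]
      rw [this]; exact add_self' 1
    rw [h10, add_zero]

end Pool.Agent.EWG
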