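import Pool.Agent.EWG.Stmts

/-! The kernel of the transfer is the image of the restriction. -/

set_option autoImplicit false

namespace Pool.Agent.EWG

open scoped BigOperators

theorem ktr_proof (hSUR : Stmt_SUR) (hSP1 : Stmt_SP1) (hSP0 : Stmt_SP0) (hMAP : Stmt_MAP)
    (hSTR : Stmt_STR) (hSIS : Stmt_SIS) : Stmt_KTR := by
  intro F K _ _ _ hg E c hc
  have hgK : Good K := hg.map (algebraMap F K)
  have hT := hSTR F K hg E
  obtain ⟨g, hgm, hgw⟩ := hMAP F K (algebraMap F K)
  have hrs : ∀ a : W F, rs F K a = g a := fun a => hgw a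
  obtain ⟨n, w, rfl⟩ := hSUR K c
  induction n using Nat.strong_induction_on with
  | _ n ih =>
    match n, w, ih, hc with
    | 0, w, ih, hc => exact ⟨0, by rw [hrs, map_zero]; simp⟩
    | n + 1, w, ih, hc =>
      obtain ⟨z, e, hz0, hz⟩ := hSIS F K hg E n w hc
      have hz' : ud w z z = algebraMap F K e := by rw [ud_apply]; exact hz
      by_cases he : e = 0
      · rw [he, map_zero] at hz'
        match n, w, z, ih, hc, hz0, hz' with
        | 0, w, z, ih, hc, hz0, hz' =>
          exfalso
          rw [ud_apply, Fin.sum_univ_one] at hz'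
          apply hz0
          funext i
          have hi : i = 0 := by apply Fin.ext; have := i.2; omega
          rw [hi]
          have h1 : ((w 0 : Kˣ) : K) ≠ 0 := (w 0).ne_zero
          have h2 : ((w 0 : Kˣ) : K) * (z 0 * z 0) = 0 := by rw [← mul_assoc]; exact hz'
          rcases mul_eq_zero.1 h2 with h3 | h3
          · exact absurd h3 h1
          · simpa using h3
        | m + 1, w, z, ih, hc, hz0, hz' =>
          obtain ⟨w', hw'⟩ := hSP0 K hgK m w z hz0 hz'
          rw [hw'] at hc ⊢
          exact ih m (by omega) w' hc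
      · obtain ⟨w', hw'⟩ := hSP1 K hgK n w z (iu F (Units.mk0 e he)) (by
          rw [hz', iu_coe, Units.val_mk0])
        have h0 : E.tr (br (iu F (Units.mk0 e he) : Kˣ)) = 0 := by
          apply (hT _).2
          rw [iu_coe, E.s1]
        rw [hw', map_add, h0, zero_add] at hc
        obtain ⟨d, hd⟩ := ih n (by omega) w' hc
        refine ⟨br (Units.mk0 e he) + d, ?_⟩
        rw [hw', hd, hrs, hrs, map_add, hgm]
        rfl

end Pool.Agent.EWG
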