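import Pool.Agent.EWG.Stmts

/-!
Squad EWG, module LNK: linkage of two-fold Pfister forms.
-/

set_option autoImplicit false

namespace Pool.Agent.EWG

namespace LNK_

variable {K : Type} [Field K]

theorem two_zero : (1 : W K) + 1 = 0 := add_self' 1

theorem pf_one (a : Kˣ) : pf a (1 : Kˣ) = 0 := by
  unfold pf pf1
  rw [br_one, two_zero, mul_zero]

/-- the form `(s,t,u,v) ↦ ![0,s,t,0,u,v]` -/
def inc : (Fin 4 → K) →ₗ[K] (Fin 6 → K) where
  toFun z := ![0, z 0, z 1, 0, z 2, z 3]
  map_add' x y := by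
    funext i; fin_cases i <;> simp
  map_smul' r x := by
    funext i; fin_cases i <;> simp

theorem inc_inj : Function.Injective (inc (K := K)) := by
  intro x y h
  have h1 := congrFun h 1
  have h2 := congrFun h 2
  have h4 := congrFun h 4
  have h5 := congrFun h 5
  simp only [inc, LinearMap.coe_mk, AddHom.coe_mk] at h1 h2 h4 h5
  funext i
  fin_cases i
  · simpa using h1
  · simpa using h2
  · simpa using h4
  · simpa using h5

/-- `⟨⟨a⟩⟩ = ⟨⟨a⟩⟩ ⟨y⟩` if `⟨⟨a, y⟩⟩ = 0` -/
theorem pf1_br (a y : Kˣ) (h : pf a y = 0) : pf1 a * br y = pf1 a := by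
  unfold pf at h
  have h1 : pf1 a * pf1 y = pf1 a + pf1 a * br y := by unfold pf1; ring
  rw [h1] at h
  linear_combination h - add_self' (pf1 a)

theorem sq_zero (hREL : ∀ a b : Kˣ, br (a * b ^ 2) = br a) (a : Kˣ) (y : K)
    (hy : (a : K) = y ^ 2) : pf1 a = 0 := by
  have hy0 : y ≠ 0 := by
    rintro rfl
    apply a.ne_zero
    rw [hy]; ring
  have : a = 1 * (Units.mk0 y hy0) ^ 2 := by
    ext
    simp [hy]
  unfold pf1
  rw [this, hREL, br_one, two_zero]

theorem key (hREL : ∀ a b : Kˣ, br (a * b ^ 2) = br a)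
    (hPFZ : ∀ a b : Kˣ, pf a b = 0 ↔ ∃ s t : K, (b : K) = s ^ 2 + a * t ^ 2)
    (a b x : Kˣ) (s t : K) (hx : (x : K) = b * (s ^ 2 + a * t ^ 2)) : pf a x = pf a b := by
  have h0 : pf a (b * x) = 0 := by
    rw [hPFZ]
    refine ⟨b * s, b * t, ?_⟩
    rw [Units.val_mul, hx]; ring
  have h1 := pf1_br a (b * x) h0
  have h2 : br x = br (b * x) * br b := by
    rw [← br_mul, ← hREL x b]
    congr 1
    rw [mul_comm b x, mul_assoc, pow_two]
  unfold pf
  have h3 : pf1 a * br x = pf1 a * br b := by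
    rw [h2, ← mul_assoc, h1]
  have e1 : pf1 a * pf1 x = pf1 a + pf1 a * br x := by unfold pf1; ring
  have e2 : pf1 a * pf1 b = pf1 a + pf1 a * br b := by unfold pf1; ring
  rw [e1, e2, h3]

end LNK_

open LNK_ in
theorem lnk_proof (hSMP : Stmt_SMP) (hWZ : Stmt_WZ) (hREL : Stmt_REL) (hPFZ : Stmt_PFZ) :
    Stmt_LNK := by
  intro K _ hK a b c d habcd
  obtain ⟨-, hneg, -, hR4⟩ := hREL K hK
  have hZ := hPFZ K hK
  obtain ⟨i, hi⟩ := hK.neg
  -- the six-dimensional form
  set w : Fin 6 → Kˣ := ![a, b, a * b, c, d, c * d] with hw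
  have hsum : ∑ j, br (w j) = 0 := by
    rw [Fin.sum_univ_six]
    simp only [hw, Matrix.cons_val]
    rw [br_mul, br_mul]
    have e1 : pf a b = 1 + br a + br b + br a * br b := by unfold pf pf1; ring
    have e2 : pf c d = 1 + br c + br d + br c * br d := by unfold pf pf1; ring
    rw [e1, e2] at habcd
    have e3 := add_self' (1 + br c + br d + br c * br d)
    have e4 := add_self' (1 : W K)
    linear_combination habcd + e3 - e4
  have hsp : Split K (ud w) := (hWZ K hK (Fin 6) w).1 hsum
  have hfr : Module.finrank K (LinearMap.range (inc (K := K))) = 4 := by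
    rw [LinearMap.finrank_range_of_inj inc_inj, Module.finrank_fin_fun]
  obtain ⟨v, hvP, hv0, hvv⟩ := hSMP K (Fin 6 → K) (ud w) hsp (LinearMap.range (inc (K := K)))
    (by rw [hfr, Module.finrank_fin_fun]; norm_num)
  obtain ⟨z, rfl⟩ := hvP
  have hz0 : z ≠ 0 := by
    rintro rfl
    exact hv0 (map_zero _)
  rw [ud_apply, Fin.sum_univ_six] at hvv
  simp only [hw, inc, LinearMap.coe_mk, AddHom.coe_mk, Matrix.cons_val, Units.val_mul] at hvv
  have heq : (b : K) * (z 0 ^ 2 + a * z 1 ^ 2) = -(d * (z 2 ^ 2 + c * z 3 ^ 2)) := by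
    linear_combination hvv
  by_cases he : (b : K) * (z 0 ^ 2 + a * z 1 ^ 2) = 0
  · -- one of the forms is hyperbolic: everything is zero
    have hst : z 0 ^ 2 + a * z 1 ^ 2 = 0 := by
      rcases mul_eq_zero.1 he with h | h
      · exact absurd h b.ne_zero
      · exact h
    have huv : z 2 ^ 2 + c * z 3 ^ 2 = 0 := by
      rw [he] at heq
      rcases mul_eq_zero.1 (neg_eq_zero.1 heq.symm) with h | h
      · exact absurd h d.ne_zero
      · exact h
    have aux : ∀ (y : Kˣ) (p q : K), p ^ 2 + y * q ^ 2 = 0 → (p ≠ 0 ∨ q ≠ 0) → pf1 y = 0 := by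
      intro y p q hpq hne
      have hq : q ≠ 0 := by
        rintro rfl
        rcases hne with h | h
        · apply h
          have : p ^ 2 = 0 := by linear_combination hpq
          exact pow_eq_zero_iff (two_ne_zero) |>.1 this
        · exact h rfl
      apply sq_zero hR4 y (i * p / q)
      field_simp
      rw [hi]
      linear_combination hpq
    have hz : pf a b = 0 := by
      by_cases h01 : z 0 = 0 ∧ z 1 = 0
      · have h23 : z 2 ≠ 0 ∨ z 3 ≠ 0 := by
          by_contra hcon
          push_neg at hcon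
          apply hz0
          funext j
          fin_cases j
          · exact h01.1
          · exact h01.2
          · exact hcon.1
          · exact hcon.2
        rw [habcd]
        unfold pf
        rw [aux c _ _ huv h23, zero_mul]
      · have h01' : z 0 ≠ 0 ∨ z 1 ≠ 0 := by
          by_contra hcon
          push_neg at hcon
          exact h01 hcon
        unfold pf
        rw [aux a _ _ hst h01', zero_mul]
    refine ⟨1, ?_, ?_⟩
    · rw [pf_one, hz]
    · rw [pf_one, hz]
  · refine ⟨Units.mk0 _ he, ?_, ?_⟩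
    · exact key hR4 hZ a b _ (z 0) (z 1) rfl
    · rw [habcd]
      apply key hR4 hZ c d _ (i * z 2) (i * z 3)
      rw [Units.val_mk0, heq]
      linear_combination (-(d : K) * (z 2 ^ 2 + c * z 3 ^ 2)) * hi

end Pool.Agent.EWG
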