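import Pool.Agent.EWG.Stmts

namespace Pool.Agent.EWG

theorem obi_proof : Stmt_OBI := by
  intro K V ι _ _ _ _ B v a h
  classical
  refine ⟨v.equivFun, fun x y => ?_⟩
  conv_rhs => rw [← v.sum_equivFun x, ← v.sum_equivFun y]
  simp only [map_sum, LinearMap.sum_apply, map_smul, LinearMap.smul_apply, smul_eq_mul, ud_apply]
  refine Finset.sum_congr rfl fun i _ => ?_
  rw [Finset.sum_eq_single i]
  · rw [h.2 i]; ring
  · intro j _ hj; rw [h.1 _ _ (by tauto)]; ring
  · intro h'; exact absurd (Finset.mem_univ i) h'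

end Pool.Agent.EWG
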