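import Pool.Agent.EWG.Stmts

/-!
Extending an anisotropic vector to an orthogonal basis.
-/

set_option autoImplicit false

namespace Pool.Agent.EWG

open scoped BigOperators

theorem or1_proof (hORB : Stmt_ORB) : Stmt_OR1 := by
  intro K V _ _ _ _ B n h2 hSN hn u d hu
  have hd : (d : K) ≠ 0 := d.ne_zero
  have hne : B u ≠ 0 := by
    intro h
    apply hd
    rw [← hu, h, LinearMap.zero_apply]
  have hW : Module.finrank K (LinearMap.ker (B u)) = n := by
    have h := LinearMap.finrank_range_add_finrank_ker (B u)
    rw [LinearMap.range_eq_top.2 (LinearMap.surjective hne), finrank_top,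
      Module.finrank_self, hn] at h
    omega
  let BW : LinearMap.BilinForm K (LinearMap.ker (B u)) :=
    LinearMap.mk₂ K (fun x y => B x y) (fun _ _ _ => by simp) (fun _ _ _ => by simp)
      (fun _ _ _ => by simp) (fun _ _ _ => by simp)
  have hBW : ∀ x y : LinearMap.ker (B u), BW x y = B x y := fun _ _ => rfl
  have hs : SN BW := by
    refine ⟨fun x y => by rw [hBW, hBW]; exact hSN.1 _ _, fun x hx => ?_⟩
    apply Subtype.ext
    apply hSN.2
    intro z
    have hxu : B (x : V) u = 0 := by
      rw [hSN.1]
      exact LinearMap.mem_ker.1 x.2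
    have hz : z - (B u z / d) • u ∈ LinearMap.ker (B u) := by
      rw [LinearMap.mem_ker, map_sub, map_smul, hu, smul_eq_mul, div_mul_cancel₀ _ hd, sub_self]
    have h3 := hx ⟨_, hz⟩
    rw [hBW] at h3
    simp only [map_sub, map_smul, hxu, smul_zero, sub_zero] at h3
    exact h3
  obtain ⟨b, a, hob⟩ := hORB K (LinearMap.ker (B u)) BW h2 hs
  let e : Fin (Module.finrank K (LinearMap.ker (B u))) ≃ Fin n := finCongr hW
  let b' := b.reindex e
  have hli : LinearIndependent K (Fin.cons u (fun i => ((b' i : LinearMap.ker (B u)) : V)) :
      Fin (n + 1) → V) := by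
    rw [linearIndependent_finCons]
    refine ⟨?_, ?_⟩
    · exact b'.linearIndependent.map' (LinearMap.ker (B u)).subtype (Submodule.ker_subtype _)
    · intro hmem
      have hle : Submodule.span K (Set.range fun i => ((b' i : LinearMap.ker (B u)) : V)) ≤
          LinearMap.ker (B u) := by
        rw [Submodule.span_le]
        rintro _ ⟨i, rfl⟩
        exact (b' i).2
      have h4 := LinearMap.mem_ker.1 (hle hmem)
      rw [hu] at h4
      exact hd h4
  let v := basisOfLinearIndependentOfCardEqFinrank hli (by simp [hn])
  have hv : ∀ i, v i = (Fin.cons u (fun i => ((b' i : LinearMap.ker (B u)) : V)) :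
      Fin (n + 1) → V) i := fun i => by
    rw [coe_basisOfLinearIndependentOfCardEqFinrank]
  have hv0 : v 0 = u := by rw [hv]; rfl
  have hvs : ∀ i : Fin n, v i.succ = ((b (e.symm i) : LinearMap.ker (B u)) : V) := fun i => by
    rw [hv, Fin.cons_succ, Module.Basis.reindex_apply]
  refine ⟨v, Fin.cons d (fun i => a (e.symm i)), ⟨?_, ?_⟩, hv0, rfl⟩
  · intro i j hij
    induction i using Fin.cases with
    | zero =>
      induction j using Fin.cases with
      | zero => exact absurd rfl hij
      | succ j =>
        rw [hv0, hvs]
        exact LinearMap.mem_ker.1 (b (e.symm j)).2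
    | succ i =>
      induction j using Fin.cases with
      | zero =>
        rw [hv0, hvs, hSN.1]
        exact LinearMap.mem_ker.1 (b (e.symm i)).2
      | succ j =>
        rw [hvs, hvs, ← hBW]
        apply hob.1
        intro h
        apply hij
        rw [e.symm.injective h]
  · intro i
    induction i using Fin.cases with
    | zero => rw [hv0, hu]; rfl
    | succ i =>
      rw [hvs, ← hBW, hob.2]
      rfl

end Pool.Agent.EWG
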