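import Pool.Agent.EWG.Stmts

set_option autoImplicit false

namespace Pool.Agent.EWG

namespace ORB_

theorem symm {K V : Type} [Field K] [AddCommGroup V] [Module K V]
    (B : LinearMap.BilinForm K V) (h : ∀ x y, B x y = B y x) : LinearMap.IsSymm B := by
  constructor
  intro x y
  simp [h x y]

end ORB_

theorem orb_proof : Stmt_ORB := by
  intro K V _ _ _ _ B h2 hB
  have : Invertible (2 : K) := invertibleOfNonzero h2
  obtain ⟨v, hv⟩ := LinearMap.BilinForm.exists_orthogonal_basis (ORB_.symm B hB.1)
  have hort : ∀ i j, i ≠ j → B (v i) (v j) = 0 := fun i j hij => hv hij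
  have hne : ∀ i, B (v i) (v i) ≠ 0 := by
    intro i h0
    apply v.ne_zero i
    apply hB.2
    intro y
    have hy := v.sum_repr y
    rw [← hy, map_sum]
    refine Finset.sum_eq_zero fun j _ => ?_
    rw [map_smul]
    by_cases hij : i = j
    · rw [← hij, h0, smul_zero]
    · rw [hort i j hij, smul_zero]
  exact ⟨v, fun i => Units.mk0 _ (hne i), hort, fun i => rfl⟩

end Pool.Agent.EWG
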