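import Pool.Agent.EWG.Stmts

/-!
Module OSU: the orthogonal sum of two split forms is split.
-/

set_option autoImplicit false

namespace Pool.Agent.EWG

namespace OSU_

/-- a product submodule is the product of the submodules -/
def pe {K V V' : Type} [Field K] [AddCommGroup V] [Module K V] [AddCommGroup V'] [Module K V']
    (N : Submodule K V) (N' : Submodule K V') : (N.prod N') ≃ₗ[K] (N × N') where
  toFun x := (⟨x.1.1, x.2.1⟩, ⟨x.1.2, x.2.2⟩)
  invFun y := ⟨(y.1.1, y.2.1), ⟨y.1.2, y.2.2⟩⟩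
  map_add' _ _ := rfl
  map_smul' _ _ := rfl
  left_inv _ := rfl
  right_inv _ := rfl

end OSU_

theorem osu_proof : Stmt_OSU := by
  intro K V V' _ _ _ _ _ _ _ B B' hB hB'
  obtain ⟨N, hN, hd⟩ := hB
  obtain ⟨N', hN', hd'⟩ := hB'
  refine ⟨N.prod N', ?_, ?_⟩
  · rintro ⟨x, x'⟩ hx ⟨y, y'⟩ hy
    have hx2 := Submodule.mem_prod.1 hx
    have hy2 := Submodule.mem_prod.1 hy
    simp only [osum_apply]
    rw [hN x hx2.1 y hy2.1, hN' x' hx2.2 y' hy2.2, add_zero]
  · rw [(OSU_.pe N N').finrank_eq, Module.finrank_prod, Module.finrank_prod, mul_add, hd, hd']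

end Pool.Agent.EWG
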