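import Pool.Agent.EWG.Stmts

/-!
Module PF3: a threefold Pfister form is zero iff the third slot is represented by the twofold one.
-/

set_option autoImplicit false

namespace Pool.Agent.EWG

namespace PF3_

open scoped BigOperators

variable {K : Type} [Field K]

theorem absorb (hPFZ : Stmt_PFZ) (hK : Good K) (a p : Kˣ) (s t : K)
    (h : (p : K) = s ^ 2 + a * t ^ 2) : pf1 a * br p = pf1 a := by
  have h1 : pf1 a * (1 + br p) = 0 := (hPFZ K hK a p).2 ⟨s, t, h⟩
  linear_combination h1 - add_self' (pf1 a)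

theorem pf1_sq (hREL : Stmt_REL) (hK : Good K) (b : Kˣ) : pf1 b * pf1 b = 0 := by
  have h1 : br b * br b = 1 := by
    have h2 := (hREL K hK).2.2.2 1 b
    rw [br_mul, br_one, one_mul, pow_two, br_mul] at h2
    exact h2
  have h3 : pf1 b * pf1 b = 1 + br b + br b + br b * br b := by unfold pf1; ring
  rw [h3, h1]
  linear_combination add_self' (1 : W K) + add_self' (br b)

theorem back (hREL : Stmt_REL) (hPFZ : Stmt_PFZ) (hK : Good K) (a b c : Kˣ)
    (h : ∃ s t u v : K, (c : K) = s ^ 2 + a * t ^ 2 + b * u ^ 2 + a * b * v ^ 2) :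
    pf3 a b c = 0 := by
  obtain ⟨s, t, u, v, h⟩ := h
  by_cases hp : s ^ 2 + a * t ^ 2 = 0
  · have hq : u ^ 2 + a * v ^ 2 ≠ 0 := by
      intro hq
      apply c.ne_zero
      rw [h]
      linear_combination hp + (b : K) * hq
    have hc : c = b * Units.mk0 _ hq := by
      ext
      push_cast
      rw [Units.val_mk0, h]
      linear_combination hp
    have hQ := absorb hPFZ hK a (Units.mk0 _ hq) u v rfl
    have hb := pf1_sq hREL hK b
    unfold pf3
    rw [hc]
    have h1 : pf1 (b * Units.mk0 _ hq) = 1 + br b * br (Units.mk0 _ hq) := by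
      unfold pf1; rw [br_mul]
    rw [h1]
    have h2 : pf1 b = 1 + br b := rfl
    have h3 : pf1 a * pf1 b * (1 + br b * br (Units.mk0 _ hq)) =
        pf1 a * pf1 b * pf1 b := by
      linear_combination (pf1 b * br b) * hQ - (pf1 a * pf1 b) * h2
    rw [h3, mul_assoc, hb, mul_zero]
  · have hP := absorb hPFZ hK a (Units.mk0 _ hp) s t rfl
    by_cases hq : u ^ 2 + a * v ^ 2 = 0
    · have hc : c = Units.mk0 _ hp := by
        ext
        rw [Units.val_mk0, h]
        linear_combination (b : K) * hq
      unfold pf3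
      rw [hc]
      have h1 : pf1 (Units.mk0 _ hp) = 1 + br (Units.mk0 _ hp) := rfl
      rw [h1]
      linear_combination (pf1 b) * hP + add_self' (pf1 a * pf1 b)
    · have hQ := absorb hPFZ hK a (Units.mk0 _ hq) u v rfl
      set P := Units.mk0 _ hp with hPd
      set Q := Units.mk0 _ hq with hQd
      have hc : (c : K) = (P : K) + ((b * Q : Kˣ) : K) := by
        push_cast
        rw [hPd, hQd, Units.val_mk0, Units.val_mk0, h]
        ring
      have h1 := (hREL K hK).2.2.1 P (b * Q) c hc
      rw [br_mul, br_mul, br_mul, br_mul] at h1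
      have hb : pf1 b = 1 + br b := rfl
      have hc' : pf1 c = 1 + br c := rfl
      have h2 : pf1 a * pf1 b = br c * (pf1 a * pf1 b) := by
        have e1 : pf1 a * pf1 b = pf1 a * (br P + br b * br Q) := by
          linear_combination (pf1 a) * hb - hP - br b * hQ
        have e2 : pf1 a * (br c + br P * (br b * br Q) * br c) = br c * (pf1 a * pf1 b) := by
          linear_combination (br b * br Q * br c) * hP + (br b * br c) * hQ -
            (br c * pf1 a) * hb
        calc pf1 a * pf1 b = pf1 a * (br P + br b * br Q) := e1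
          _ = pf1 a * (br c + br P * (br b * br Q) * br c) := by rw [h1]
          _ = br c * (pf1 a * pf1 b) := e2
      unfold pf3
      rw [hc']
      linear_combination - h2 + add_self' (pf1 a * pf1 b)

theorem class8 (a b c : Kˣ) : pf3 a b c =
    ∑ i, br ((![1, a, b, a * b, c, a * c, b * c, a * b * c] : Fin 8 → Kˣ) i) := by
  rw [Fin.sum_univ_eight]
  simp only [Matrix.cons_val]
  rw [br_one, br_mul, br_mul, br_mul, br_mul, br_mul]
  unfold pf3 pf1
  ring

/-- the inclusion of the first five coordinates -/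
noncomputable def inc : (Fin 5 → K) →ₗ[K] (Fin 8 → K) :=
  LinearMap.pi ![LinearMap.proj 0, LinearMap.proj 1, LinearMap.proj 2, LinearMap.proj 3,
    LinearMap.proj 4, 0, 0, 0]

theorem inc_inj : Function.Injective (inc : (Fin 5 → K) →ₗ[K] (Fin 8 → K)) := by
  intro x y h
  have h0 := congrFun h 0
  have h1 := congrFun h 1
  have h2 := congrFun h 2
  have h3 := congrFun h 3
  have h4 := congrFun h 4
  simp [inc] at h0 h1 h2 h3 h4
  ext i
  fin_cases i
  · exact h0
  · exact h1
  · exact h2
  · exact h3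
  · exact h4

theorem forw (hSMP : Stmt_SMP) (hWZ : Stmt_WZ) (hK : Good K) (a b c : Kˣ)
    (h : pf3 a b c = 0) :
    ∃ s t u v : K, (c : K) = s ^ 2 + a * t ^ 2 + b * u ^ 2 + a * b * v ^ 2 := by
  rw [class8] at h
  have hs := (hWZ K hK (Fin 8) _).1 h
  have hr : Module.finrank K (LinearMap.range (inc : (Fin 5 → K) →ₗ[K] (Fin 8 → K))) = 5 := by
    rw [LinearMap.finrank_range_of_inj inc_inj, Module.finrank_fin_fun]
  obtain ⟨w, ⟨z, rfl⟩, hw, hB⟩ := hSMP K (Fin 8 → K) _ hs
    (LinearMap.range (inc : (Fin 5 → K) →ₗ[K] (Fin 8 → K))) (by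
      rw [hr, Module.finrank_fin_fun]; norm_num)
  have hz : z ≠ 0 := by
    rintro rfl
    exact hw (map_zero _)
  rw [ud_apply, Fin.sum_univ_eight] at hB
  simp [inc] at hB
  obtain ⟨i, hi⟩ := hK.neg
  have h2 : (2 : K) ≠ 0 := hK.two
  by_cases h4 : z 4 = 0
  · rw [h4] at hB
    have hB' : z 0 ^ 2 + a * z 1 ^ 2 + b * z 2 ^ 2 + a * b * z 3 ^ 2 = 0 := by
      linear_combination hB
    by_cases h0 : z 0 = 0
    · by_cases h1 : z 1 = 0
      · by_cases h22 : z 2 = 0
        · by_cases h3 : z 3 = 0
          · exfalso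
            apply hz
            ext j
            fin_cases j
            · exact h0
            · exact h1
            · exact h22
            · exact h3
            · exact h4
          · have ha := a.ne_zero
            have hb := b.ne_zero
            set l : K := c - a * b * (1 / (2 * a * b * z 3)) ^ 2 with hl
            refine ⟨l * z 0, l * z 1, l * z 2, l * z 3 + 1 / (2 * a * b * z 3), ?_⟩
            have e : (c : K) = l + a * b * (1 / (2 * a * b * z 3)) ^ 2 := by rw [hl]; ring
            rw [e]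
            have e2 : 2 * (a * b) * z 3 * (1 / (2 * a * b * z 3)) = 1 := by
              field_simp
            linear_combination (-l ^ 2) * hB' - l * e2
        · have hb := b.ne_zero
          set l : K := c - b * (1 / (2 * b * z 2)) ^ 2 with hl
          refine ⟨l * z 0, l * z 1, l * z 2 + 1 / (2 * b * z 2), l * z 3, ?_⟩
          have e : (c : K) = l + b * (1 / (2 * b * z 2)) ^ 2 := by rw [hl]; ring
          rw [e]
          have e2 : 2 * b * z 2 * (1 / (2 * b * z 2)) = 1 := by
            field_simp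
          linear_combination (-l ^ 2) * hB' - l * e2
      · have ha := a.ne_zero
        set l : K := c - a * (1 / (2 * a * z 1)) ^ 2 with hl
        refine ⟨l * z 0, l * z 1 + 1 / (2 * a * z 1), l * z 2, l * z 3, ?_⟩
        have e : (c : K) = l + a * (1 / (2 * a * z 1)) ^ 2 := by rw [hl]; ring
        rw [e]
        have e2 : 2 * a * z 1 * (1 / (2 * a * z 1)) = 1 := by
          field_simp
        linear_combination (-l ^ 2) * hB' - l * e2
    · set l : K := c - (1 / (2 * z 0)) ^ 2 with hl
      refine ⟨l * z 0 + 1 / (2 * z 0), l * z 1, l * z 2, l * z 3, ?_⟩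
      have e : (c : K) = l + (1 / (2 * z 0)) ^ 2 := by rw [hl]; ring
      rw [e]
      have e2 : 2 * z 0 * (1 / (2 * z 0)) = 1 := by
        field_simp
      linear_combination (-l ^ 2) * hB' - l * e2
  · refine ⟨i * z 0 / z 4, i * z 1 / z 4, i * z 2 / z 4, i * z 3 / z 4, ?_⟩
    have e : (c : K) * z 4 ^ 2 = i ^ 2 * (z 0 ^ 2 + a * z 1 ^ 2 + b * z 2 ^ 2 + a * b * z 3 ^ 2) := by
      rw [hi]
      linear_combination hB
    have h4' : z 4 ^ 2 ≠ 0 := pow_ne_zero 2 h4
    have e3 : (c : K) = i ^ 2 * (z 0 ^ 2 + a * z 1 ^ 2 + b * z 2 ^ 2 + a * b * z 3 ^ 2) / z 4 ^ 2 := by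
      rw [eq_div_iff h4']
      exact e
    rw [e3]
    field_simp

end PF3_

theorem pf3_proof (hSMP : Stmt_SMP) (_hDIA : Stmt_DIA) (hWZ : Stmt_WZ) (hREL : Stmt_REL)
    (hPFZ : Stmt_PFZ) : Stmt_PF3 := by
  intro K _ hK a b c
  exact ⟨PF3_.forw hSMP hWZ hK a b c, PF3_.back hREL hPFZ hK a b c⟩

end Pool.Agent.EWG
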