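import Pool.Agent.EWG.Stmts

/-!
# Squad EWG: module PFZ (hyperbolic 2-fold Pfister forms)
-/

set_option autoImplicit false

namespace Pool.Agent.EWG

open scoped BigOperators

namespace PFZ_

variable {K : Type} [Field K]

theorem pf_eq (a b : Kˣ) : pf a b = 1 + br a + br b + br (a * b) := by
  unfold pf pf1
  rw [br_mul]
  ring

theorem four (a b : Kˣ) : ∑ i : Fin 4, br ((![1, a, b, a * b] : Fin 4 → Kˣ) i) = pf a b := by
  rw [Fin.sum_univ_four, pf_eq]
  show br 1 + br a + br b + br (a * b) = _
  rw [br_one]

theorem finrank_ker :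
    Module.finrank K (LinearMap.ker (LinearMap.proj 3 : (Fin 4 → K) →ₗ[K] K)) = 3 := by
  have h := LinearMap.finrank_range_add_finrank_ker (LinearMap.proj 3 : (Fin 4 → K) →ₗ[K] K)
  have hs : Function.Surjective (LinearMap.proj 3 : (Fin 4 → K) →ₗ[K] K) := fun y =>
    ⟨fun _ => y, rfl⟩
  rw [LinearMap.range_eq_top.2 hs, finrank_top, Module.finrank_self, Module.finrank_pi,
    Fintype.card_fin] at h
  omega

theorem sq_two (hREL4 : ∀ a b : Kˣ, br (a * b ^ 2) = br a) (a : Kˣ) : pf a a = 0 := by
  rw [pf_eq]
  have h : br (a * a) = (1 : W K) := by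
    have := hREL4 1 a
    rw [one_mul, pow_two, br_one] at this
    exact this
  rw [h]
  calc 1 + br a + br a + 1 = (1 + 1) + (br a + br a) := by ring
    _ = 0 := by rw [add_self', add_self', add_zero]

end PFZ_

open PFZ_ in
theorem pfz_proof (hSMP : Stmt_SMP) (hWZ : Stmt_WZ) (hREL : Stmt_REL) : Stmt_PFZ := by
  intro K _ hK a b
  obtain ⟨-, -, h3, h4⟩ := hREL K hK
  obtain ⟨i, hi⟩ := hK.neg
  have ha : (a : K) ≠ 0 := a.ne_zero
  have hb : (b : K) ≠ 0 := b.ne_zero
  constructor
  · intro h
    rw [← four, hWZ K hK] at h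
    obtain ⟨v, hv, hv0, hvv⟩ := hSMP K (Fin 4 → K) _ h
      (LinearMap.ker (LinearMap.proj 3 : (Fin 4 → K) →ₗ[K] K)) (by
        rw [finrank_ker, Module.finrank_pi, Fintype.card_fin]
        norm_num)
    have hv3 : v 3 = 0 := hv
    rw [ud_apply, Fin.sum_univ_four] at hvv
    have hvv' : v 0 ^ 2 + a * v 1 ^ 2 + b * v 2 ^ 2 = 0 := by
      simp only [Matrix.cons_val_zero, Matrix.cons_val_one, Matrix.cons_val, Units.val_one,
        hv3] at hvv
      linear_combination hvv
    by_cases hu : v 2 = 0
    · rw [hu] at hvv'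
      have ht : v 1 ≠ 0 := by
        intro ht
        rw [ht] at hvv'
        have h0 : v 0 = 0 := by
          have : v 0 ^ 2 = 0 := by linear_combination hvv'
          exact pow_eq_zero_iff (two_ne_zero) |>.1 this
        apply hv0
        funext j
        fin_cases j
        · exact h0
        · exact ht
        · exact hu
        · exact hv3
      have hc : (a : K) = (i * v 0 / v 1) ^ 2 := by
        field_simp
        linear_combination hvv' - v 0 ^ 2 * hi
      have hc0 : i * v 0 / v 1 ≠ 0 := by
        intro h0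
        rw [h0] at hc
        exact ha (by rw [hc]; ring)
      refine ⟨(b + 1) / 2, i * (b - 1) / (2 * (i * v 0 / v 1)), ?_⟩
      generalize hcc : i * v 0 / v 1 = c at hc hc0 ⊢
      have h2 := hK.two
      rw [hc]
      field_simp
      linear_combination (-((b : K) - 1) ^ 2) * hi
    · refine ⟨i * v 0 / v 2, i * v 1 / v 2, ?_⟩
      field_simp
      linear_combination hvv' - (v 0 ^ 2 + a * v 1 ^ 2) * hi
  · rintro ⟨s, t, hst⟩
    by_cases ht : t = 0
    · have hs : s ≠ 0 := by
        rintro rfl
        apply hb
        rw [hst, ht]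
        ring
      have h1 : b = 1 * (Units.mk0 s hs) ^ 2 := by
        apply Units.ext
        push_cast
        rw [Units.val_mk0, hst, ht]
        ring
      have h2 : br b = (1 : W K) := by
        rw [h1, h4, br_one]
      unfold pf pf1
      rw [h2, add_self', mul_zero]
    by_cases hs : s = 0
    · have h1 : b = a * (Units.mk0 t ht) ^ 2 := by
        apply Units.ext
        push_cast
        rw [Units.val_mk0, hst, hs]
        ring
      have h2 : br b = br a := by
        rw [h1, h4]
      have h5 := sq_two h4 a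
      unfold pf pf1 at h5 ⊢
      rw [h2]
      exact h5
    · have h5 := h3 (1 * (Units.mk0 s hs) ^ 2) (a * (Units.mk0 t ht) ^ 2) b (by
        push_cast
        rw [Units.val_mk0, Units.val_mk0, hst]
        ring)
      have h6 : 1 * (Units.mk0 s hs) ^ 2 * (a * (Units.mk0 t ht) ^ 2) * b =
          (a * b) * (Units.mk0 s hs * Units.mk0 t ht) ^ 2 := by
        apply Units.ext
        push_cast
        ring
      rw [h4, h6, h4, h4, br_one] at h5
      rw [pf_eq, h5]
      calc br b + br (a * b) + br b + br (a * b)
          = (br b + br b) + (br (a * b) + br (a * b)) := by ring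
        _ = 0 := by rw [add_self', add_self', add_zero]

end Pool.Agent.EWG
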