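import Pool.Agent.EWG.Stmts

/-!
Squad EWG, module QBL: the bilinear map `V × V → B` of a field.
-/

set_option autoImplicit false

namespace Pool.Agent.EWG

namespace QBL_

variable {K : Type} [Field K]

lemma pf_self (a : Kˣ) (h : br (a * a) = 1) : pf a a = 0 := by
  have h1 : pf a a = 1 + br (a * a) + (br a + br a) := by
    rw [br_mul]; unfold pf pf1; ring
  rw [h1, h, add_self', add_self', add_zero]

lemma pf_one (a : Kˣ) : pf a 1 = 0 := by
  unfold pf pf1
  rw [br_one, add_self', mul_zero]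

lemma pf_congr {a a' b b' : Kˣ} (h1 : br a = br a') (h2 : br b = br b') : pf a b = pf a' b' := by
  unfold pf pf1
  rw [h1, h2]

end QBL_

open QBL_

theorem qbl_proof (hREL : Stmt_REL) (hLNK : Stmt_LNK) (hBIL : Stmt_BIL) : Stmt_QBL := by
  classical
  intro K _ hK hI
  obtain ⟨rel1, -, -, -⟩ := hREL K hK
  obtain ⟨bil1, -, -, bil4, bil5⟩ := hBIL K hK hI
  have hrep : ∀ a b : Kˣ, vm a = vm b → br a = br b := fun a b h =>
    (rel1 a b).2 ((vm_eq_iff a b).1 h)
  have hmem : ∀ a b : Kˣ, pf a b ∈ BB K := fun a b => bil4 a b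
  have bil1' : ∀ a b c : Kˣ, pf (a * b) c = pf a c + pf b c := fun a b c => by
    rw [pf_comm, bil1, pf_comm c a, pf_comm c b]
  choose r hr using fun v : VV K => vm_surj v
  have hq : ∀ a b : Kˣ, pf (r (vm a)) (r (vm b)) = pf a b := fun a b =>
    pf_congr (hrep _ _ (hr _)) (hrep _ _ (hr _))
  have hradd : ∀ v w : VV K, br (r (v + w)) = br (r v * r w) := fun v w =>
    hrep _ _ (by rw [hr, vm_mul, hr, hr])
  let q1 : VV K → VV K →+ BB K := fun v => AddMonoidHom.mk' (fun w => ⟨pf (r v) (r w), hmem _ _⟩)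
    (fun w w' => Subtype.ext (by
      show pf (r v) (r (w + w')) = pf (r v) (r w) + pf (r v) (r w')
      rw [← bil1]
      exact pf_congr rfl (hradd w w')))
  let q2 : VV K → VV K →ₗ[ZMod 2] BB K := fun v => (q1 v).toZModLinearMap 2
  let q3 : VV K →+ (VV K →ₗ[ZMod 2] BB K) := AddMonoidHom.mk' q2 (fun v v' => by
    refine LinearMap.ext fun w => Subtype.ext ?_
    show pf (r (v + v')) (r w) = pf (r v) (r w) + pf (r v') (r w)
    rw [← bil1']
    exact pf_congr (hradd v v') rfl)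
  let q : VV K →ₗ[ZMod 2] VV K →ₗ[ZMod 2] BB K := q3.toZModLinearMap 2
  have hqq : ∀ a b : Kˣ, (q (vm a) (vm b) : W K) = pf a b := fun a b => hq a b
  refine ⟨q, hqq, ⟨?_, ?_, ?_⟩, ?_⟩
  · intro v w
    obtain ⟨a, rfl⟩ := vm_surj v
    obtain ⟨b, rfl⟩ := vm_surj w
    apply Subtype.ext
    rw [hqq, hqq, pf_comm]
  · intro v
    obtain ⟨a, rfl⟩ := vm_surj v
    apply Subtype.ext
    rw [← vm_one, hqq, hqq, pf_one]
    refine pf_self a ?_
    rw [← br_one]
    refine (rel1 _ _).2 ⟨a, by rw [mul_one]⟩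
  · intro v w v' w' h
    obtain ⟨a, rfl⟩ := vm_surj v
    obtain ⟨b, rfl⟩ := vm_surj w
    obtain ⟨c, rfl⟩ := vm_surj v'
    obtain ⟨d, rfl⟩ := vm_surj w'
    have h1 : pf a b = pf c d := by
      rw [← hqq, ← hqq, h]
    obtain ⟨x, hx1, hx2⟩ := hLNK K hK a b c d h1
    refine ⟨vm x, Subtype.ext ?_, Subtype.ext ?_⟩
    · rw [hqq, hqq, hx1]
    · rw [hqq, hqq, hx2]
  · intro b
    obtain ⟨n, x, y, hxy⟩ := bil5 b.1 b.2
    refine ⟨n, fun i => vm (x i), fun i => vm (y i), Subtype.ext ?_⟩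
    rw [hxy, AddSubmonoidClass.coe_finsetSum]
    exact Finset.sum_congr rfl fun i _ => (hqq _ _).symm

end Pool.Agent.EWG
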