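import Pool.Agent.EWG.Stmts

/-!
Module QEX of the squad EWG: assembly of the quadratic extension data `DSC.QExt` from the field
theoretic modules.
-/

set_option autoImplicit false

namespace Pool.Agent.EWG

namespace QEX_

/-- the linear map on square classes of a homomorphism of unit groups -/
noncomputable def lin {A B : Type} [Field A] [Field B] (g : Aˣ →* Bˣ) : VV A →ₗ[ZMod 2] VV B :=
  AddMonoidHom.toZModLinearMap 2
    (MonoidHom.toAdditive (QuotientGroup.map (powMonoidHom 2 : Aˣ →* Aˣ).range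
      (powMonoidHom 2 : Bˣ →* Bˣ).range g (by
        rintro _ ⟨z, rfl⟩
        exact ⟨g z, by simp⟩)) : VV A →+ VV B)

theorem lin_vm {A B : Type} [Field A] [Field B] (g : Aˣ →* Bˣ) (a : Aˣ) :
    lin g (vm a) = vm (g a) := rfl

/-- a linear map between the spaces `BB` -/
noncomputable def linB {A B : Type} [Field A] [Field B] (g : W A →+ W B)
    (h : ∀ b ∈ (I A) ^ 2, g b ∈ (I B) ^ 2) : BB A →ₗ[ZMod 2] BB B :=
  AddMonoidHom.toZModLinearMap 2
    { toFun := fun b => ⟨g b.1, h b.1 b.2⟩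
      map_zero' := Subtype.ext (map_zero g)
      map_add' := fun a b => Subtype.ext (map_add g a.1 b.1) }

theorem linB_coe {A B : Type} [Field A] [Field B] (g : W A →+ W B)
    (h : ∀ b ∈ (I A) ^ 2, g b ∈ (I B) ^ 2) (b : BB A) : (linB g h b : W B) = g b.1 := rfl

theorem map_pf {A B : Type} [Field A] [Field B] (f : A →+* B) (g : W A →+* W B) (hg : IsMap f g)
    (a b : Aˣ) : g (pf a b) = pf (Units.map f.toMonoidHom a) (Units.map f.toMonoidHom b) := by
  unfold pf pf1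
  rw [map_mul, map_add, map_add, map_one, hg a, hg b]

theorem σσ {F K : Type} [Field F] [Field K] [Algebra F K] (E : QD F K) (w : K) :
    E.σ (E.σ w) = w := by
  have h1 : ∀ w : K, E.σ w = algebraMap F K (E.t w) + algebraMap F K (E.s w) * (-(E.θ : K)) := by
    intro w
    conv_lhs => rw [E.dec w]
    rw [map_add, map_mul, E.σθ, AlgEquiv.commutes, AlgEquiv.commutes]
  conv_lhs => rw [h1 w]
  rw [map_add, map_mul, map_neg, E.σθ, AlgEquiv.commutes, AlgEquiv.commutes, neg_neg]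
  exact (E.dec w).symm

end QEX_

open QEX_ in
theorem qex_proof (_hREL : Stmt_REL) (_hLNK : Stmt_LNK) (hBIL : Stmt_BIL) (hMAP : Stmt_MAP)
    (_hSTR : Stmt_STR) (_hPRJ : Stmt_PRJ) (hRTQ : Stmt_RTQ) (hTPF : Stmt_TPF) (hI3K : Stmt_I3K)
    (hRTD : Stmt_RTD) (hNPR : Stmt_NPR) (hKR2 : Stmt_KR2) (hKT2 : Stmt_KT2) (hTI2 : Stmt_TI2)
    (hVKR : Stmt_VKR) (hQBL : Stmt_QBL) : Stmt_QEX := by
  intro F K _ _ _ gF i3 E
  have gK : Good K := Good.map (algebraMap F K) gF
  have i3K : I3 K := hI3K F K gF i3 E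
  obtain ⟨q, hq, hlink, -⟩ := hQBL F gF i3
  obtain ⟨q', hq', hlink', -⟩ := hQBL K gK i3K
  obtain ⟨gr, hgr, hrs⟩ := hMAP F K (algebraMap F K)
  obtain ⟨gs, hgs, hcj⟩ := hMAP K K (E.σ : K →+* K)
  have hrs' : ∀ c, gr c = rs F K c := fun c => (hrs c).symm
  have hcj' : ∀ c, gs c = E.cj c := fun c => (hcj c).symm
  obtain ⟨hT1, hT2, hT3, hT4⟩ := hTI2 F K gF i3 E
  obtain ⟨hR1, hR2, hR3, hR4⟩ := hRTQ F K gF E
  obtain ⟨-, hV2, hV3⟩ := hVKR F K gF E
  obtain ⟨hB1, hB2, hB3, hB4, hB5⟩ := hBIL K gK i3K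
  let res : VV F →ₗ[ZMod 2] VV K := lin (Units.map (algebraMap F K).toMonoidHom)
  let N : VV K →ₗ[ZMod 2] VV F := lin E.nm
  let sg : VV K →ₗ[ZMod 2] VV K := lin (Units.map (E.σ : K →+* K).toMonoidHom)
  let resB : BB F →ₗ[ZMod 2] BB K := linB (gr : W F →+ W K) (fun b hb => by
    have := hT2 b hb
    rw [← hrs'] at this
    exact this)
  let cor : BB K →ₗ[ZMod 2] BB F := linB E.tr hT1
  let s : BB K →ₗ[ZMod 2] BB K := linB (gs : W K →+ W K) (fun b hb => by
    have := hT3 b hb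
    rw [← hcj'] at this
    exact this)
  have eres : ∀ a : Fˣ, res (vm a) = vm (iu F a) := fun a => rfl
  have eN : ∀ w : Kˣ, N (vm w) = vm (E.nm w) := fun w => rfl
  have esg : ∀ w : Kˣ, sg (vm w) = vm (Units.map (E.σ : K →+* K).toMonoidHom w) := fun w => rfl
  have eresB : ∀ b : BB F, (resB b : W K) = rs F K b.1 := fun b => hrs' b.1
  have ecor : ∀ b : BB K, (cor b : W F) = E.tr b.1 := fun b => rfl
  have es : ∀ b : BB K, (s b : W K) = E.cj b.1 := fun b => hcj' b.1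
  have hqs : ∀ v w, q v w = q w v := by
    intro v w
    obtain ⟨a, rfl⟩ := vm_surj v
    obtain ⟨b, rfl⟩ := vm_surj w
    apply Subtype.ext
    rw [hq, hq, pf_comm]
  have hrpf : ∀ a b : Fˣ, rs F K (pf a b) = pf (iu F a) (iu F b) := by
    intro a b
    rw [← hrs', map_pf (algebraMap F K) gr hgr a b]
    rfl
  have hproj : ∀ v w, cor (q' (res v) w) = q v (N w) := by
    intro v w
    obtain ⟨a, rfl⟩ := vm_surj v
    obtain ⟨b, rfl⟩ := vm_surj w
    apply Subtype.ext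
    rw [ecor, eres, hq', hTPF F K gF i3 E a b, eN, hq]
  refine ⟨{ q := q, q' := q', res := res, resB := resB, N := N, cor := cor, σ := sg, s := s,
            x := vm E.x, link := hlink, link' := hlink', resq := ?_, σσ := ?_, ss := ?_,
            eqv := ?_, proj := hproj, resN := ?_, resx := ?_, rangeN := ?_, rescor := ?_,
            corres := ?_, cor_surj := ?_, kercor := ?_, kerresB := ?_, np := ?_, rt := ?_ },
          hq, hq', rfl⟩
  · intro v w
    obtain ⟨a, rfl⟩ := vm_surj v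
    obtain ⟨b, rfl⟩ := vm_surj w
    apply Subtype.ext
    rw [eresB, hq, eres, eres, hq', hrpf]
  · intro v
    obtain ⟨a, rfl⟩ := vm_surj v
    rw [esg, esg]
    congr 1
    apply Units.ext
    exact QEX_.σσ E a
  · intro b
    apply Subtype.ext
    rw [es, es, hR4]
  · intro v w
    obtain ⟨a, rfl⟩ := vm_surj v
    obtain ⟨b, rfl⟩ := vm_surj w
    apply Subtype.ext
    rw [es, hq', esg, esg, hq', ← hcj', map_pf (E.σ : K →+* K) gs hgs a b]
  · intro w
    obtain ⟨a, rfl⟩ := vm_surj w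
    rw [eN, eres, esg, ← vm_mul]
    congr 1
    apply Units.ext
    rw [iu_coe, E.nmσ]
    rfl
  · rw [eres, vm_eq_zero]
    refine ⟨E.θ, Units.ext ?_⟩
    rw [iu_coe, ← E.sq, Units.val_mul, pow_two]
  · intro v
    obtain ⟨b, rfl⟩ := vm_surj v
    constructor
    · intro h
      have h2 : pf E.x b = 0 := by
        rw [← hq, h]; rfl
      obtain ⟨w, hw⟩ := (hV3 b).1 h2
      exact ⟨vm w, by rw [eN, hw]⟩
    · rintro ⟨w, hw⟩
      obtain ⟨w, rfl⟩ := vm_surj w
      rw [← hw, eN]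
      apply Subtype.ext
      rw [hq, (hV3 (E.nm w)).2 ⟨w, rfl⟩]
      rfl
  · intro b
    apply Subtype.ext
    have h2θ : (2 * (E.θ : K)) ≠ 0 := mul_ne_zero gK.two E.θ.ne_zero
    have h := hR1 (Units.mk0 _ h2θ) b.1 rfl
    rw [eresB, ecor, h, hB3]
    · rw [Submodule.coe_add, es]
    · exact Ideal.add_mem _ b.2 (hT3 b.1 b.2)
  · intro b
    apply Subtype.ext
    rw [ecor, eresB, hR2]
    rfl
  · intro b
    obtain ⟨c, hc, h⟩ := hT4 b.1 b.2
    exact ⟨⟨c, hc⟩, Subtype.ext h⟩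
  · intro b hb
    have h0 : E.tr b.1 = 0 := by rw [← ecor, hb]; rfl
    obtain ⟨d, hd, h⟩ := hKT2 F K gF i3 E b.1 b.2 h0
    exact ⟨⟨d, hd⟩, Subtype.ext (by rw [eresB]; exact h.symm)⟩
  · intro b
    have h := hKR2 F K gF i3 E b.1 b.2
    constructor
    · intro hb
      have h0 : rs F K b.1 = 0 := by rw [← eresB, hb]; rfl
      obtain ⟨v, hv⟩ := h.1 h0
      exact ⟨vm v, Subtype.ext (by rw [hq, hv])⟩
    · rintro ⟨v, hv⟩
      obtain ⟨v, rfl⟩ := vm_surj v
      apply Subtype.ext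
      rw [eresB, h.2 ⟨v, by rw [← hv, hq]⟩]
      rfl
  · intro y w h
    obtain ⟨y, rfl⟩ := vm_surj y
    obtain ⟨w, rfl⟩ := vm_surj w
    rw [eN] at h
    have h0 : pf y (E.nm w) = 0 := by rw [← hq, h]; rfl
    obtain ⟨f, hf⟩ := hNPR F K gF E y w h0
    refine ⟨vm f, Subtype.ext ?_⟩
    rw [eres, eres, hq', hq', hf]
  · intro w y
    obtain ⟨w, rfl⟩ := vm_surj w
    obtain ⟨y, rfl⟩ := vm_surj y
    obtain ⟨b, c, h⟩ := hRTD F K gF i3K E w y
    refine ⟨vm c, vm b, ?_⟩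
    have e1 : q' (vm w) (vm y) = resB (q (vm b) (vm c)) + q' (res (vm b)) (vm y) +
        q' (res (vm c)) (vm w) := by
      apply Subtype.ext
      rw [Submodule.coe_add, Submodule.coe_add, hq', eresB, hq, hrpf, eres, hq', eres, hq', h]
    have e2 : cor (resB (q (vm b) (vm c))) = 0 := by
      apply Subtype.ext
      rw [ecor, eresB, hR2]
      rfl
    rw [e1, map_add, map_add, e2, zero_add, hproj, hproj, hqs (vm b), hqs (vm c), add_comm]

end Pool.Agent.EWG
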