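import Pool.Agent.EWG.Stmts

/-!
# Squad EWG: module REL (basic relations in the Witt ring)
-/

set_option autoImplicit false

namespace Pool.Agent.EWG

open scoped BigOperators

namespace REL_

variable {K : Type} [Field K]

/-- the form `a x y` on `K` -/
def bf (a : K) : LinearMap.BilinForm K K :=
  LinearMap.mk₂ K (fun x y => a * x * y)
    (fun x x' y => by ring) (fun r x y => by simp only [smul_eq_mul]; ring)
    (fun x y y' => by ring) (fun r x y => by simp only [smul_eq_mul]; ring)

theorem bf_apply (a x y : K) : bf a x y = a * x * y := rfl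

theorem sqr (hCLQ : Stmt_CLQ) (hK : Good K) (a b : Kˣ) : br (a * b ^ 2) = br a := by
  have h := hCLQ K K hK (Fin 1) (Fin 1) (bf (a : K))
    ((Module.Basis.singleton (Fin 1) K).unitsSMul (fun _ => b)) (fun _ => a * b ^ 2)
    (Module.Basis.singleton (Fin 1) K) (fun _ => a)
    ⟨fun i j hij => absurd (Subsingleton.elim i j) hij, fun i => by
      rw [Module.Basis.unitsSMul_apply, bf_apply, Module.Basis.singleton_apply, Units.smul_def,
        smul_eq_mul]
      push_cast
      ring⟩
    ⟨fun i j hij => absurd (Subsingleton.elim i j) hij, fun i => by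
      rw [bf_apply, Module.Basis.singleton_apply]
      ring⟩
  rw [Fin.sum_univ_one, Fin.sum_univ_one] at h
  exact h

theorem isSq_iff (a : Kˣ) : IsSquare a ↔ ∃ b : Kˣ, a = b ^ 2 := by
  constructor
  · rintro ⟨b, rfl⟩
    exact ⟨b, by rw [pow_two]⟩
  · rintro ⟨b, rfl⟩
    exact ⟨b, by rw [pow_two]⟩

theorem eq_iff (hSDD : Stmt_SDD) (hWZ : Stmt_WZ) (hCLQ : Stmt_CLQ) (hK : Good K) (a b : Kˣ) :
    br a = br b ↔ IsSquare (a * b) := by
  constructor
  · intro h
    have h1 : ∑ i : Fin 2, br ((![a, b] : Fin 2 → Kˣ) i) = 0 := by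
      rw [Fin.sum_univ_two]
      show br a + br b = 0
      rw [h, add_self']
    have h2 := (hSDD K hK 2 ![a, b] ((hWZ K hK (Fin 2) ![a, b]).1 h1)).2
    rw [Fin.prod_univ_two] at h2
    exact h2
  · intro h
    obtain ⟨c, hc⟩ := (isSq_iff _).1 h
    have h1 : b = a * (c * a⁻¹) ^ 2 := by
      have h2 : a * (c * a⁻¹) ^ 2 = a⁻¹ * c ^ 2 := by
        rw [mul_pow, pow_two a⁻¹]
        calc a * (c ^ 2 * (a⁻¹ * a⁻¹)) = (a * a⁻¹) * (a⁻¹ * c ^ 2) := by
              rw [mul_comm (c ^ 2) (a⁻¹ * a⁻¹)]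
              simp only [mul_assoc]
          _ = a⁻¹ * c ^ 2 := by rw [mul_inv_cancel, one_mul]
      rw [h2, ← hc, inv_mul_cancel_left]
    rw [h1, sqr hCLQ hK]

theorem li (a b c : Kˣ) (hc : (c : K) = a + b) :
    LinearIndependent K ![(![1, 1] : Fin 2 → K), (![(b : K), -(a : K)] : Fin 2 → K)] := by
  rw [LinearIndependent.pair_iff]
  intro s t h
  have h0 := congrFun h 0
  have h1 := congrFun h 1
  simp only [Pi.add_apply, Pi.smul_apply, Matrix.cons_val_zero, Matrix.cons_val_one,
    smul_eq_mul, Pi.zero_apply, mul_one] at h0 h1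
  have h2 : t * (c : K) = 0 := by
    rw [hc]
    linear_combination h0 - h1
  have ht : t = 0 := by
    rcases mul_eq_zero.1 h2 with h | h
    · exact h
    · exact absurd h c.ne_zero
  subst ht
  refine ⟨?_, rfl⟩
  linear_combination h0

theorem three (hCLQ : Stmt_CLQ) (hK : Good K) (a b c : Kˣ) (hc : (c : K) = a + b) :
    br a + br b = br c + br (a * b * c) := by
  have hcard : Fintype.card (Fin 2) = Module.finrank K (Fin 2 → K) := by
    rw [Module.finrank_pi]
  have h := hCLQ K (Fin 2 → K) hK (Fin 2) (Fin 2) (ud ![a, b]) (Pi.basisFun K (Fin 2)) ![a, b]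
    (basisOfLinearIndependentOfCardEqFinrank (li a b c hc) hcard) ![c, a * b * c]
    ⟨fun i j hij => by
      rw [ud_apply, Fin.sum_univ_two, Pi.basisFun_apply, Pi.basisFun_apply]
      fin_cases i <;> fin_cases j <;> simp_all, fun i => by
      rw [ud_apply, Fin.sum_univ_two, Pi.basisFun_apply]
      fin_cases i <;> simp⟩
    ⟨fun i j hij => by
      rw [coe_basisOfLinearIndependentOfCardEqFinrank, ud_apply, Fin.sum_univ_two]
      fin_cases i <;> fin_cases j
      · exact absurd rfl hij
      · simp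
        ring
      · simp
        ring
      · exact absurd rfl hij, fun i => by
      rw [coe_basisOfLinearIndependentOfCardEqFinrank, ud_apply, Fin.sum_univ_two]
      fin_cases i
      · simp [hc]
      · simp [hc]
        ring⟩
  rw [Fin.sum_univ_two, Fin.sum_univ_two] at h
  exact h

end REL_

theorem rel_proof (hSDD : Stmt_SDD) (hWZ : Stmt_WZ) (hCLQ : Stmt_CLQ) : Stmt_REL := by
  intro K _ hK
  refine ⟨fun a b => REL_.eq_iff hSDD hWZ hCLQ hK a b, fun a => ?_,
    fun a b c hc => REL_.three hCLQ hK a b c hc, fun a b => REL_.sqr hCLQ hK a b⟩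
  rw [REL_.eq_iff hSDD hWZ hCLQ hK]
  obtain ⟨i, hi⟩ := hK.neg
  have hi0 : i ≠ 0 := by
    rintro rfl
    have : (0 : K) ^ 2 = 0 := by ring
    rw [this] at hi
    have h1 : (1 : K) = 0 := by linear_combination hi
    exact one_ne_zero h1
  refine ⟨Units.mk0 i hi0 * a, ?_⟩
  apply Units.ext
  push_cast
  rw [Units.val_mk0]
  linear_combination (-(a : K) ^ 2) * hi

end Pool.Agent.EWG
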