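import Pool.Agent.EWG.Stmts

/-! # RKR: kernel of the restriction -/

set_option autoImplicit false

namespace Pool.Agent.EWG

open scoped BigOperators

namespace RKR_

variable {F K : Type} [Field F] [Field K] [Algebra F K]

theorem zero_of (E : QD F K) {A C : F} (h : algebraMap F K A + algebraMap F K C * (E.θ : K) = 0) :
    A = 0 ∧ C = 0 := by
  have h1 := congrArg E.t h
  have h2 := congrArg E.s h
  rw [map_add, E.t1, E.tθ, map_zero, add_zero] at h1
  rw [map_add, E.s1, E.sθ, map_zero, zero_add] at h2
  exact ⟨h1, h2⟩

theorem dec_form (E : QD F K) {n : ℕ} (a : Fin n → Fˣ) (z : Fin n → K) :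
    ud (fun i => iu F (a i) : Fin n → Kˣ) z z =
      algebraMap F K (ud a (fun i => E.t (z i)) (fun i => E.t (z i)) +
        E.x * ud a (fun i => E.s (z i)) (fun i => E.s (z i))) +
      algebraMap F K (2 * ud a (fun i => E.t (z i)) (fun i => E.s (z i))) * (E.θ : K) := by
  rw [ud_apply, ud_apply, ud_apply, ud_apply]
  rw [map_add, map_mul, map_mul, map_sum, map_sum, map_sum, Finset.mul_sum, Finset.mul_sum, Finset.sum_mul,
    ← Finset.sum_add_distrib, ← Finset.sum_add_distrib]
  refine Finset.sum_congr rfl fun i _ => ?_
  have hz := E.dec (z i)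
  have hsq := E.sq
  simp only [iu_coe, map_mul, map_ofNat]
  generalize algebraMap F K (E.t (z i)) = p at hz
  generalize algebraMap F K (E.s (z i)) = q at hz
  rw [hz, ← hsq]
  ring

end RKR_

open RKR_ in
theorem rkr_proof (hSMP : Stmt_SMP) (hWZ : Stmt_WZ) (hSUR : Stmt_SUR) (hSP2 : Stmt_SP2) (hSP0 : Stmt_SP0)
    (hREL : Stmt_REL) (hMAP : Stmt_MAP) : Stmt_RKR := by
  intro F K _ _ _ hF E c
  have hK : Good K := hF.map (algebraMap F K)
  obtain ⟨g, hg, hrs⟩ := hMAP F K (algebraMap F K)
  have hrs' : ∀ c, rs F K c = g c := hrs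
  have hgx : g (pf1 E.x) = 0 := by
    unfold pf1
    rw [map_add, map_one, hg E.x]
    have h1 : br (Units.map (algebraMap F K).toMonoidHom E.x) = br (1 : Kˣ) := by
      rw [(hREL K hK).1]
      refine ⟨E.θ, ?_⟩
      ext
      rw [mul_one, Units.coe_map, Units.val_mul, ← pow_two, E.sq]
      rfl
    rw [h1, br_one]
    exact add_self' 1
  rw [hrs']
  constructor
  · intro hc
    obtain ⟨n, a, rfl⟩ := hSUR F c
    induction n using Nat.strong_induction_on with
    | _ n ih =>
      have hsum : g (∑ i, br (a i)) = ∑ i, br (iu F (a i) : Kˣ) := by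
        rw [map_sum]
        exact Finset.sum_congr rfl fun i _ => hg (a i)
      have hsplit : Split K (ud (fun i => iu F (a i) : Fin n → Kˣ)) := by
        rw [← hWZ K hK (Fin n) (fun i => iu F (a i)), ← hsum]
        exact hc
      match n, a, ih, hc, hsplit with
      | 0, a, _, _, _ => exact ⟨0, by simp⟩
      | 1, a, _, _, hsplit =>
        exfalso
        obtain ⟨N, -, hN⟩ := hsplit
        rw [Module.finrank_fin_fun] at hN
        omega
      | m + 2, a, ih, hc, hsplit =>
        obtain ⟨z, -, hz0, hz⟩ := hSMP K (Fin (m + 2) → K) _ hsplit ⊤ (by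
          rw [finrank_top, Module.finrank_fin_fun]
          omega)
        rw [dec_form E] at hz
        obtain ⟨h1, h2⟩ := zero_of E hz
        set u : Fin (m + 2) → F := fun i => E.t (z i) with hu
        set v : Fin (m + 2) → F := fun i => E.s (z i) with hv
        have h3 : ud a u v = 0 := (mul_eq_zero.1 h2).resolve_left hF.two
        by_cases hd : ud a v v = 0
        · have huu : ud a u u = 0 := by
            rw [hd, mul_zero, add_zero] at h1
            exact h1
          have hne : u ≠ 0 ∨ v ≠ 0 := by
            by_contra hcon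
            push Not at hcon
            apply hz0
            funext i
            rw [E.dec (z i)]
            have hui : E.t (z i) = 0 := congrFun hcon.1 i
            have hvi : E.s (z i) = 0 := congrFun hcon.2 i
            rw [hui, hvi]
            simp
          have hex : ∃ a' : Fin m → Fˣ, ∑ i, br (a i) = ∑ i, br (a' i) := by
            rcases hne with h | h
            · exact hSP0 F hF m a u h huu
            · exact hSP0 F hF m a v h hd
          obtain ⟨a', ha'⟩ := hex
          rw [ha'] at hc ⊢
          exact ih m (by omega) a' hc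
        · have hu' : ud a u u = ((-(E.x * Units.mk0 _ hd) : Fˣ) : F) := by
            rw [Units.val_neg, Units.val_mul, Units.val_mk0]
            linear_combination h1
          obtain ⟨a', ha'⟩ := hSP2 F hF m a u v (-(E.x * Units.mk0 _ hd)) (Units.mk0 _ hd) hu'
            (Units.val_mk0 hd).symm h3
          have h4 : ∑ i, br (a i) = pf1 E.x * br (Units.mk0 _ hd) + ∑ i, br (a' i) := by
            rw [ha', (hREL F hF).2.1, br_mul]
            unfold pf1
            ring
          rw [h4] at hc ⊢
          rw [map_add, map_mul, hgx, zero_mul, zero_add] at hc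
          obtain ⟨d, hd'⟩ := ih m (by omega) a' hc
          exact ⟨br (Units.mk0 _ hd) + d, by rw [hd']; ring⟩
  · rintro ⟨d, rfl⟩
    rw [map_mul, hgx, zero_mul]

end Pool.Agent.EWG
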