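import Pool.Agent.EWG.Stmts

/-!
EWG, module RTD: the dependency of Rosset and Tate.
-/

set_option autoImplicit false

namespace Pool.Agent.EWG

open scoped BigOperators

theorem rtd_proof (hREL : Stmt_REL) (hPFZ : Stmt_PFZ) (hBIL : Stmt_BIL) : Stmt_RTD := by
  intro F K _ _ _ hF h3 E w y
  have hK : Good K := hF.map (algebraMap F K)
  have bil := (hBIL K hK h3).1
  have bil' : ∀ a b c : Kˣ, pf (a * b) c = pf a c + pf b c := fun a b c => by
    rw [pf_comm, bil, pf_comm c a, pf_comm c b]
  have pf_self : ∀ a : Kˣ, pf a a = 0 := fun a => by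
    obtain ⟨i, hi⟩ := hK.neg
    rw [hPFZ K hK]
    -- `a = ((1+a)/2)^2 + a (i (1 - a) /(2 ...))^2`: use the square root of `-1`
    refine ⟨?_, ?_, ?_⟩
    · exact 0
    · exact 1
    · ring
  have pf_one : ∀ a : Kˣ, pf a 1 = 0 := fun a => by
    rw [hPFZ K hK]
    exact ⟨1, 0, by simp⟩
  have pf_one' : ∀ a : Kˣ, pf 1 a = 0 := fun a => by rw [pf_comm, pf_one]
  have iu1 : (iu F (1 : Fˣ) : Kˣ) = 1 := by
    ext
    simp
  -- coordinates
  have hw := E.dec w
  have hy := E.dec y
  by_cases hsw : E.s w = 0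
  · -- `w ∈ F`
    have htw : E.t w ≠ 0 := by
      intro h
      rw [h, hsw] at hw
      exact w.ne_zero (by rw [hw]; simp)
    refine ⟨Units.mk0 _ htw, 1, ?_⟩
    have e : iu F (Units.mk0 _ htw) = w := by
      ext
      rw [iu_coe, Units.val_mk0]
      conv_rhs => rw [hw]
      rw [hsw]
      simp
    rw [e, iu1, pf_one, pf_one', zero_add, add_zero]
  by_cases hsy : E.s y = 0
  · have hty : E.t y ≠ 0 := by
      intro h
      rw [h, hsy] at hy
      exact y.ne_zero (by rw [hy]; simp)
    refine ⟨1, Units.mk0 _ hty, ?_⟩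
    have e : iu F (Units.mk0 _ hty) = y := by
      ext
      rw [iu_coe, Units.val_mk0]
      conv_rhs => rw [hy]
      rw [hsy]
      simp
    rw [e, iu1, pf_one', zero_add, zero_add, pf_comm w y]
  -- `r = s(y) w - s(w) y ∈ F`
  set r : F := E.s y * E.t w - E.s w * E.t y with hr
  have hrel : algebraMap F K (E.s y) * w - algebraMap F K (E.s w) * y = algebraMap F K r := by
    rw [hr, map_sub, map_mul, map_mul]
    linear_combination (algebraMap F K (E.s y)) * hw - (algebraMap F K (E.s w)) * hy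
  by_cases hr0 : r = 0
  · -- `w = e y`
    rw [hr0, map_zero] at hrel
    have he : E.s w / E.s y ≠ 0 := div_ne_zero hsw hsy
    refine ⟨Units.mk0 _ he, 1, ?_⟩
    have hsy' : algebraMap F K (E.s y) ≠ 0 := by rwa [Ne, map_eq_zero]
    have e : w = iu F (Units.mk0 _ he) * y := by
      ext
      rw [Units.val_mul, iu_coe, Units.val_mk0, map_div₀]
      field_simp
      linear_combination hrel
    rw [iu1, pf_one, pf_one', zero_add, add_zero]
    conv_lhs => rw [e]
    rw [bil', pf_self, add_zero]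
  · have hb : E.s y / r ≠ 0 := div_ne_zero hsy hr0
    have hc : -(E.s w) / r ≠ 0 := div_ne_zero (neg_ne_zero.2 hsw) hr0
    set b : Fˣ := Units.mk0 _ hb with hbd
    set c : Fˣ := Units.mk0 _ hc with hcd
    have hr' : algebraMap F K r ≠ 0 := by rwa [Ne, map_eq_zero]
    have hone : ((iu F b * w : Kˣ) : K) + ((iu F c * y : Kˣ) : K) = 1 := by
      rw [Units.val_mul, Units.val_mul, iu_coe, iu_coe, hbd, hcd, Units.val_mk0, Units.val_mk0,
        map_div₀, map_div₀, map_neg]
      field_simp
      linear_combination hrel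
    have h0 : pf (iu F b * w) (iu F c * y) = 0 := by
      obtain ⟨i, hi⟩ := hK.neg
      rw [hPFZ K hK]
      -- `c y = 1 - b w = 1 + (b w) i²`
      refine ⟨1, i, ?_⟩
      linear_combination hone - ((iu F b * w : Kˣ) : K) * hi
    refine ⟨b, c, ?_⟩
    rw [bil', bil, bil] at h0
    have h1 : pf w y = pf w y + (pf (iu F b) (iu F c) + pf (iu F b) y +
        (pf w (iu F c) + pf w y)) := by rw [h0, add_zero]
    have h2 : pf w y + pf w y = 0 := add_self' _
    rw [h1, pf_comm (iu F c) w]
    calc pf w y + (pf (iu F b) (iu F c) + pf (iu F b) y + (pf w (iu F c) + pf w y))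
        = (pf (iu F b) (iu F c) + pf (iu F b) y + pf w (iu F c)) + (pf w y + pf w y) := by ring
      _ = _ := by rw [h2, add_zero]

end Pool.Agent.EWG
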