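import Pool.Agent.EWG.Stmts

/-!
Module SDD: the discriminant of a split form (problem MP_d26ff6_al, field part).
-/

set_option autoImplicit false

namespace Pool.Agent.EWG

open scoped BigOperators

namespace SDD_

/-- the swap matrix -/
def sw (K : Type) [Field K] (m : ℕ) : Matrix (Fin m ⊕ Fin m) (Fin m ⊕ Fin m) K :=
  Matrix.fromBlocks (0 : Matrix (Fin m) (Fin m) K) (1 : Matrix (Fin m) (Fin m) K)
    (1 : Matrix (Fin m) (Fin m) K) (0 : Matrix (Fin m) (Fin m) K)

lemma swap_sq {K : Type} [Field K] {m : ℕ} : (sw K m).det * (sw K m).det = 1 := by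
  rw [← Matrix.det_mul]
  unfold sw
  rw [Matrix.fromBlocks_multiply]
  simp

lemma swap_val {K : Type} [Field K] {m : ℕ} (i : K) (hi : i ^ 2 = -1) :
    ∃ c : K, (sw K m).det = c * c := by
  rcases mul_self_eq_one_iff.1 (swap_sq (K := K) (m := m)) with h | h
  · exact ⟨1, by rw [h, one_mul]⟩
  · exact ⟨i, by rw [h, ← hi, pow_two]⟩

/-- the determinant of a symmetric matrix with a zero block -/
lemma block {K : Type} [Field K] {m : ℕ} (i : K) (hi : i ^ 2 = -1) (A C : Matrix (Fin m) (Fin m) K) :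
    ∃ c : K, (Matrix.fromBlocks 0 A A.transpose C).det = c * c := by
  obtain ⟨s, hs⟩ := swap_val (K := K) (m := m) i hi
  have h1 : (Matrix.fromBlocks 0 A A.transpose C).det * (sw K m).det = A.det * A.det := by
    rw [← Matrix.det_mul]
    unfold sw
    rw [Matrix.fromBlocks_multiply]
    simp only [Matrix.zero_mul, Matrix.mul_one, Matrix.mul_zero, zero_add, add_zero]
    rw [Matrix.det_fromBlocks_zero₁₂, Matrix.det_transpose]
  refine ⟨A.det * s, ?_⟩
  calc (Matrix.fromBlocks 0 A A.transpose C).det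
      = (Matrix.fromBlocks 0 A A.transpose C).det * ((sw K m).det * (sw K m).det) := by
        rw [swap_sq, mul_one]
    _ = (A.det * A.det) * (s * s) := by rw [← mul_assoc, h1, hs]
    _ = (A.det * s) * (A.det * s) := by ring

end SDD_

open SDD_ in
theorem sdd_proof : Stmt_SDD := by
  intro K _ hK n a hsp
  obtain ⟨i, hi⟩ := hK.neg
  obtain ⟨N, hN, hdim⟩ := hsp
  rw [Module.finrank_fintype_fun_eq_card, Fintype.card_fin] at hdim
  refine ⟨⟨Module.finrank K N, by omega⟩, ?_⟩
  obtain ⟨N', hc⟩ := Submodule.exists_isCompl N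
  have hd : Module.finrank K N + Module.finrank K N' = n := by
    have h := Submodule.finrank_add_eq_of_isCompl hc
    rwa [Module.finrank_fintype_fun_eq_card, Fintype.card_fin] at h
  obtain ⟨m, hm⟩ : ∃ m, Module.finrank K N = m := ⟨_, rfl⟩
  have hm' : Module.finrank K N' = m := by omega
  have hnm : n = m + m := by omega
  let b1 : Module.Basis (Fin m) K N := Module.finBasisOfFinrankEq K N hm
  let b2 : Module.Basis (Fin m) K N' := Module.finBasisOfFinrankEq K N' hm'
  let b : Module.Basis (Fin m ⊕ Fin m) K (Fin n → K) :=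
    (b1.prod b2).map (Submodule.prodEquivOfIsCompl N N' hc)
  have hb1 : ∀ j : Fin m, b (Sum.inl j) = (b1 j : Fin n → K) := by
    intro j
    simp [b]
  let e : Fin m ⊕ Fin m ≃ Fin n := Fintype.equivOfCardEq (by simp [hnm])
  let Q : Matrix (Fin n) (Fin n) K := (Pi.basisFun K (Fin n)).toMatrix (b.reindex e)
  have hQ : Q.det ≠ 0 := by
    intro h0
    have h1 := congrArg Matrix.det (Module.Basis.toMatrix_mul_toMatrix_flip (Pi.basisFun K (Fin n)) (b.reindex e))
    rw [Matrix.det_mul, Matrix.det_one] at h1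
    have h2 : ((Pi.basisFun K (Fin n)).toMatrix (b.reindex e)).det = 0 := h0
    rw [h2, zero_mul] at h1
    exact zero_ne_one h1
  let G : Matrix (Fin m ⊕ Fin m) (Fin m ⊕ Fin m) K := Matrix.of fun j k => ud a (b j) (b k)
  have hG : G = Matrix.fromBlocks 0 (G.toBlocks₁₂) (G.toBlocks₁₂).transpose G.toBlocks₂₂ := by
    conv_lhs => rw [← Matrix.fromBlocks_toBlocks G]
    have h11 : G.toBlocks₁₁ = 0 := by
      ext j k
      show ud a (b (Sum.inl j)) (b (Sum.inl k)) = 0
      rw [hb1, hb1]
      exact hN _ (b1 j).2 _ (b1 k).2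
    have h21 : G.toBlocks₂₁ = (G.toBlocks₁₂).transpose := by
      ext j k
      show ud a (b (Sum.inr j)) (b (Sum.inl k)) = ud a (b (Sum.inl k)) (b (Sum.inr j))
      rw [ud_apply, ud_apply]
      refine Finset.sum_congr rfl fun x _ => ?_
      ring
    rw [h11, h21]
  obtain ⟨c, hcc⟩ := block i hi G.toBlocks₁₂ G.toBlocks₂₂
  rw [← hG] at hcc
  have hGQ : G.submatrix e.symm e.symm = Q.transpose * (Matrix.diagonal fun x => (a x : K)) * Q := by
    ext j k
    show ud a (b (e.symm j)) (b (e.symm k)) = _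
    rw [ud_apply, Matrix.mul_apply]
    refine Finset.sum_congr rfl fun x _ => ?_
    rw [Matrix.mul_diagonal, Matrix.transpose_apply]
    show (a x : K) * b (e.symm j) x * b (e.symm k) x = Q x j * (a x : K) * Q x k
    have hq : ∀ j, Q x j = b (e.symm j) x := by
      intro j
      show (Pi.basisFun K (Fin n)).toMatrix (b.reindex e) x j = _
      rw [Module.Basis.toMatrix_apply, Module.Basis.reindex_apply]
      simp
    rw [hq, hq]
    ring
  have hdet : (∏ x, (a x : K)) * (Q.det * Q.det) = c * c := by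
    have h1 := congrArg Matrix.det hGQ
    rw [Matrix.det_submatrix_equiv_self, hcc, Matrix.det_mul, Matrix.det_mul, Matrix.det_transpose,
      Matrix.det_diagonal] at h1
    rw [h1]
    ring
  have hne : (∏ x, (a x : K)) ≠ 0 := Finset.prod_ne_zero_iff.2 fun x _ => (a x).ne_zero
  have hc0 : c ≠ 0 := by
    rintro rfl
    rw [mul_zero] at hdet
    exact (mul_ne_zero hne (mul_ne_zero hQ hQ)) hdet
  refine ⟨Units.mk0 c hc0 * (Units.mk0 Q.det hQ)⁻¹, ?_⟩
  apply Units.ext
  rw [Units.coe_prod, Units.val_mul, Units.val_mul, Units.val_mk0, Units.val_inv_eq_inv_val,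
    Units.val_mk0]
  field_simp
  rw [pow_two, pow_two]
  exact hdet

end Pool.Agent.EWG
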