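import Pool.Agent.EWG.Stmts

/-! A form whose transfer is zero represents an element of the ground field. -/

set_option autoImplicit false

namespace Pool.Agent.EWG

open scoped BigOperators

theorem sis_proof (hSPI : Stmt_SPI) (hSMP : Stmt_SMP) (hOBI : Stmt_OBI) (hWZ : Stmt_WZ)
    (hSCL : Stmt_SCL) (hSTR : Stmt_STR) : Stmt_SIS := by
  intro F K _ _ _ hg E n w hw
  have hT := hSTR F K hg E
  obtain ⟨v, a, hOB, hcl⟩ := hSCL F K hg E (n + 1) w
  have hfin : FiniteDimensional F (Fin (n + 1) → K) := Module.Finite.of_basis v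
  have hcls : ∀ i, br (a i 0) + br (a i 1) = E.tr (br (w i)) := by
    intro i
    by_cases hs : E.s (w i) = 0
    · rw [(hT (w i)).2 hs, (hcl i).2 hs]
    · have h1 : ((Units.mk0 _ hs : Fˣ) : F) = E.s (w i) := rfl
      rw [(hT (w i)).1 _ h1, (hcl i).1 _ h1]
  have hsum : ∑ i : Fin (n + 1) × Fin 2, br (a i.1 i.2) = 0 := by
    rw [Fintype.sum_prod_type, ← hw, map_sum]
    refine Finset.sum_congr rfl fun i _ => ?_
    rw [Fin.sum_univ_two]
    exact hcls i
  have hsp := (hWZ F hg (Fin (n + 1) × Fin 2) (fun i => a i.1 i.2)).1 hsum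
  obtain ⟨e, he⟩ := hOBI F (Fin (n + 1) → K) (Fin (n + 1) × Fin 2) (sB E (ud w)) v
    (fun i => a i.1 i.2) hOB
  have hsp2 : Split F (sB E (ud w)) := by
    refine hSPI F _ _ e.symm (ud fun i : Fin (n + 1) × Fin 2 => a i.1 i.2) (sB E (ud w)) ?_ hsp
    intro x y
    rw [← he, e.apply_symm_apply, e.apply_symm_apply]
  have hpos : 0 < Module.finrank F (Fin (n + 1) → K) := by
    rw [Module.finrank_eq_card_basis v]
    exact Fintype.card_pos
  obtain ⟨z, -, hz0, hz⟩ := hSMP F (Fin (n + 1) → K) (sB E (ud w)) hsp2 ⊤ (by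
    rw [finrank_top]; omega)
  refine ⟨z, E.t (ud w z z), hz0, ?_⟩
  rw [sB_apply] at hz
  have h := E.dec (ud w z z)
  rw [hz, map_zero, zero_mul, add_zero] at h
  rw [← h, ud_apply]

end Pool.Agent.EWG
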