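import Pool.Agent.EWG.Stmts

/-!
Module SLK of the squad EWG (MP_d26ff6_al): a slot of `⟨⟨a, b⟩⟩` orthogonal to `c`.
-/

set_option autoImplicit false

namespace Pool.Agent.EWG

namespace SLK_

theorem pf1_mul_br {K : Type} [Field K] {a q : Kˣ} (h : pf a q = 0) : pf1 a * br q = pf1 a := by
  have h1 : pf1 a + pf1 a * br q = 0 := by
    rw [← h]; unfold pf; unfold pf1; ring
  have h2 := add_self' (pf1 a)
  linear_combination h1 - h2

end SLK_

open SLK_ in
theorem slk_proof (hREL : Stmt_REL) (hPFZ : Stmt_PFZ) (hPF3 : Stmt_PF3) : Stmt_SLK := by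
  intro K _ hK a b c h
  obtain ⟨r1, r2, r3, r4⟩ := hREL K hK
  obtain ⟨s, t, u, v, hc⟩ := (hPF3 K hK a b c).1 h
  by_cases hp : (a : K) * t ^ 2 + b * u ^ 2 + a * b * v ^ 2 = 0
  · refine ⟨a, b, rfl, ?_⟩
    have hs : (c : K) = s ^ 2 := by rw [hc]; linear_combination hp
    have hsq : IsSquare (c * 1) := by
      have hs0 : s ≠ 0 := by
        rintro rfl
        exact c.ne_zero (by rw [hs]; ring)
      refine ⟨Units.mk0 s hs0, ?_⟩
      ext
      push_cast
      rw [Units.val_mk0, hs]; ring
    have h1 : br c = 1 := by rw [(r1 c 1).2 hsq, br_one]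
    unfold pf pf1
    rw [h1, add_self', zero_mul]
  · set p : Kˣ := Units.mk0 _ hp with hpdef
    have hpv : (p : K) = a * t ^ 2 + b * u ^ 2 + a * b * v ^ 2 := rfl
    have hcp : pf c p = 0 := by
      rw [pf_comm]
      exact (hPFZ K hK p c).2 ⟨s, 1, by rw [hc, hpv]; ring⟩
    by_cases hq : u ^ 2 + (a : K) * v ^ 2 = 0
    · have ht : t ≠ 0 := by
        rintro rfl
        apply hp
        linear_combination (b : K) * hq
      have hpa : p = a * (Units.mk0 t ht) ^ 2 := by
        ext
        rw [hpv, Units.val_mul, Units.val_pow_eq_pow_val, Units.val_mk0]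
        linear_combination (b : K) * hq
      refine ⟨p, b, ?_, hcp⟩
      unfold pf pf1
      rw [hpa, r4]
    · set q : Kˣ := Units.mk0 _ hq with hqdef
      have hqv : (q : K) = u ^ 2 + a * v ^ 2 := rfl
      have haq : pf a q = 0 := (hPFZ K hK a q).2 ⟨u, v, hqv⟩
      have hbq : pf a b = pf a (b * q) := by
        have := pf1_mul_br haq
        unfold pf
        have e : pf1 (b * q) = 1 + br b * br q := by unfold pf1; rw [br_mul]
        rw [e]
        have e' : pf1 b = 1 + br b := rfl
        rw [e']
        linear_combination (-(br b)) * this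
      by_cases ht : t = 0
      · refine ⟨p, a, ?_, hcp⟩
        have hpb : p = b * q := by
          ext
          rw [hpv, Units.val_mul, hqv, ht]; ring
        rw [hbq, hpb, pf_comm]
      · refine ⟨p, a * b * q, ?_, hcp⟩
        set T : Kˣ := Units.mk0 t ht with hTdef
        have hTv : (T : K) = t := rfl
        have e3 := r3 (a * T ^ 2) (b * q) p (by
          push_cast
          rw [hpv, hqv, hTv]; ring)
        rw [r4] at e3
        have e4 : br (a * T ^ 2 * (b * q) * p) = br (a * b * q * p) := by
          rw [show a * T ^ 2 * (b * q) * p = (a * b * q * p) * T ^ 2 by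
            simp only [mul_assoc, mul_left_comm, mul_comm], r4]
        rw [e4] at e3
        rw [hbq]
        unfold pf pf1
        have m1 : br (b * q) = br b * br q := br_mul _ _
        have m2 : br (a * b * q) = br a * br b * br q := by rw [br_mul, br_mul]
        have m3 : br (a * b * q * p) = br a * br b * br q * br p := by rw [br_mul, m2]
        rw [m3, m1] at e3
        rw [m1, m2]
        linear_combination e3

end Pool.Agent.EWG
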