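import Pool.Agent.EWG.Stmts

set_option autoImplicit false

namespace Pool.Agent.EWG

theorem smp_proof : Stmt_SMP := by
  intro K V _ _ _ _ B hB P hP
  obtain ⟨N, hN, hNd⟩ := hB
  have h1 := Submodule.finrank_sup_add_finrank_inf_eq N P
  have h2 : Module.finrank K ↥(N ⊔ P) ≤ Module.finrank K V := Submodule.finrank_le _
  have h3 : 0 < Module.finrank K ↥(N ⊓ P) := by omega
  have h4 : N ⊓ P ≠ ⊥ := by
    intro h
    rw [h, finrank_bot] at h3
    exact lt_irrefl _ h3
  obtain ⟨v, hv, hv0⟩ := Submodule.exists_mem_ne_zero_of_ne_bot h4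
  exact ⟨v, hv.2, hv0, hN v hv.1 v hv.1⟩

end Pool.Agent.EWG
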