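import Pool.Agent.EWG.Stmts

/-!
Squad EWG, module SP0: splitting off a hyperbolic plane.
-/

set_option autoImplicit false

namespace Pool.Agent.EWG

open scoped BigOperators

namespace SP0_

lemma hyp (K : Type) [Field K] : Split K (ud ![(1 : Kˣ), -1]) := by
  refine ⟨Submodule.span K {(fun _ => 1 : Fin 2 → K)}, ?_, ?_⟩
  · intro x hx y hy
    obtain ⟨r, rfl⟩ := Submodule.mem_span_singleton.1 hx
    obtain ⟨s, rfl⟩ := Submodule.mem_span_singleton.1 hy
    simp [Fin.sum_univ_two]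
  · rw [finrank_span_singleton, Module.finrank_fin_fun]
    intro h
    have := congrFun h 0
    simp at this

lemma hyp0 (hWZ : Stmt_WZ) (K : Type) [Field K] (hK : Good K) : br (1 : Kˣ) + br (-1 : Kˣ) = 0 := by
  have h := (hWZ K hK (Fin 2) ![(1 : Kˣ), -1]).2 (hyp K)
  rw [Fin.sum_univ_two] at h
  simpa using h

end SP0_

open SP0_

theorem sp0_proof (hDIA : Stmt_DIA) (hWZ : Stmt_WZ) (hSP2 : Stmt_SP2) : Stmt_SP0 := by
  intro K _ hK n a v hv hvv
  obtain ⟨hsym, hnd⟩ := hDIA K (Fin (n + 2)) a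
  set B := ud a with hB
  clear_value B
  have h2 : (2 : K) ≠ 0 := hK.two
  obtain ⟨w₀, hw₀⟩ : ∃ w₀, B v w₀ ≠ 0 := by
    by_contra hcon
    push Not at hcon
    exact hv (hnd v hcon)
  obtain ⟨w₁, h1⟩ : ∃ w₁, B v w₁ = 1 :=
    ⟨(B v w₀)⁻¹ • w₀, by rw [map_smul, smul_eq_mul, inv_mul_cancel₀ hw₀]⟩
  set w := w₁ - (B w₁ w₁ / 2) • v with hw
  have hvw : B v w = 1 := by
    rw [hw, map_sub, map_smul, h1, hvv, smul_zero, sub_zero]
  have hwv : B w v = 1 := by rw [hsym, hvw]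
  have hww : B w w = 0 := by
    have h3 : B w₁ v = 1 := by rw [hsym, h1]
    have : B w w = B w₁ w₁ - (B w₁ w₁ / 2) * B w₁ v
        - (B w₁ w₁ / 2) * (B v w₁ - (B w₁ w₁ / 2) * B v v) := by
      rw [hw]
      simp only [map_sub, map_smul, LinearMap.sub_apply, LinearMap.smul_apply, smul_eq_mul]
      ring
    rw [this, h3, h1, hvv]
    field_simp
    ring
  have hexp : ∀ r s : K, B (v + r • w) (v + s • w) = r + s := by
    intro r s
    simp only [map_add, map_smul, LinearMap.add_apply, LinearMap.smul_apply, smul_eq_mul]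
    rw [hvv, hvw, hwv, hww]
    ring
  have hp : B (v + (1 / 2 : K) • w) (v + (1 / 2 : K) • w) = ((1 : Kˣ) : K) := by
    rw [hexp]
    simp only [Units.val_one]
    field_simp
    norm_num
  have hm : B (v + (-(1 / 2) : K) • w) (v + (-(1 / 2) : K) • w) = ((-1 : Kˣ) : K) := by
    rw [hexp]
    simp only [Units.val_neg, Units.val_one]
    field_simp
    norm_num
  have hpm : B (v + (1 / 2 : K) • w) (v + (-(1 / 2) : K) • w) = 0 := by
    rw [hexp]
    ring
  subst hB
  obtain ⟨a', ha'⟩ := hSP2 K hK n a _ _ 1 (-1) hp hm hpm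
  refine ⟨a', ?_⟩
  rw [ha', hyp0 hWZ K hK, zero_add]

end Pool.Agent.EWG
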