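import Pool.Agent.EWG.Stmts

/-!
Module SP1: splitting off one anisotropic vector.
-/

set_option autoImplicit false

namespace Pool.Agent.EWG

namespace SP1_

open scoped BigOperators

variable {K : Type} [Field K]

theorem std {n : ℕ} (a : Fin n → Kˣ) : OB (ud a) (Pi.basisFun K (Fin n)) a := by
  constructor
  · intro i j hij
    rw [ud_apply]
    apply Finset.sum_eq_zero
    intro k _
    rw [Pi.basisFun_apply, Pi.basisFun_apply]
    by_cases hk : k = i
    · subst hk
      rw [Pi.single_eq_of_ne hij, mul_zero]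
    · rw [Pi.single_eq_of_ne hk, mul_zero, zero_mul]
  · intro i
    rw [ud_apply, Finset.sum_eq_single i]
    · rw [Pi.basisFun_apply, Pi.single_eq_same, mul_one, mul_one]
    · intro k _ hk
      rw [Pi.basisFun_apply, Pi.single_eq_of_ne hk, mul_zero]
    · intro h
      exact absurd (Finset.mem_univ i) h

end SP1_

theorem sp1_proof (hDIA : Stmt_DIA) (hOR1 : Stmt_OR1) (hCLQ : Stmt_CLQ) : Stmt_SP1 := by
  intro K _ hK n a v d hv
  obtain ⟨w, a', h1, _, h3⟩ := hOR1 K (Fin (n + 1) → K) (ud a) n hK.two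
    (hDIA K (Fin (n + 1)) a) (by rw [Module.finrank_fin_fun]) v d hv
  refine ⟨fun i => a' i.succ, ?_⟩
  rw [hCLQ K (Fin (n + 1) → K) hK (Fin (n + 1)) (Fin (n + 1)) (ud a) (Pi.basisFun K (Fin (n + 1)))
    a w a' (SP1_.std a) h1, Fin.sum_univ_succ, h3]

end Pool.Agent.EWG
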