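import Pool.Agent.EWG.Stmts

/-!
Module STR: the transfer exists.
-/

set_option autoImplicit false

namespace Pool.Agent.EWG

namespace STR_

open scoped BigOperators

/-- the projection to the Witt ring -/
noncomputable def pr (K : Type) [Field K] : MonoidAlgebra (ZMod 2) Kˣ →+* W K :=
  Ideal.Quotient.mk (rel K)

theorem pr_surj (K : Type) [Field K] : Function.Surjective (pr K) := Ideal.Quotient.mk_surjective

theorem pr_zero {K : Type} [Field K] (f : MonoidAlgebra (ZMod 2) Kˣ) : pr K f = 0 ↔ f ∈ rel K :=
  Ideal.Quotient.eq_zero_iff_mem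

theorem pr_of {K : Type} [Field K] (w : Kˣ) : pr K (MonoidAlgebra.of (ZMod 2) Kˣ w) = br w := rfl

/-- every element of the group algebra is a sum of group elements -/
theorem exists_sum {K : Type} [Field K] (f : MonoidAlgebra (ZMod 2) Kˣ) :
    ∃ (n : ℕ) (w : Fin n → Kˣ), f = ∑ i, MonoidAlgebra.of (ZMod 2) Kˣ (w i) := by
  classical
  refine ⟨f.coeff.support.card, fun i => (f.coeff.support.equivFin.symm i : Kˣ), ?_⟩
  rw [Equiv.sum_comp f.coeff.support.equivFin.symm
    (fun u : f.coeff.support => MonoidAlgebra.of (ZMod 2) Kˣ (u : Kˣ))]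
  rw [Finset.sum_coe_sort f.coeff.support (fun u => MonoidAlgebra.of (ZMod 2) Kˣ u)]
  conv_lhs => rw [← MonoidAlgebra.sum_coeff_single f]
  rw [Finsupp.sum]
  apply Finset.sum_congr rfl
  intro u hu
  rw [MonoidAlgebra.of_apply]
  congr 1
  have h := Finsupp.mem_support_iff.1 hu
  generalize f.coeff u = z at h
  revert h
  revert z
  decide

section

variable {F K : Type} [Field F] [Field K] [Algebra F K]

open Classical in
/-- the value of the transfer on a unit -/
noncomputable def val (E : QD F K) (w : Kˣ) : W F :=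
  if h : E.s w = 0 then 0 else br (Units.mk0 _ h) + br (Units.mk0 _ h * E.nm w)

theorem val_zero (E : QD F K) (w : Kˣ) (h : E.s w = 0) : val E w = 0 := by
  unfold val; rw [dif_pos h]

theorem val_ne (E : QD F K) (w : Kˣ) (β : Fˣ) (h : (β : F) = E.s w) :
    val E w = br β + br (β * E.nm w) := by
  have h0 : E.s w ≠ 0 := by rw [← h]; exact β.ne_zero
  have h1 : Units.mk0 _ h0 = β := by ext; rw [Units.val_mk0, h]
  unfold val
  rw [dif_neg h0, h1]

/-- the transfer on the group algebra -/
noncomputable def T0 (E : QD F K) : MonoidAlgebra (ZMod 2) Kˣ →+ W F :=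
  (Finsupp.linearCombination (ZMod 2) (val E)).toAddMonoidHom.comp
    (MonoidAlgebra.coeffAddEquiv (R := ZMod 2) (M := Kˣ)).toAddMonoidHom

theorem T0_of (E : QD F K) (w : Kˣ) : T0 E (MonoidAlgebra.of (ZMod 2) Kˣ w) = val E w := by
  have h : T0 E (MonoidAlgebra.of (ZMod 2) Kˣ w) =
      Finsupp.linearCombination (ZMod 2) (val E) (Finsupp.single w 1) := rfl
  rw [h, Finsupp.linearCombination_single, one_smul]

theorem finrank_eq_two (E : QD F K) : Module.finrank F K = 2 := by
  have hb : Function.Bijective (E.t.prod E.s) := by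
    constructor
    · intro x y hxy
      have h1 : E.t x = E.t y := congrArg Prod.fst hxy
      have h2 : E.s x = E.s y := congrArg Prod.snd hxy
      rw [E.dec x, E.dec y, h1, h2]
    · rintro ⟨a, b⟩
      refine ⟨algebraMap F K a + algebraMap F K b * E.θ, ?_⟩
      have h1 : E.t (algebraMap F K a + algebraMap F K b * E.θ) = a := by
        rw [map_add, E.t1, E.tθ, add_zero]
      have h2 : E.s (algebraMap F K a + algebraMap F K b * E.θ) = b := by
        rw [map_add, E.s1, E.sθ, zero_add]
      exact Prod.ext h1 h2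
  rw [LinearEquiv.finrank_eq (LinearEquiv.ofBijective (E.t.prod E.s) hb), Module.finrank_prod,
    Module.finrank_self]

theorem split_sB (E : QD F K) {n : ℕ} (w : Fin n → Kˣ) (h : Split K (ud w)) :
    Split F (sB E (ud w)) := by
  obtain ⟨N, hN, hd⟩ := h
  refine ⟨N.restrictScalars F, ?_, ?_⟩
  · intro x hx y hy
    rw [sB_apply, hN x hx y hy, map_zero]
  · have h2 := finrank_eq_two E
    have e1 : Module.finrank F (N.restrictScalars F) = Module.finrank F N :=
      LinearEquiv.finrank_eq ((N.restrictScalarsEquiv F K (Fin n → K)).restrictScalars F)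
    have e2 : Module.finrank F K * Module.finrank K N = Module.finrank F N :=
      Module.finrank_mul_finrank F K N
    have e3 : Module.finrank F K * Module.finrank K (Fin n → K) = Module.finrank F (Fin n → K) :=
      Module.finrank_mul_finrank F K (Fin n → K)
    rw [e1, ← e2, ← e3, h2, ← hd]

end

end STR_

open STR_ in
theorem str_proof (hSPI : Stmt_SPI) (hOBI : Stmt_OBI) (hWZ : Stmt_WZ) (hSCL : Stmt_SCL) :
    Stmt_STR := by
  intro F K _ _ _ hF E
  have hK : Good K := hF.map (algebraMap F K)
  have key : ∀ f ∈ rel K, T0 E f = 0 := by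
    intro f hf
    obtain ⟨n, w, rfl⟩ := exists_sum f
    have h0 : ∑ i, br (w i) = (0 : W K) := by
      have h1 := (pr_zero _).2 hf
      rw [map_sum] at h1
      exact h1
    have hs := (hWZ K hK (Fin n) w).1 h0
    obtain ⟨v, a, hv, ha⟩ := hSCL F K hF E n w
    obtain ⟨e, he⟩ := hOBI F (Fin n → K) (Fin n × Fin 2) (sB E (ud w)) v _ hv
    have hs2 := hSPI F (Fin n → K) (Fin n × Fin 2 → F) e _ _ he (split_sB E w hs)
    have hz := (hWZ F hF (Fin n × Fin 2) _).2 hs2
    rw [Fintype.sum_prod_type] at hz
    rw [map_sum, ← hz]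
    apply Finset.sum_congr rfl
    intro i _
    rw [T0_of, Fin.sum_univ_two]
    by_cases h : E.s (w i) = 0
    · rw [val_zero E _ h, (ha i).2 h]
    · rw [val_ne E _ (Units.mk0 _ h) rfl, (ha i).1 (Units.mk0 _ h) rfl]
  have hsur := pr_surj K
  have hwd : ∀ f g : MonoidAlgebra (ZMod 2) Kˣ, pr K f = pr K g → T0 E f = T0 E g := by
    intro f g h
    have h1 := key (f - g) ((pr_zero _).1 (by rw [map_sub, h, sub_self]))
    rw [map_sub, sub_eq_zero] at h1
    exact h1
  have hex : ∃ T : W K →+ W F, IsTr E T := by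
    let T : W K →+ W F :=
      { toFun := fun c => T0 E (Function.surjInv hsur c)
        map_zero' := by
          rw [← map_zero (T0 E)]
          apply hwd
          rw [Function.surjInv_eq hsur, map_zero]
        map_add' := by
          intro c d
          rw [← map_add (T0 E)]
          apply hwd
          rw [Function.surjInv_eq hsur, map_add, Function.surjInv_eq hsur,
            Function.surjInv_eq hsur] }
    have hT : ∀ w : Kˣ, T (br w) = val E w := by
      intro w
      rw [← T0_of E w]
      apply hwd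
      exact Function.surjInv_eq hsur _
    refine ⟨T, fun w => ⟨fun β hβ => ?_, fun h => ?_⟩⟩
    · rw [hT, val_ne E w β hβ]
    · rw [hT, val_zero E w h]
  unfold QD.tr
  rw [dif_pos hex]
  exact hex.choose_spec

end Pool.Agent.EWG
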