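import Pool.Agent.EWG.Stmts

/-! Every element of the Witt ring is the class of a diagonal form. -/

set_option autoImplicit false

namespace Pool.Agent.EWG

open scoped BigOperators

namespace SUR_

theorem key {K : Type} [Field K] (f : MonoidAlgebra (ZMod 2) Kˣ) : ∃ (n : ℕ) (a : Fin n → Kˣ),
    f = ∑ i, MonoidAlgebra.of (ZMod 2) Kˣ (a i) := by
  induction f using MonoidAlgebra.induction_on with
  | of g => exact ⟨1, fun _ => g, by simp⟩
  | add f g hf hg =>
    obtain ⟨n, a, ha⟩ := hf
    obtain ⟨m, b, hb⟩ := hg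
    refine ⟨n + m, Fin.append a b, ?_⟩
    rw [Fin.sum_univ_add]
    simp only [Fin.append_left, Fin.append_right]
    rw [← ha, ← hb]
  | smul r f hf =>
    have hr : r = 0 ∨ r = 1 := by
      revert r; decide
    rcases hr with hr | hr
    · exact ⟨0, fun i => i.elim0, by rw [hr, zero_smul]; simp⟩
    · rw [hr, one_smul]; exact hf

end SUR_

theorem sur_proof : Stmt_SUR := by
  intro K _ c
  obtain ⟨f, hf⟩ := Ideal.Quotient.mk_surjective (I := rel K) c
  obtain ⟨n, a, ha⟩ := SUR_.key f
  refine ⟨n, a, ?_⟩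
  rw [← hf, ha, map_sum]
  rfl

end Pool.Agent.EWG
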