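import Pool.Agent.EWG.Stmts

set_option autoImplicit false

namespace Pool.Agent.EWG

theorem ti2_proof (_hREL : Stmt_REL) (hSLK : Stmt_SLK) (hBIL : Stmt_BIL) (hMAP : Stmt_MAP)
    (hTPF : Stmt_TPF) (hI3K : Stmt_I3K) (hRTD : Stmt_RTD) (hVKR : Stmt_VKR) : Stmt_TI2 := by
  intro F K _ _ _ hF h3 E
  have hK : Good K := Good.map (algebraMap F K) hF
  have h3K : I3 K := hI3K F K hF h3 E
  obtain ⟨-, -, -, b4, b5⟩ := hBIL F hF h3
  obtain ⟨-, -, -, k4, k5⟩ := hBIL K hK h3K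
  obtain ⟨-, -, v3⟩ := hVKR F K hF E
  have key : ∀ {A B : Type} [Field A] [Field B] (f : A →+* B) (g : W A →+* W B), IsMap f g →
      ∀ a b : Aˣ, g (pf a b) = pf (Units.map f.toMonoidHom a) (Units.map f.toMonoidHom b) := by
    intro A B _ _ f g hg a b
    unfold pf pf1
    rw [map_mul, map_add, map_add, map_one, hg a, hg b]
  refine ⟨?_, ?_, ?_, ?_⟩
  · intro c hc
    obtain ⟨n, a, b, rfl⟩ := k5 c hc
    rw [map_sum]
    refine Ideal.sum_mem _ fun i _ => ?_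
    obtain ⟨b', c', h⟩ := hRTD F K hF h3K E (a i) (b i)
    rw [h, map_add, map_add, hTPF F K hF h3 E, hTPF F K hF h3 E, hTPF F K hF h3 E]
    exact Ideal.add_mem _ (Ideal.add_mem _ (b4 _ _) (b4 _ _)) (b4 _ _)
  · intro c hc
    obtain ⟨n, a, b, rfl⟩ := b5 c hc
    obtain ⟨g, hg, hg'⟩ := hMAP F K (algebraMap F K)
    rw [rs, hg', map_sum]
    refine Ideal.sum_mem _ fun i _ => ?_
    rw [key _ g hg]
    exact k4 _ _
  · intro c hc
    obtain ⟨n, a, b, rfl⟩ := k5 c hc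
    obtain ⟨g, hg, hg'⟩ := hMAP K K (E.σ : K →+* K)
    rw [QD.cj, hg', map_sum]
    refine Ideal.sum_mem _ fun i _ => ?_
    rw [key _ g hg]
    exact k4 _ _
  · intro c hc
    obtain ⟨n, a, b, rfl⟩ := b5 c hc
    have h : ∀ i, ∃ c ∈ (I K) ^ 2, E.tr c = pf (a i) (b i) := by
      intro i
      obtain ⟨a', b', e1, e2⟩ := hSLK F hF (a i) (b i) E.x (h3 _ _ _)
      obtain ⟨w, hw⟩ := (v3 a').1 e2
      exact ⟨pf (iu F b') w, k4 _ _, by rw [hTPF F K hF h3 E, hw, pf_comm, e1]⟩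
    choose c hc1 hc2 using h
    exact ⟨∑ i, c i, Ideal.sum_mem _ fun i _ => hc1 i, by
      rw [map_sum]; exact Finset.sum_congr rfl fun i _ => hc2 i⟩

end Pool.Agent.EWG
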