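import Pool.Agent.EWG.Stmts

/-!
Squad EWG, module WZ: a diagonal form is zero in the Witt ring iff it is split.
-/

set_option autoImplicit false

namespace Pool.Agent.EWG

open scoped BigOperators

namespace WZ_

variable {K : Type} [Field K]

/-- isometric diagonal forms: reindexing -/
theorem split_reindex (hSPI : Stmt_SPI) {ι κ : Type} [Fintype ι] [Fintype κ] (e : ι ≃ κ)
    (a : κ → Kˣ) (h : Split K (ud a)) : Split K (ud (a ∘ e)) := by
  refine hSPI K (κ → K) (ι → K) (LinearEquiv.funCongrLeft K K e) (ud a) (ud (a ∘ e)) ?_ h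
  intro x y
  simp only [ud_apply, LinearEquiv.funCongrLeft_apply, LinearMap.funLeft_apply, Function.comp]
  exact Equiv.sum_comp e (fun j => (a j : K) * x j * y j)

theorem split_sum (hSPI : Stmt_SPI) {ι κ : Type} [Fintype ι] [Fintype κ] (a : ι → Kˣ)
    (b : κ → Kˣ) (h : Split K (osum (ud a) (ud b))) : Split K (ud (Sum.elim a b)) := by
  refine hSPI K ((ι → K) × (κ → K)) (ι ⊕ κ → K) (LinearEquiv.sumArrowLequivProdArrow ι κ K K).symm
    _ _ ?_ h
  rintro ⟨x, x'⟩ ⟨y, y'⟩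
  simp [Fintype.sum_sum_type]

theorem sum_split (hSPI : Stmt_SPI) {ι κ : Type} [Fintype ι] [Fintype κ] (a : ι → Kˣ)
    (b : κ → Kˣ) (h : Split K (ud (Sum.elim a b))) : Split K (osum (ud a) (ud b)) := by
  refine hSPI K (ι ⊕ κ → K) ((ι → K) × (κ → K)) (LinearEquiv.sumArrowLequivProdArrow ι κ K K)
    _ _ ?_ h
  intro x y
  simp [Fintype.sum_sum_type]

/-- sums of classes of split families -/
def P (f : MonoidAlgebra (ZMod 2) Kˣ) : Prop :=
  ∃ (ι : Type) (_ : Fintype ι) (a : ι → Kˣ),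
    Split K (ud a) ∧ f = ∑ i, MonoidAlgebra.of (ZMod 2) Kˣ (a i)

theorem P_zero : P (0 : MonoidAlgebra (ZMod 2) Kˣ) := by
  refine ⟨Fin 0, inferInstance, Fin.elim0, ⟨⊥, ?_, ?_⟩, ?_⟩
  · intro x hx y hy
    rw [(Submodule.mem_bot K).1 hx]
    simp
  · simp
  · simp

theorem P_add (hSPI : Stmt_SPI) (hOSU : Stmt_OSU) {f g : MonoidAlgebra (ZMod 2) Kˣ} (hf : P f)
    (hg : P g) : P (f + g) := by
  obtain ⟨ι, hι, a, ha, rfl⟩ := hf
  obtain ⟨κ, hκ, b, hb, rfl⟩ := hg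
  refine ⟨ι ⊕ κ, inferInstance, Sum.elim a b, split_sum hSPI a b (hOSU K _ _ _ _ ha hb), ?_⟩
  simp [Fintype.sum_sum_type]

theorem P_of {f : MonoidAlgebra (ZMod 2) Kˣ} (hf : P f) (u : Kˣ) :
    P (MonoidAlgebra.of (ZMod 2) Kˣ u * f) := by
  obtain ⟨ι, hι, a, ⟨N, hN, hd⟩, rfl⟩ := hf
  refine ⟨ι, hι, fun i => u * a i, ⟨N, ?_, hd⟩, ?_⟩
  · intro x hx y hy
    have h := hN x hx y hy
    rw [ud_apply] at h ⊢
    have : ∑ i, ((u * a i : Kˣ) : K) * x i * y i = (u : K) * ∑ i, (a i : K) * x i * y i := by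
      rw [Finset.mul_sum]
      refine Finset.sum_congr rfl fun i _ => ?_
      push_cast
      ring
    rw [this, h, mul_zero]
  · rw [Finset.mul_sum]
    refine Finset.sum_congr rfl fun i _ => ?_
    rw [map_mul]

theorem P_mul (hSPI : Stmt_SPI) (hOSU : Stmt_OSU) (g : MonoidAlgebra (ZMod 2) Kˣ) :
    ∀ f : MonoidAlgebra (ZMod 2) Kˣ, P f → P (g * f) := by
  refine MonoidAlgebra.induction_on (motive := fun g => ∀ f : MonoidAlgebra (ZMod 2) Kˣ, P f → P (g * f)) g ?_ ?_ ?_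
  · intro u f hf
    exact P_of hf u
  · intro g₁ g₂ h₁ h₂ f hf
    rw [add_mul]
    exact P_add hSPI hOSU (h₁ f hf) (h₂ f hf)
  · intro r g h f hf
    have hr : r = 0 ∨ r = 1 := by
      revert r
      decide
    rcases hr with rfl | rfl
    · rw [zero_smul, zero_mul]
      exact P_zero
    · rw [one_smul]
      exact h f hf

theorem P_rel (hSPI : Stmt_SPI) (hOSU : Stmt_OSU) {f : MonoidAlgebra (ZMod 2) Kˣ}
    (hf : f ∈ rel K) : P f := by
  let T : Ideal (MonoidAlgebra (ZMod 2) Kˣ) :=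
    { carrier := {f | P f}
      add_mem' := fun h₁ h₂ => P_add hSPI hOSU h₁ h₂
      zero_mem' := P_zero
      smul_mem' := fun g f hf => P_mul hSPI hOSU g f hf }
  have h : rel K ≤ T := by
    refine Ideal.span_le.2 ?_
    rintro f ⟨n, a, ha, rfl⟩
    exact ⟨Fin n, inferInstance, a, ha, rfl⟩
  exact h hf

theorem sum_br {ι : Type} [Fintype ι] (a : ι → Kˣ) :
    ∑ i, br (a i) = 0 ↔ ∑ i, MonoidAlgebra.of (ZMod 2) Kˣ (a i) ∈ rel K := by
  rw [← Ideal.Quotient.eq_zero_iff_mem, map_sum]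
  rfl

theorem dbl (x : MonoidAlgebra (ZMod 2) Kˣ) : x + x = 0 := by
  have h : (2 : ZMod 2) = 0 := rfl
  calc x + x = (2 : ZMod 2) • x := by rw [two_smul]
    _ = 0 := by rw [h, zero_smul]

end WZ_

open WZ_

theorem wz_proof (hSPI : Stmt_SPI) (hOSU : Stmt_OSU) (hCAN : Stmt_CAN) (hDIA : Stmt_DIA)
    (hEVN : Stmt_EVN) : Stmt_WZ := by
  intro K _ hK ι _ a
  rw [sum_br]
  constructor
  · intro h
    obtain ⟨κ, hκ, b, hb, hab⟩ := P_rel hSPI hOSU h
    let e := Fintype.equivFin (ι ⊕ κ)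
    have h1 : Split K (ud ((Sum.elim a b) ∘ e.symm)) := by
      refine hEVN K hK _ _ ?_
      have h2 : ∑ i, MonoidAlgebra.of (ZMod 2) Kˣ (((Sum.elim a b) ∘ e.symm) i)
          = ∑ j, MonoidAlgebra.of (ZMod 2) Kˣ (Sum.elim a b j) :=
        Equiv.sum_comp e.symm (fun j => MonoidAlgebra.of (ZMod 2) Kˣ (Sum.elim a b j))
      rw [h2, Fintype.sum_sum_type]
      simp only [Sum.elim_inl, Sum.elim_inr]
      rw [hab]
      exact dbl _
    have h3 : Split K (ud (Sum.elim a b)) := by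
      have := split_reindex hSPI e _ h1
      have h4 : ((Sum.elim a b) ∘ e.symm) ∘ e = Sum.elim a b := by
        funext j
        simp
      rwa [h4] at this
    exact hCAN K _ _ _ _ (hDIA K ι a) (hDIA K κ b) (sum_split hSPI a b h3) hb
  · intro h
    let e := Fintype.equivFin ι
    have h1 : Split K (ud (a ∘ e.symm)) := split_reindex hSPI e.symm a h
    refine Ideal.subset_span ⟨_, a ∘ e.symm, h1, ?_⟩
    exact (Equiv.sum_comp e.symm (fun j => MonoidAlgebra.of (ZMod 2) Kˣ (a j))).symm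

end Pool.Agent.EWG
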