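import Pool.Agent.EWG.SPI
import Pool.Agent.EWG.OSU
import Pool.Agent.EWG.CAN
import Pool.Agent.EWG.SMP
import Pool.Agent.EWG.GRA
import Pool.Agent.EWG.DIA
import Pool.Agent.EWG.OBI
import Pool.Agent.EWG.SDD
import Pool.Agent.EWG.ORB
import Pool.Agent.EWG.OR1
import Pool.Agent.EWG.EVN
import Pool.Agent.EWG.WZ
import Pool.Agent.EWG.SUR
import Pool.Agent.EWG.CLQ
import Pool.Agent.EWG.SP1
import Pool.Agent.EWG.SP2
import Pool.Agent.EWG.SP0
import Pool.Agent.EWG.MIN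
import Pool.Agent.EWG.REL
import Pool.Agent.EWG.AUG
import Pool.Agent.EWG.EVI
import Pool.Agent.EWG.IM2
import Pool.Agent.EWG.DI2
import Pool.Agent.EWG.PFZ
import Pool.Agent.EWG.PF3
import Pool.Agent.EWG.LNK
import Pool.Agent.EWG.SLK
import Pool.Agent.EWG.BIL
import Pool.Agent.EWG.MAP
import Pool.Agent.EWG.QDE
import Pool.Agent.EWG.SCL
import Pool.Agent.EWG.STR
import Pool.Agent.EWG.SIS
import Pool.Agent.EWG.PRJ
import Pool.Agent.EWG.RTQ
import Pool.Agent.EWG.TPF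
import Pool.Agent.EWG.I3K
import Pool.Agent.EWG.RTD
import Pool.Agent.EWG.NPR
import Pool.Agent.EWG.RKR
import Pool.Agent.EWG.KTR
import Pool.Agent.EWG.KR2
import Pool.Agent.EWG.VKR
import Pool.Agent.EWG.FIN
import Pool.Agent.EWG.ECN
import Pool.Agent.EWG.QBL
import Pool.Agent.EWG.QSF
import Pool.Agent.EWG.ISO
import Pool.Agent.EWG.KT2
import Pool.Agent.EWG.TI2
import Pool.Agent.EWG.QEX

/-!
Assembly of the squad EWG.
-/

namespace Pool.Agent.EWG

theorem q_spi : Stmt_SPI := spi_proof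

theorem q_osu : Stmt_OSU := osu_proof

theorem q_can : Stmt_CAN := CAN_proof

theorem q_smp : Stmt_SMP := smp_proof

theorem q_gra : Stmt_GRA := gra_proof

theorem q_dia : Stmt_DIA := dia_proof

theorem q_obi : Stmt_OBI := obi_proof

theorem q_sdd : Stmt_SDD := sdd_proof

theorem q_orb : Stmt_ORB := orb_proof

theorem q_or1 : Stmt_OR1 := or1_proof q_orb

theorem q_evn : Stmt_EVN := evn_proof q_spi q_osu q_gra

theorem q_wz : Stmt_WZ := wz_proof q_spi q_osu q_can q_dia q_evn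

theorem q_sur : Stmt_SUR := sur_proof

theorem q_clq : Stmt_CLQ := clq_proof q_spi q_gra q_obi q_wz

theorem q_sp1 : Stmt_SP1 := sp1_proof q_dia q_or1 q_clq

theorem q_sp2 : Stmt_SP2 := sp2_proof q_dia q_or1 q_clq

theorem q_sp0 : Stmt_SP0 := sp0_proof q_dia q_wz q_sp2

theorem q_min : Stmt_MIN := min_proof q_sur q_sp0

theorem q_rel : Stmt_REL := rel_proof q_sdd q_wz q_clq

theorem q_aug : Stmt_AUG := aug_proof q_sdd q_sur

theorem q_evi : Stmt_EVI := evi_proof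

theorem q_im2 : Stmt_IM2 := im2_proof q_sur q_aug q_evi

theorem q_di2 : Stmt_DI2 := di2_proof q_sdd q_wz q_sur

theorem q_pfz : Stmt_PFZ := pfz_proof q_smp q_wz q_rel

theorem q_pf3 : Stmt_PF3 := pf3_proof q_smp q_dia q_wz q_rel q_pfz

theorem q_lnk : Stmt_LNK := lnk_proof q_smp q_wz q_rel q_pfz

theorem q_slk : Stmt_SLK := slk_proof q_rel q_pfz q_pf3

theorem q_bil : Stmt_BIL := bil_proof q_sur

theorem q_map : Stmt_MAP := map_proof q_sur

theorem q_qde : Stmt_QDE := qde_proof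

theorem q_scl : Stmt_SCL := scl_proof q_rel

theorem q_str : Stmt_STR := str_proof q_spi q_obi q_wz q_scl

theorem q_sis : Stmt_SIS := sis_proof q_spi q_smp q_obi q_wz q_scl q_str

theorem q_prj : Stmt_PRJ := prj_proof q_sur q_rel q_map q_str

theorem q_rtq : Stmt_RTQ := rtq_proof q_sur q_rel q_map q_str

theorem q_tpf : Stmt_TPF := tpf_proof q_rel q_bil q_map q_str q_prj

theorem q_i3k : Stmt_I3K := i3k_proof q_sur q_rel q_pfz q_pf3 q_map q_str q_sis q_prj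

theorem q_rtd : Stmt_RTD := rtd_proof q_rel q_pfz q_bil

theorem q_npr : Stmt_NPR := npr_proof q_rel q_pfz q_map q_str q_sis q_prj

theorem q_rkr : Stmt_RKR := rkr_proof q_smp q_wz q_sur q_sp2 q_sp0 q_rel q_map

theorem q_ktr : Stmt_KTR := ktr_proof q_sur q_sp1 q_sp0 q_map q_str q_sis

theorem q_kr2 : Stmt_KR2 := kr2_proof q_aug q_im2 q_di2 q_bil q_map q_rkr

theorem q_vkr : Stmt_VKR := vkr_proof q_pfz

theorem q_fin : Stmt_FIN := fin_proof q_rel q_bil q_vkr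

theorem q_ecn : Stmt_ECN := ecn_proof q_rel q_pfz q_vkr

theorem q_qbl : Stmt_QBL := qbl_proof q_rel q_lnk q_bil

theorem q_qsf : Stmt_QSF := qsf_proof q_rel q_lnk

theorem q_iso : Stmt_ISO := iso_proof q_rel q_clq q_pfz q_lnk

theorem q_kt2 : Stmt_KT2 := kt2_proof q_rel q_aug q_im2 q_di2 q_map q_ktr q_vkr

theorem q_ti2 : Stmt_TI2 := ti2_proof q_rel q_slk q_bil q_map q_tpf q_i3k q_rtd q_vkr

theorem q_qex : Stmt_QEX := qex_proof q_rel q_lnk q_bil q_map q_str q_prj q_rtq q_tpf q_i3k q_rtd q_npr q_kr2 q_kt2 q_ti2 q_vkr q_qbl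

end Pool.Agent.EWG
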