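import Pool.Agent.EWG.Defs
import Pool.Agent.DSC.Defs

/-!
Statements of the modules of the squad EWG (Witt rings, quadratic extensions).
-/

set_option autoImplicit false

namespace Pool.Agent.EWG

open scoped BigOperators

/-! ### A. Linear algebra of split forms -/

/-- isometry -/
def Stmt_SPI : Prop := ∀ (K V V' : Type) [Field K] [AddCommGroup V] [Module K V] [AddCommGroup V']
  [Module K V'] (e : V ≃ₗ[K] V') (B : LinearMap.BilinForm K V) (B' : LinearMap.BilinForm K V'),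
  (∀ x y, B' (e x) (e y) = B x y) → Split K B → Split K B'

/-- orthogonal sum -/
def Stmt_OSU : Prop := ∀ (K V V' : Type) [Field K] [AddCommGroup V] [Module K V] [AddCommGroup V']
  [Module K V'] [FiniteDimensional K V] [FiniteDimensional K V'] (B : LinearMap.BilinForm K V)
  (B' : LinearMap.BilinForm K V'), Split K B → Split K B' → Split K (osum B B')

/-- cancellation -/
def Stmt_CAN : Prop := ∀ (K V V' : Type) [Field K] [AddCommGroup V] [Module K V] [AddCommGroup V']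
  [Module K V'] [FiniteDimensional K V] [FiniteDimensional K V'] (B : LinearMap.BilinForm K V)
  (B' : LinearMap.BilinForm K V'), SN B → SN B' → Split K (osum B B') → Split K B' → Split K B

/-- a split form is isotropic on every subspace of more than half the dimension -/
def Stmt_SMP : Prop := ∀ (K V : Type) [Field K] [AddCommGroup V] [Module K V]
  [FiniteDimensional K V] (B : LinearMap.BilinForm K V), Split K B → ∀ P : Submodule K V,
  Module.finrank K V < 2 * Module.finrank K P → ∃ v ∈ P, v ≠ 0 ∧ B v v = 0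

/-- `B ⊥ B` is split if `-1` is a square -/
def Stmt_GRA : Prop := ∀ (K V : Type) [Field K] [AddCommGroup V] [Module K V]
  [FiniteDimensional K V] (B : LinearMap.BilinForm K V), (∃ i : K, i ^ 2 = -1) → Split K (osum B B)

/-- diagonal forms are symmetric and nondegenerate -/
def Stmt_DIA : Prop := ∀ (K ι : Type) [Field K] [Fintype ι] (a : ι → Kˣ), SN (ud a)

/-- a form with an orthogonal basis of values `a` is isometric to `ud a` -/
def Stmt_OBI : Prop := ∀ (K V ι : Type) [Field K] [AddCommGroup V] [Module K V] [Fintype ι]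
  (B : LinearMap.BilinForm K V) (v : Module.Basis ι K V) (a : ι → Kˣ), OB B v a →
  ∃ e : V ≃ₗ[K] (ι → K), ∀ x y, ud a (e x) (e y) = B x y

/-- the discriminant of a split form -/
def Stmt_SDD : Prop := ∀ (K : Type) [Field K], Good K → ∀ (n : ℕ) (a : Fin n → Kˣ),
  Split K (ud a) → Even n ∧ IsSquare (∏ i, a i)

/-- orthogonal bases -/
def Stmt_ORB : Prop := ∀ (K V : Type) [Field K] [AddCommGroup V] [Module K V]
  [FiniteDimensional K V] (B : LinearMap.BilinForm K V), (2 : K) ≠ 0 → SN B →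
  ∃ (v : Module.Basis (Fin (Module.finrank K V)) K V) (a : Fin (Module.finrank K V) → Kˣ), OB B v a

/-- extending an anisotropic vector to an orthogonal basis -/
def Stmt_OR1 : Prop := ∀ (K V : Type) [Field K] [AddCommGroup V] [Module K V]
  [FiniteDimensional K V] (B : LinearMap.BilinForm K V) (n : ℕ), (2 : K) ≠ 0 → SN B →
  Module.finrank K V = n + 1 → ∀ (u : V) (d : Kˣ), B u u = (d : K) →
  ∃ (v : Module.Basis (Fin (n + 1)) K V) (a : Fin (n + 1) → Kˣ), OB B v a ∧ v 0 = u ∧ a 0 = d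

/-! ### B. The Witt ring -/

/-- even multiplicities -/
def Stmt_EVN : Prop := ∀ (K : Type) [Field K], Good K → ∀ (n : ℕ) (a : Fin n → Kˣ),
  ∑ i, MonoidAlgebra.of (ZMod 2) Kˣ (a i) = 0 → Split K (ud a)

/-- THE KEY FACT: a diagonal form is zero in `W(K)` iff it is split -/
def Stmt_WZ : Prop := ∀ (K : Type) [Field K], Good K → ∀ (ι : Type) [Fintype ι] (a : ι → Kˣ),
  ∑ i, br (a i) = 0 ↔ Split K (ud a)

/-- every element of `W(K)` is the class of an anisotropic diagonal form -/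
def Stmt_MIN : Prop := ∀ (K : Type) [Field K], Good K → ∀ c : W K, ∃ (n : ℕ) (a : Fin n → Kˣ),
  c = ∑ i, br (a i) ∧ ∀ v, ud a v v = 0 → v = 0

/-- every element of `W(K)` is the class of a diagonal form -/
def Stmt_SUR : Prop := ∀ (K : Type) [Field K] (c : W K), ∃ (n : ℕ) (a : Fin n → Kˣ),
  c = ∑ i, br (a i)

/-- the class of a form does not depend on the orthogonal basis -/
def Stmt_CLQ : Prop := ∀ (K V : Type) [Field K] [AddCommGroup V] [Module K V], Good K →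
  ∀ (ι ι' : Type) [Fintype ι] [Fintype ι'] (B : LinearMap.BilinForm K V) (v : Module.Basis ι K V)
  (a : ι → Kˣ) (v' : Module.Basis ι' K V) (a' : ι' → Kˣ), OB B v a → OB B v' a' →
  ∑ i, br (a i) = ∑ i, br (a' i)

/-- splitting off one vector -/
def Stmt_SP1 : Prop := ∀ (K : Type) [Field K], Good K → ∀ (n : ℕ) (a : Fin (n + 1) → Kˣ)
  (v : Fin (n + 1) → K) (d : Kˣ), ud a v v = (d : K) →
  ∃ a' : Fin n → Kˣ, ∑ i, br (a i) = br d + ∑ i, br (a' i)

/-- splitting off two orthogonal vectors -/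
def Stmt_SP2 : Prop := ∀ (K : Type) [Field K], Good K → ∀ (n : ℕ) (a : Fin (n + 2) → Kˣ)
  (v w : Fin (n + 2) → K) (d e : Kˣ), ud a v v = (d : K) → ud a w w = (e : K) → ud a v w = 0 →
  ∃ a' : Fin n → Kˣ, ∑ i, br (a i) = br d + br e + ∑ i, br (a' i)

/-- splitting off a hyperbolic plane -/
def Stmt_SP0 : Prop := ∀ (K : Type) [Field K], Good K → ∀ (n : ℕ) (a : Fin (n + 2) → Kˣ)
  (v : Fin (n + 2) → K), v ≠ 0 → ud a v v = 0 →
  ∃ a' : Fin n → Kˣ, ∑ i, br (a i) = ∑ i, br (a' i)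

/-- basic relations -/
def Stmt_REL : Prop := ∀ (K : Type) [Field K], Good K →
  (∀ a b : Kˣ, br a = br b ↔ IsSquare (a * b)) ∧ (∀ a : Kˣ, br (-a) = br a) ∧
  (∀ a b c : Kˣ, (c : K) = a + b → br a + br b = br c + br (a * b * c)) ∧
  (∀ a b : Kˣ, br (a * b ^ 2) = br a)

/-- dimension mod 2 -/
def Stmt_AUG : Prop := ∀ (K : Type) [Field K], Good K → ∃ ε : W K →+* ZMod 2,
  (∀ a, ε (br a) = 1) ∧ ∀ c, ε c = 0 ↔ c ∈ I K

/-- even forms modulo `I²` -/
def Stmt_EVI : Prop := ∀ (K : Type) [Field K], Good K → ∀ (n : ℕ) (a : Fin n → Kˣ), Even n →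
  ∑ i, br (a i) + pf1 (∏ i, a i) ∈ (I K) ^ 2

/-- elements of `I` modulo `I²` -/
def Stmt_IM2 : Prop := ∀ (K : Type) [Field K], Good K → ∀ c ∈ I K, ∃ a : Kˣ, c + pf1 a ∈ (I K) ^ 2

/-- `⟨⟨a⟩⟩ ∈ I²` only if `a` is a square -/
def Stmt_DI2 : Prop := ∀ (K : Type) [Field K], Good K → ∀ a : Kˣ, pf1 a ∈ (I K) ^ 2 → IsSquare a

/-! ### C. Pfister forms -/

def Stmt_PFZ : Prop := ∀ (K : Type) [Field K], Good K → ∀ a b : Kˣ,
  pf a b = 0 ↔ ∃ s t : K, (b : K) = s ^ 2 + a * t ^ 2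

def Stmt_PF3 : Prop := ∀ (K : Type) [Field K], Good K → ∀ a b c : Kˣ,
  pf3 a b c = 0 ↔ ∃ s t u v : K, (c : K) = s ^ 2 + a * t ^ 2 + b * u ^ 2 + a * b * v ^ 2

/-- linkage -/
def Stmt_LNK : Prop := ∀ (K : Type) [Field K], Good K → ∀ a b c d : Kˣ, pf a b = pf c d →
  ∃ x, pf a x = pf a b ∧ pf c x = pf a b

/-- slot orthogonal to `c` -/
def Stmt_SLK : Prop := ∀ (K : Type) [Field K], Good K → ∀ a b c : Kˣ, pf3 a b c = 0 →
  ∃ a' b', pf a b = pf a' b' ∧ pf c a' = 0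

/-- consequences of `I³ = 0` -/
def Stmt_BIL : Prop := ∀ (K : Type) [Field K], Good K → I3 K →
  (∀ a b c : Kˣ, pf a (b * c) = pf a b + pf a c) ∧ (∀ c ∈ (I K) ^ 3, c = 0) ∧
  (∀ (a : Kˣ), ∀ c ∈ (I K) ^ 2, br a * c = c) ∧ (∀ a b : Kˣ, pf a b ∈ (I K) ^ 2) ∧
  ∀ c ∈ (I K) ^ 2, ∃ (n : ℕ) (a b : Fin n → Kˣ), c = ∑ i, pf (a i) (b i)

/-! ### D. Restriction and transfer -/

def Stmt_MAP : Prop := ∀ (K L : Type) [Field K] [Field L] (f : K →+* L),
  ∃ g : W K →+* W L, IsMap f g ∧ ∀ c, wmap f c = g c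

/-- every extension of degree 2 is of the form `QD` -/
def Stmt_QDE : Prop := ∀ (F K : Type) [Field F] [Field K] [Algebra F K], (2 : F) ≠ 0 →
  Module.finrank F K = 2 → Nonempty (QD F K)

/-- class and vanishing of the transferred form -/
def Stmt_SCL : Prop := ∀ (F K : Type) [Field F] [Field K] [Algebra F K], Good F →
  ∀ (E : QD F K) (n : ℕ) (w : Fin n → Kˣ), ∃ (v : Module.Basis (Fin n × Fin 2) F (Fin n → K))
  (a : Fin n → Fin 2 → Fˣ), OB (sB E (ud w)) v (fun i => a i.1 i.2) ∧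
  ∀ i, (∀ β : Fˣ, (β : F) = E.s (w i) → br (a i 0) + br (a i 1) = br β + br (β * E.nm (w i))) ∧
    (E.s (w i) = 0 → br (a i 0) + br (a i 1) = 0)

/-- the transfer exists -/
def Stmt_STR : Prop := ∀ (F K : Type) [Field F] [Field K] [Algebra F K], Good F →
  ∀ E : QD F K, IsTr E E.tr

/-- a form with transfer zero represents an element of `F` -/
def Stmt_SIS : Prop := ∀ (F K : Type) [Field F] [Field K] [Algebra F K], Good F →
  ∀ (E : QD F K) (n : ℕ) (w : Fin (n + 1) → Kˣ), E.tr (∑ i, br (w i)) = 0 →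
  ∃ (z : Fin (n + 1) → K) (e : F), z ≠ 0 ∧ ∑ i, (w i : K) * z i * z i = algebraMap F K e

/-- projection formula -/
def Stmt_PRJ : Prop := ∀ (F K : Type) [Field F] [Field K] [Algebra F K], Good F →
  ∀ (E : QD F K) (a : W F) (c : W K), E.tr (rs F K a * c) = a * E.tr c

/-- `res ∘ tr = ⟨2θ⟩ (1 + σ)`, `tr ∘ res = 0`, `σ` on `W(K)` -/
def Stmt_RTQ : Prop := ∀ (F K : Type) [Field F] [Field K] [Algebra F K], Good F →
  ∀ E : QD F K, (∀ (u : Kˣ) (c : W K), (u : K) = 2 * E.θ → rs F K (E.tr c) = br u * (c + E.cj c)) ∧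
  (∀ a : W F, E.tr (rs F K a) = 0) ∧ (∀ a : W F, E.cj (rs F K a) = rs F K a) ∧
  ∀ c : W K, E.cj (E.cj c) = c

/-! ### E. `I³ = 0` and quadratic extensions -/

/-- `tr ⟨⟨a, w⟩⟩ = ⟨⟨a, N w⟩⟩` -/
def Stmt_TPF : Prop := ∀ (F K : Type) [Field F] [Field K] [Algebra F K], Good F → I3 F →
  ∀ (E : QD F K) (a : Fˣ) (w : Kˣ), E.tr (pf (iu F a) w) = pf a (E.nm w)

/-- `I³ = 0` goes up -/
def Stmt_I3K : Prop := ∀ (F K : Type) [Field F] [Field K] [Algebra F K], Good F → I3 F →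
  QD F K → I3 K

/-- the dependency of Rosset and Tate -/
def Stmt_RTD : Prop := ∀ (F K : Type) [Field F] [Field K] [Algebra F K], Good F → I3 K →
  ∀ (_ : QD F K) (w y : Kˣ), ∃ b c : Fˣ,
    pf w y = pf (iu F b) (iu F c) + pf (iu F b) y + pf (iu F c) w

/-- norm principle -/
def Stmt_NPR : Prop := ∀ (F K : Type) [Field F] [Field K] [Algebra F K], Good F →
  ∀ (E : QD F K) (y : Fˣ) (w : Kˣ), pf y (E.nm w) = 0 →
  ∃ f : Fˣ, pf (iu F y) w = pf (iu F y) (iu F f)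

/-- kernel of the restriction -/
def Stmt_RKR : Prop := ∀ (F K : Type) [Field F] [Field K] [Algebra F K], Good F →
  ∀ (E : QD F K) (c : W F), rs F K c = 0 ↔ ∃ d, c = pf1 E.x * d

/-- kernel of the transfer -/
def Stmt_KTR : Prop := ∀ (F K : Type) [Field F] [Field K] [Algebra F K], Good F →
  ∀ (E : QD F K) (c : W K), E.tr c = 0 → ∃ d : W F, c = rs F K d

/-- kernel of the restriction on `I²` -/
def Stmt_KR2 : Prop := ∀ (F K : Type) [Field F] [Field K] [Algebra F K], Good F → I3 F →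
  ∀ E : QD F K, ∀ b ∈ (I F) ^ 2, rs F K b = 0 ↔ ∃ v, b = pf E.x v

/-- kernel of the transfer on `I²` -/
def Stmt_KT2 : Prop := ∀ (F K : Type) [Field F] [Field K] [Algebra F K], Good F → I3 F →
  ∀ E : QD F K, ∀ c ∈ (I K) ^ 2, E.tr c = 0 → ∃ d ∈ (I F) ^ 2, c = rs F K d

/-- restriction, transfer and conjugation on `I²` -/
def Stmt_TI2 : Prop := ∀ (F K : Type) [Field F] [Field K] [Algebra F K], Good F → I3 F →
  ∀ E : QD F K, (∀ c ∈ (I K) ^ 2, E.tr c ∈ (I F) ^ 2) ∧ (∀ b ∈ (I F) ^ 2, rs F K b ∈ (I K) ^ 2) ∧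
  (∀ c ∈ (I K) ^ 2, E.cj c ∈ (I K) ^ 2) ∧ ∀ b ∈ (I F) ^ 2, ∃ c ∈ (I K) ^ 2, E.tr c = b

/-- square classes: Hilbert 90, kernel of the restriction, norms -/
def Stmt_VKR : Prop := ∀ (F K : Type) [Field F] [Field K] [Algebra F K], Good F →
  ∀ E : QD F K, (∀ w : Kˣ, IsSquare (E.nm w) ↔ ∃ f : Fˣ, IsSquare (w * iu F f)) ∧
  (∀ f : Fˣ, IsSquare (iu F f : Kˣ) ↔ IsSquare f ∨ IsSquare (f * E.x)) ∧
  (∀ v : Fˣ, pf E.x v = 0 ↔ ∃ w : Kˣ, E.nm w = v)

/-- finiteness -/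
def Stmt_FIN : Prop := ∀ (F : Type) [Field F], Good F → Finite (VV F) →
  (I3 F → Finite (BB F)) ∧ ∀ (K : Type) [Field K] [Algebra F K], QD F K → Finite (VV K)

/-- the `e`-formula: `|V_K| · |q(x, V_F)| = (|V_F| / 2) · |V_F|`, in the form
`2 |V_K| |{⟨⟨x, v⟩⟩}| = |V_F|²` -/
def Stmt_ECN : Prop := ∀ (F K : Type) [Field F] [Field K] [Algebra F K], Good F →
  Finite (VV F) → ∀ E : QD F K,
  2 * (Nat.card (VV K) * Nat.card (Set.range fun v : Fˣ => pf E.x v)) = Nat.card (VV F) ^ 2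

/-! ### F. Interface -/

/-- the bilinear map `V × V → B` -/
def Stmt_QBL : Prop := ∀ (K : Type) [Field K], Good K → I3 K →
  ∃ q : VV K →ₗ[ZMod 2] VV K →ₗ[ZMod 2] BB K, (∀ a b : Kˣ, (q (vm a) (vm b) : W K) = pf a b) ∧
    CommonSlot.IsLinked q 0 ∧ ∀ b : BB K, ∃ (n : ℕ) (v w : Fin n → VV K), b = ∑ i, q (v i) (w i)

/-- the quadratic extension data of the descent -/
def Stmt_QEX : Prop := ∀ (F K : Type) [Field F] [Field K] [Algebra F K], Good F → I3 F →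
  ∀ E : QD F K, ∃ D : DSC.QExt (VV F) (BB F) (VV K) (BB K),
    (∀ a b : Fˣ, (D.q (vm a) (vm b) : W F) = pf a b) ∧
    (∀ a b : Kˣ, (D.q' (vm a) (vm b) : W K) = pf a b) ∧ D.x = vm E.x

/-- THE QUATERNIONIC STRUCTURE OF A FIELD in which `-1` is a square: `G = Kˣ/Kˣ²`,
`q(a, b) = ⟨⟨a, b⟩⟩` -/
def Stmt_QSF : Prop := ∀ (K : Type) [Field K], Good K → ∃ (S : QS.QStruct) (φ : Kˣ →* S.G),
  Function.Surjective φ ∧ (∀ a, φ a = 1 ↔ IsSquare a) ∧ S.neg = φ (-1) ∧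
  ∀ a b c d, S.q (φ a) (φ b) = S.q (φ c) (φ d) ↔ pf a b = pf c d

/-- isometry of the norm forms `x² - a y² - b z² + a b w²` and `x² - c y² - d z² + c d w²` is
equality in `W(K)` -/
def Stmt_ISO : Prop := ∀ (K : Type) [Field K], Good K → ∀ a b c d : Kˣ,
  pf a b = pf c d ↔ ∃ e : (Fin 4 → K) ≃ₗ[K] (Fin 4 → K), ∀ x y,
    ud ![1, -c, -d, c * d] (e x) (e y) = ud ![1, -a, -b, a * b] x y

end Pool.Agent.EWG
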