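import Mathlib

/-!
Witt rings of symmetric bilinear forms over a field `K` with `2 ≠ 0` in which `-1` is a square,
and one quadratic extension (field part of the field theorem for the elementary type conjecture,
problem MP_d26ff6_al).

All forms are nondegenerate and symmetric; since `-1` is a square the Witt ring is an
`F_2`-algebra; it is defined as a quotient of the group algebra `F_2[Kˣ]`.
-/

set_option autoImplicit false

namespace Pool.Agent.EWG

open scoped BigOperators

/-! ### Split forms -/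

section Forms

variable (K : Type) [Field K] {V V' : Type} [AddCommGroup V] [Module K V] [AddCommGroup V'] [Module K V']

/-- `B` has a totally isotropic subspace of half the dimension. -/
def Split (B : LinearMap.BilinForm K V) : Prop :=
  ∃ N : Submodule K V, (∀ x ∈ N, ∀ y ∈ N, B x y = 0) ∧ 2 * Module.finrank K N = Module.finrank K V

variable {K}

/-- symmetric and nondegenerate -/
def SN (B : LinearMap.BilinForm K V) : Prop :=
  (∀ x y, B x y = B y x) ∧ ∀ x, (∀ y, B x y = 0) → x = 0

/-- The orthogonal sum on the product. -/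
def osum (B : LinearMap.BilinForm K V) (B' : LinearMap.BilinForm K V') :
    LinearMap.BilinForm K (V × V') :=
  LinearMap.mk₂ K (fun u v => B u.1 v.1 + B' u.2 v.2)
    (fun a b c => by simp; abel) (fun r a b => by simp [mul_add])
    (fun a b c => by simp; abel) (fun r a b => by simp [mul_add])

/-- The diagonal form `⟨a_i⟩_{i ∈ ι}` on `ι → K`. -/
def diag {ι : Type} [Fintype ι] (a : ι → K) : LinearMap.BilinForm K (ι → K) :=
  LinearMap.mk₂ K (fun x y => ∑ i, a i * x i * y i)
    (fun x x' y => by rw [← Finset.sum_add_distrib]; exact Finset.sum_congr rfl fun i _ => by simp; ring)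
    (fun r x y => by rw [smul_eq_mul, Finset.mul_sum]; exact Finset.sum_congr rfl fun i _ => by simp; ring)
    (fun x y y' => by rw [← Finset.sum_add_distrib]; exact Finset.sum_congr rfl fun i _ => by simp; ring)
    (fun r x y => by rw [smul_eq_mul, Finset.mul_sum]; exact Finset.sum_congr rfl fun i _ => by simp; ring)

@[simp] theorem osum_apply (B : LinearMap.BilinForm K V) (B' : LinearMap.BilinForm K V')
    (u v : V × V') : osum B B' u v = B u.1 v.1 + B' u.2 v.2 := rfl

@[simp] theorem diag_apply {ι : Type} [Fintype ι] (a x y : ι → K) :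
    diag a x y = ∑ i, a i * x i * y i := rfl

/-- the diagonal form of a family of units -/
def ud {ι : Type} [Fintype ι] (a : ι → Kˣ) : LinearMap.BilinForm K (ι → K) :=
  diag fun i => (a i : K)

@[simp] theorem ud_apply {ι : Type} [Fintype ι] (a : ι → Kˣ) (x y : ι → K) :
    ud a x y = ∑ i, (a i : K) * x i * y i := rfl

/-- `v` is an orthogonal basis of `B` with the values `a`. -/
def OB {ι : Type} (B : LinearMap.BilinForm K V) (v : Module.Basis ι K V) (a : ι → Kˣ) : Prop :=
  (∀ i j, i ≠ j → B (v i) (v j) = 0) ∧ ∀ i, B (v i) (v i) = (a i : K)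

end Forms

/-! ### The Witt ring -/

section Witt

variable (K : Type) [Field K]

/-- the relations: split diagonal forms -/
noncomputable def rel : Ideal (MonoidAlgebra (ZMod 2) Kˣ) :=
  Ideal.span {f | ∃ (n : ℕ) (a : Fin n → Kˣ),
    Split K (ud a) ∧ f = ∑ i, MonoidAlgebra.of (ZMod 2) Kˣ (a i)}

/-- The Witt ring `W(K)` (for `2 ≠ 0` and `-1` a square). -/
def W : Type := MonoidAlgebra (ZMod 2) Kˣ ⧸ rel K

noncomputable instance : CommRing (W K) := inferInstanceAs (CommRing (MonoidAlgebra (ZMod 2) Kˣ ⧸ rel K))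

noncomputable instance : Algebra (ZMod 2) (W K) :=
  inferInstanceAs (Algebra (ZMod 2) (MonoidAlgebra (ZMod 2) Kˣ ⧸ rel K))

variable {K}

/-- the class `⟨a⟩` of the one-dimensional form `a x y` -/
noncomputable def br (a : Kˣ) : W K := Ideal.Quotient.mk (rel K) (MonoidAlgebra.of (ZMod 2) Kˣ a)

theorem br_mul (a b : Kˣ) : br (a * b) = br a * br b := by
  unfold br; rw [map_mul, map_mul]; rfl

@[simp] theorem br_one : br (1 : Kˣ) = 1 := by
  unfold br; rw [map_one, map_one]; rfl

theorem add_self' (c : W K) : c + c = 0 := by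
  have h : (2 : ZMod 2) = 0 := rfl
  calc c + c = (2 : ZMod 2) • c := by rw [two_smul]
    _ = 0 := by rw [h, zero_smul]

/-- `⟨⟨a⟩⟩ = ⟨1, a⟩` -/
noncomputable def pf1 (a : Kˣ) : W K := 1 + br a

/-- `⟨⟨a, b⟩⟩` -/
noncomputable def pf (a b : Kˣ) : W K := pf1 a * pf1 b

/-- `⟨⟨a, b, c⟩⟩` -/
noncomputable def pf3 (a b c : Kˣ) : W K := pf1 a * pf1 b * pf1 c

theorem pf_comm (a b : Kˣ) : pf a b = pf b a := by unfold pf; ring

variable (K)

/-- the fundamental ideal -/
noncomputable def I : Ideal (W K) := Ideal.span (Set.range (pf1 (K := K)))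

/-- `I³ = 0` -/
def I3 : Prop := ∀ a b c : Kˣ, pf3 a b c = 0

/-- the standing hypotheses on a field -/
structure Good : Prop where
  two : (2 : K) ≠ 0
  neg : ∃ i : K, i ^ 2 = -1

/-- `V(K) = Kˣ / Kˣ²`, written additively -/
def VV : Type := Additive (Kˣ ⧸ (powMonoidHom 2 : Kˣ →* Kˣ).range)

instance : AddCommGroup (VV K) :=
  inferInstanceAs (AddCommGroup (Additive (Kˣ ⧸ (powMonoidHom 2 : Kˣ →* Kˣ).range)))

variable {K}

/-- the class of a unit in `V(K)` -/
def vm (a : Kˣ) : VV K := Additive.ofMul (QuotientGroup.mk a)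

theorem vm_surj (v : VV K) : ∃ a : Kˣ, vm a = v := by
  obtain ⟨z, hz⟩ := QuotientGroup.mk_surjective
    (show Kˣ ⧸ (powMonoidHom 2 : Kˣ →* Kˣ).range from Additive.toMul v)
  exact ⟨z, by rw [vm, hz]; rfl⟩

theorem vm_mul (a b : Kˣ) : vm (a * b) = vm a + vm b := rfl

theorem vm_one : vm (1 : Kˣ) = 0 := rfl

theorem vm_eq_zero (a : Kˣ) : vm a = 0 ↔ IsSquare a := by
  have h : vm a = 0 ↔ (QuotientGroup.mk a : Kˣ ⧸ (powMonoidHom 2 : Kˣ →* Kˣ).range) = 1 := Iff.rfl
  rw [h, QuotientGroup.eq_one_iff]
  constructor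
  · rintro ⟨z, rfl⟩; exact ⟨z, by simp [pow_two]⟩
  · rintro ⟨z, rfl⟩; exact ⟨z, by simp [pow_two]⟩

theorem vm_add_self (v : VV K) : v + v = 0 := by
  obtain ⟨a, rfl⟩ := vm_surj v
  rw [← vm_mul, vm_eq_zero]
  exact ⟨a, rfl⟩

theorem vm_eq_iff (a b : Kˣ) : vm a = vm b ↔ IsSquare (a * b) := by
  rw [← vm_eq_zero, vm_mul]
  constructor
  · intro h; rw [h, vm_add_self]
  · intro h
    calc vm a = vm a + (vm b + vm b) := by rw [vm_add_self, add_zero]
      _ = vm b := by rw [← add_assoc, h, zero_add]

variable (K)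

noncomputable instance instVV : Module (ZMod 2) (VV K) :=
  AddCommGroup.zmodModule (n := 2) fun v => by rw [two_nsmul, vm_add_self]

/-- `B(K) = I²(K)` as an `F_2`-space -/
noncomputable def BB : Submodule (ZMod 2) (W K) := ((I K) ^ 2).restrictScalars (ZMod 2)

end Witt

/-! ### Restriction -/

/-- the map `W(K) → W(L)` of a homomorphism of fields -/
def IsMap {K L : Type} [Field K] [Field L] (f : K →+* L) (g : W K →+* W L) : Prop :=
  ∀ a : Kˣ, g (br a) = br (Units.map f.toMonoidHom a)

open Classical in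
/-- the map `W(K) → W(L)` of a homomorphism of fields -/
noncomputable def wmap {K L : Type} [Field K] [Field L] (f : K →+* L) : W K → W L :=
  if h : ∃ g : W K →+* W L, IsMap f g then h.choose else fun _ => 0

theorem Good.map {F K : Type} [Field F] [Field K] (f : F →+* K) (h : Good F) : Good K where
  two := by
    have := (map_ne_zero f).2 h.two
    rwa [map_ofNat] at this
  neg := by
    obtain ⟨i, hi⟩ := h.neg
    exact ⟨f i, by rw [← map_pow, hi, map_neg, map_one]⟩

/-! ### Quadratic extensions -/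

section Quad

variable (F K : Type) [Field F] [Field K] [Algebra F K]

/-- the inclusion on units -/
def iu {K : Type} [Field K] [Algebra F K] (a : Fˣ) : Kˣ :=
  Units.map (algebraMap F K).toMonoidHom a

@[simp] theorem iu_coe (a : Fˣ) : ((iu F a : Kˣ) : K) = algebraMap F K a := rfl

/-- scalar extension `W(F) → W(K)` -/
noncomputable def rs : W F → W K := wmap (algebraMap F K)

/-- A quadratic extension `K = F(θ)`, `θ² = x`: coordinates `w = t w + (s w) θ`, conjugation
`σ`, norm `nm`. -/
structure QD where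
  x : Fˣ
  θ : Kˣ
  t : K →ₗ[F] F
  s : K →ₗ[F] F
  σ : K ≃ₐ[F] K
  nm : Kˣ →* Fˣ
  sq : (θ : K) ^ 2 = algebraMap F K x
  ns : ¬ IsSquare x
  dec : ∀ w : K, w = algebraMap F K (t w) + algebraMap F K (s w) * θ
  t1 : ∀ a : F, t (algebraMap F K a) = a
  tθ : ∀ a : F, t (algebraMap F K a * θ) = 0
  s1 : ∀ a : F, s (algebraMap F K a) = 0
  sθ : ∀ a : F, s (algebraMap F K a * θ) = a
  σθ : σ θ = -θ
  nmσ : ∀ w : Kˣ, algebraMap F K (nm w) = w * σ w
  nmt : ∀ w : Kˣ, (nm w : F) = t w ^ 2 - x * s w ^ 2

variable {F K}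

/-- the `F`-form `s ∘ B` of a `K`-form `B` -/
noncomputable def sB (E : QD F K) {V : Type} [AddCommGroup V] [Module F V] [Module K V]
    [IsScalarTower F K V] (B : LinearMap.BilinForm K V) : LinearMap.BilinForm F V :=
  LinearMap.mk₂ F (fun x y => E.s (B x y))
    (fun x x' y => by simp)
    (fun r x y => by
      rw [← map_smul, ← algebraMap_smul K r x, map_smul, LinearMap.smul_apply, smul_eq_mul,
        Algebra.smul_def])
    (fun x y y' => by simp)
    (fun r x y => by
      rw [← map_smul, ← algebraMap_smul K r y, map_smul, smul_eq_mul, Algebra.smul_def])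

@[simp] theorem sB_apply (E : QD F K) {V : Type} [AddCommGroup V] [Module F V] [Module K V]
    [IsScalarTower F K V] (B : LinearMap.BilinForm K V) (x y : V) : sB E B x y = E.s (B x y) := rfl

/-- `T` is the transfer `W(K) → W(F)` with respect to `s` -/
def IsTr (E : QD F K) (T : W K →+ W F) : Prop :=
  ∀ w : Kˣ, (∀ β : Fˣ, (β : F) = E.s w → T (br w) = br β + br (β * E.nm w)) ∧
    (E.s w = 0 → T (br w) = 0)

open Classical in
/-- the transfer `W(K) → W(F)` with respect to `s` -/
noncomputable def QD.tr (E : QD F K) : W K →+ W F :=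
  if h : ∃ T : W K →+ W F, IsTr E T then h.choose else 0

/-- conjugation on `W(K)` -/
noncomputable def QD.cj (E : QD F K) : W K → W K := wmap (E.σ : K →+* K)

end Quad

end Pool.Agent.EWG
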