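import Pool.Agent.EWG.Stmts

set_option autoImplicit false

namespace Pool.Agent.EWG

theorem min_proof (hSUR : Stmt_SUR) (hSP0 : Stmt_SP0) : Stmt_MIN := by
  classical
  intro K _ hK c
  obtain ⟨n, ⟨a, ha⟩, hmin⟩ : ∃ n, (∃ a : Fin n → Kˣ, c = ∑ i, br (a i)) ∧
      ∀ m < n, ¬ ∃ a : Fin m → Kˣ, c = ∑ i, br (a i) := by
    have hex : ∃ n, ∃ a : Fin n → Kˣ, c = ∑ i, br (a i) := hSUR K c
    exact ⟨Nat.find hex, Nat.find_spec hex, fun m hm => Nat.find_min hex hm⟩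
  refine ⟨n, a, ha, ?_⟩
  intro v hv
  by_contra hv0
  match n, a, ha, hmin, v, hv, hv0 with
  | 0, a, ha, hmin, v, hv, hv0 => exact hv0 (Subsingleton.elim _ _)
  | 1, a, ha, hmin, v, hv, hv0 =>
    rw [ud_apply, Fin.sum_univ_one] at hv
    apply hv0
    funext i
    have h0 : v 0 = 0 := by
      have : (a 0 : K) ≠ 0 := (a 0).ne_zero
      simpa [this] using hv
    rw [Subsingleton.elim i 0, h0]; rfl
  | (m + 2), a, ha, hmin, v, hv, hv0 =>
    obtain ⟨a', ha'⟩ := hSP0 K hK m a v hv0 hv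
    exact hmin m (by omega) ⟨a', ha.trans ha'⟩

end Pool.Agent.EWG
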