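import Pool.Agent.EWG.Stmts

/-!
# Squad EWG: isometry
-/

set_option autoImplicit false

namespace Pool.Agent.EWG

theorem spi_proof : Stmt_SPI := by
  intro K V V' _ _ _ _ _ e B B' h hS
  obtain ⟨N, hN, hd⟩ := hS
  refine ⟨N.map (e : V →ₗ[K] V'), ?_, ?_⟩
  · rintro x hx y hy
    obtain ⟨x', hx', rfl⟩ := Submodule.mem_map.1 hx
    obtain ⟨y', hy', rfl⟩ := Submodule.mem_map.1 hy
    have := h x' y'
    change B' (e x') (e y') = 0
    rw [this]
    exact hN x' hx' y' hy'
  · rw [LinearEquiv.finrank_map_eq, ← e.finrank_eq]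
    exact hd

end Pool.Agent.EWG
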