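import Pool.Agent.EWG.Stmts

namespace Pool.Agent.EWG

theorem tpf_proof (hREL : Stmt_REL) (hBIL : Stmt_BIL) (hMAP : Stmt_MAP) (hSTR : Stmt_STR)
    (hPRJ : Stmt_PRJ) : Stmt_TPF := by
  intro F K _ _ _ hF h3 E a w
  obtain ⟨b1, b2, b3, b4, b5⟩ := hBIL F hF h3
  obtain ⟨r1, r2, r3, r4⟩ := hREL F hF
  have hT := hSTR F K hF E
  obtain ⟨g, hg, hg'⟩ := hMAP F K (algebraMap F K)
  have e1 : pf (iu F a) w = rs F K (pf1 a) * pf1 w := by
    unfold pf rs
    rw [hg']
    congr 1
    unfold pf1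
    rw [map_add, map_one, hg]
    rfl
  rw [e1, hPRJ F K hF E]
  have e2 : E.tr (pf1 w) = E.tr (br w) := by
    unfold pf1
    rw [map_add]
    have : E.tr (1 : W K) = 0 := by
      rw [← br_one]
      refine (hT 1).2 ?_
      have := E.s1 1
      rwa [map_one] at this
    rw [this, zero_add]
  rw [e2]
  by_cases hs : E.s w = 0
  · rw [(hT w).2 hs, mul_zero]
    have hn : (E.nm w : F) = (E.t w) ^ 2 := by rw [E.nmt, hs]; ring
    have ht : E.t w ≠ 0 := by
      intro h; rw [h] at hn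
      exact (E.nm w).ne_zero (by rw [hn]; ring)
    have : E.nm w = 1 * (Units.mk0 (E.t w) ht) ^ 2 := by
      ext; rw [hn]; simp
    have h1 : br (E.nm w) = 1 := by rw [this, r4, br_one]
    unfold pf
    have h2 : pf1 (E.nm w) = 0 := by unfold pf1; rw [h1]; exact add_self' 1
    rw [h2, mul_zero]
  · have h := (hT w).1 (Units.mk0 _ hs) rfl
    rw [h, br_mul]
    have : pf1 a * (br (Units.mk0 _ hs) + br (Units.mk0 _ hs) * br (E.nm w)) =
        br (Units.mk0 _ hs) * pf a (E.nm w) := by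
      unfold pf; unfold pf1; ring
    rw [this]
    exact b3 _ _ (b4 a (E.nm w))

end Pool.Agent.EWG
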